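import Pool.Agent.H66.SIT.Defs

/-!
# The Jordan-Steiner action as an action of a group, and codes for group actions
-/

open scoped Pointwise

namespace Pool.Agent.H66.SIT

/-- version of strong incidence-transitivity for group actions -/
structure IsSITA (G : Type*) {V : Type*} [Group G] [MulAction G V] (k : ℕ)
    (C : Set (Set V)) : Prop where
  isCode : IsCode k C
  le_aut : ∀ g : G, ∀ γ ∈ C, g • γ ∈ C
  trans : ∀ γ ∈ C, ∀ u ∈ γ, ∀ u' ∉ γ, ∀ δ ∈ C, ∀ w ∈ δ, ∀ w' ∉ δ,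
    ∃ g : G, g • γ = δ ∧ g • u = w ∧ g • u' = w'

variable {W : Type*} [AddCommGroup W] [Module (ZMod 2) W]

/-- The isometry group of the bilinear form `f`. -/
def Sp (f : LinearMap.BilinForm (ZMod 2) W) : Subgroup (W ≃ₗ[ZMod 2] W) where
  carrier := {g | ∀ x y, f (g x) (g y) = f x y}
  mul_mem' := by
    intro a b ha hb x y
    change ∀ x y, f (a x) (a y) = f x y at ha
    change ∀ x y, f (b x) (b y) = f x y at hb
    rw [LinearEquiv.mul_apply, LinearEquiv.mul_apply, ha, hb]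
  one_mem' := by intro x y; rfl
  inv_mem' := by
    intro a ha x y
    change ∀ x y, f (a x) (a y) = f x y at ha
    have h := ha (a⁻¹ x) (a⁻¹ y)
    have hx : ∀ z, a (a⁻¹ z) = z := fun z => by
      rw [← LinearEquiv.mul_apply, mul_inv_cancel]; rfl
    rw [hx, hx] at h
    exact h.symm

theorem HasWittIndex.comp_equiv {Q : QuadraticForm (ZMod 2) W} {m : ℕ} (h : HasWittIndex Q m)
    (g : W ≃ₗ[ZMod 2] W) : HasWittIndex (Q.comp (g : W →ₗ[ZMod 2] W)) m := by
  constructor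
  · obtain ⟨U, hU, hQ⟩ := h.1
    refine ⟨U.map (g.symm : W →ₗ[ZMod 2] W), ?_, ?_⟩
    · rw [← hU]; exact LinearEquiv.finrank_map_eq g.symm U
    · intro u hu
      obtain ⟨v, hv, rfl⟩ := Submodule.mem_map.1 hu
      have : Q (g (g.symm v)) = 0 := by rw [g.apply_symm_apply]; exact hQ v hv
      exact this
  · rintro d ⟨U, hU, hQ⟩
    apply h.2
    refine ⟨U.map (g : W →ₗ[ZMod 2] W), ?_, ?_⟩
    · rw [← hU]; exact LinearEquiv.finrank_map_eq g U
    · intro u hu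
      obtain ⟨v, hv, rfl⟩ := Submodule.mem_map.1 hu
      exact hQ v hv

/-- The Jordan-Steiner action of `Sp(W, f)` on `Ω^ε`: `(g • Q) x = Q (g⁻¹ x)`. -/
instance jsAction (f : LinearMap.BilinForm (ZMod 2) W) (n : ℕ) (ε : ℤˣ) :
    MulAction (Sp f) (Omega f n ε) where
  smul g Q := ⟨Q.1.comp ((g⁻¹ : Sp f).1 : W →ₗ[ZMod 2] W), by
    refine ⟨?_, Q.2.2.comp_equiv (g⁻¹ : Sp f).1⟩
    intro x y
    have h1 := Q.2.1 ((g⁻¹ : Sp f).1 x) ((g⁻¹ : Sp f).1 y)
    have h2 : f ((g⁻¹ : Sp f).1 x) ((g⁻¹ : Sp f).1 y) = f x y := (g⁻¹ : Sp f).2 x y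
    rw [h2, ← map_add] at h1
    exact h1⟩
  one_smul Q := by
    apply Subtype.ext
    ext x
    rfl
  mul_smul a b Q := by
    apply Subtype.ext
    ext x
    change Q.1 ((a * b)⁻¹.1 x) = Q.1 (b⁻¹.1 (a⁻¹.1 x))
    rw [mul_inv_rev]
    rfl

/-- a permutation is induced by an isometry iff it is given by a group element -/
theorem isInduced_iff {f : LinearMap.BilinForm (ZMod 2) W} {n : ℕ} {ε : ℤˣ}
    (p : Equiv.Perm (Omega f n ε)) : IsInduced f n ε p ↔ ∃ g : Sp f, ∀ Q, p Q = g • Q := by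
  constructor
  · rintro ⟨g, h1, h2⟩
    refine ⟨⟨g, h1⟩, fun Q => ?_⟩
    apply Subtype.ext
    ext x
    change (p Q).1 x = Q.1 (g.symm x)
    rw [← h2 Q (g.symm x), g.apply_symm_apply]
  · rintro ⟨g, h⟩
    refine ⟨g.1, g.2, fun Q x => ?_⟩
    rw [h Q]
    change Q.1 (g.1.symm (g.1 x)) = Q.1 x
    rw [LinearEquiv.symm_apply_apply]

theorem mem_jordanSteiner {f : LinearMap.BilinForm (ZMod 2) W} {n : ℕ} {ε : ℤˣ}
    (p : Equiv.Perm (Omega f n ε)) :
    p ∈ jordanSteiner f n ε ↔ ∃ g : Sp f, ∀ Q, p Q = g • Q := isInduced_iff p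

/-- the two versions of strong incidence-transitivity agree -/
theorem isSIT_iff {f : LinearMap.BilinForm (ZMod 2) W} {n : ℕ} {ε : ℤˣ} {k : ℕ}
    {C : Set (Set (Omega f n ε))} : IsSIT (jordanSteiner f n ε) k C ↔ IsSITA (Sp f) k C := by
  have himg : ∀ (p : Equiv.Perm (Omega f n ε)) (g : Sp f), (∀ Q, p Q = g • Q) →
      ∀ γ : Set (Omega f n ε), p '' γ = g • γ := by
    intro p g h γ
    ext Q
    constructor
    · rintro ⟨R, hR, rfl⟩
      rw [h]
      exact Set.smul_mem_smul_set hR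
    · rintro ⟨R, hR, rfl⟩
      exact ⟨R, hR, h R⟩
  have hperm : ∀ g : Sp f, MulAction.toPerm g ∈ jordanSteiner f n ε := by
    intro g
    rw [mem_jordanSteiner]
    exact ⟨g, fun _ => rfl⟩
  constructor
  · intro h
    refine ⟨h.isCode, ?_, ?_⟩
    · intro g γ hγ
      rw [← himg (MulAction.toPerm g) g (fun _ => rfl)]
      exact h.le_aut _ (hperm g) γ hγ
    · intro γ hγ u hu u' hu' δ hδ w hw w' hw'
      obtain ⟨p, hp, h1, h2, h3⟩ := h.trans γ hγ u hu u' hu' δ hδ w hw w' hw'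
      obtain ⟨g, hg⟩ := (mem_jordanSteiner p).1 hp
      refine ⟨g, ?_, ?_, ?_⟩
      · rw [← himg p g hg, h1]
      · rw [← hg, h2]
      · rw [← hg, h3]
  · intro h
    refine ⟨h.isCode, ?_, ?_⟩
    · intro p hp γ hγ
      obtain ⟨g, hg⟩ := (mem_jordanSteiner p).1 hp
      rw [himg p g hg]
      exact h.le_aut g γ hγ
    · intro γ hγ u hu u' hu' δ hδ w hw w' hw'
      obtain ⟨g, h1, h2, h3⟩ := h.trans γ hγ u hu u' hu' δ hδ w hw w' hw'
      refine ⟨MulAction.toPerm g, hperm g, ?_, h2, h3⟩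
      rw [himg (MulAction.toPerm g) g (fun _ => rfl), h1]

end Pool.Agent.H66.SIT
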