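import Mathlib

/-!
# Integer algebra used in the classification
-/

namespace Pool.Agent.H66.SIT

/-- a constant Fourier transform forces everything -/
theorem alg_const {k y s : ℤ} (hs0 : s ≠ 0) (hs1 : s ≠ 1) (hs2 : s ≠ -1) (hk : 0 < k)
    (h1 : (k - y) + y * (s * s) = k * s)
    (h2 : (k * k - y * y) + y * y * (s * s) = s * s * k) : 2 * k = s * s + s := by
  have e1 : y * (s + 1) = k := by
    have : (s - 1) * (y * (s + 1)) = (s - 1) * k := by linear_combination h1
    exact mul_left_cancel₀ (sub_ne_zero.2 hs1) this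
  have hy : y ≠ 0 := by
    rintro rfl
    rw [zero_mul] at e1; omega
  have hs3 : s + 1 ≠ 0 := by
    intro h; apply hs2; omega
  have e2 : y * (s * ((s + 1) * (2 * y))) = y * (s * ((s + 1) * s)) := by
    rw [← e1] at h2
    linear_combination h2
  have e3 : 2 * y = s := by
    exact mul_left_cancel₀ hs3 (mul_left_cancel₀ hs0 (mul_left_cancel₀ hy e2))
  rw [← e1]
  linear_combination (s + 1) * e3

/-- the parameters of a connected `T` -/
theorem alg_params {X t p q lam a l : ℤ} (hX : 0 < X) (ht : 0 < t)
    (h1 : (t - q) + (p - q) * q = 0)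
    (h2 : (t - q) + (p - q) * p = X * X)
    (h3 : (t * t - q * q) + (p * p - q * q) * p = X * X * lam)
    (h4 : 2 * a = t - p) (h5 : lam = a + l) :
    ((p = q + X ∧ t = q * (1 - X)) ∧ 2 * l = (q + 3) * (2 * q + X)) ∨
    ((p = q - X ∧ t = q * (1 + X)) ∧ 2 * l = (q + 3) * (2 * q - X)) := by
  have e1 : (p - q) * (p - q) = X * X := by linear_combination h2 - h1
  rcases mul_self_eq_mul_self_iff.1 e1 with h | h
  · left
    have hp : p = q + X := by linarith
    subst hp
    have ht' : t = q * (1 - X) := by linear_combination h1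
    refine ⟨⟨rfl, ht'⟩, ?_⟩
    have hX2 : X * X ≠ 0 := by positivity
    apply mul_left_cancel₀ hX2
    subst ht'
    rw [h5] at h3
    have : 2 * (X * X) * l = 2 * (X * X) * (a + l) - X * X * (2 * a) := by ring
    linear_combination this - 2 * h3 - X * X * h4
  · right
    have hp : p = q - X := by linarith
    subst hp
    have ht' : t = q * (1 + X) := by linear_combination h1
    refine ⟨⟨rfl, ht'⟩, ?_⟩
    have hX2 : X * X ≠ 0 := by positivity
    apply mul_left_cancel₀ hX2
    subst ht'
    rw [h5] at h3
    have : 2 * (X * X) * l = 2 * (X * X) * (a + l) - X * X * (2 * a) := by ring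
    linear_combination this - 2 * h3 - X * X * h4

theorem alg_params2 {X t p q l : ℤ} (hX : 0 < X) (ht : 0 < t) (hl : l = 0)
    (h : ((p = q + X ∧ t = q * (1 - X)) ∧ 2 * l = (q + 3) * (2 * q + X)) ∨
    ((p = q - X ∧ t = q * (1 + X)) ∧ 2 * l = (q + 3) * (2 * q - X))) :
    2 * (t + p) = X * X ∨ (q = -3 ∧ p = X - 3 ∧ t = 3 * (X - 1)) := by
  subst hl
  rcases h with ⟨⟨rfl, rfl⟩, h⟩ | ⟨⟨rfl, rfl⟩, h⟩
  · have h' : (q + 3) * (2 * q + X) = 0 := by linarith
    rcases mul_eq_zero.1 h' with h1 | h1
    · right
      have : q = -3 := by linarith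
      subst this
      refine ⟨rfl, by ring, by ring⟩
    · left
      linear_combination (2 - X) * h1
  · have h' : (q + 3) * (2 * q - X) = 0 := by linarith
    rcases mul_eq_zero.1 h' with h1 | h1
    · exfalso
      have : q = -3 := by linarith
      subst this
      nlinarith
    · left
      linear_combination (2 + X) * h1

theorem pow_two_aux {n m : ℕ} (hn : 1 ≤ n) (h : 2 ^ n + 48 = 2 ^ m) : n = 4 := by
  rcases Nat.lt_or_ge n 5 with hlt | hge
  · interval_cases n
    · exfalso
      have hm : m < 6 := by
        by_contra hcon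
        have := Nat.pow_le_pow_right (show 0 < 2 by norm_num) (not_lt.1 hcon)
        omega
      interval_cases m <;> omega
    · exfalso
      have hm : m < 6 := by
        by_contra hcon
        have := Nat.pow_le_pow_right (show 0 < 2 by norm_num) (not_lt.1 hcon)
        omega
      interval_cases m <;> omega
    · exfalso
      have hm : m < 6 := by
        by_contra hcon
        have := Nat.pow_le_pow_right (show 0 < 2 by norm_num) (not_lt.1 hcon)
        omega
      interval_cases m <;> omega
    · rfl
  · exfalso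
    have hm : 5 ≤ m := by
      by_contra hcon
      have h1 : m ≤ 4 := by omega
      have := Nat.pow_le_pow_right (show 0 < 2 by norm_num) h1
      have := Nat.pow_le_pow_right (show 0 < 2 by norm_num) hge
      omega
    obtain ⟨c, rfl⟩ := Nat.exists_eq_add_of_le hge
    obtain ⟨d, rfl⟩ := Nat.exists_eq_add_of_le hm
    rw [pow_add, pow_add] at h
    omega

/-- the final computation in the exceptional case -/
theorem alg_final {n : ℕ} (hn : 1 ≤ n) {ε k x y v X : ℤ} (hX : X = 2 ^ n)
    (hε : ε = 1 ∨ ε = -1)
    (hxy : x ≠ y) (hk : 0 < k) (hkv : 2 * k ≤ v)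
    (hX3 : 3 < X + 1)
    (hv : 2 * v = X * X + ε * X)
    (E1 : (k - y) + (x - y) * (3 * (X - 1)) + y * (X * X) = k * (ε * X))
    (E2 : (k * k - y * y) + (x * x - y * y) * (3 * (X - 1)) + y * y * (X * X)
      = X * X * k)
    (E4 : 2 * ((k * k - y * y) + (x * x - y * y) * (X - 3)) = X * X * (k + x))
    {x' y' : ℤ} (hx' : 2 * (x + x') = ε * X) (hy' : 2 * (y + y') = ε * X)
    (E4' : 2 * (((v - k) * (v - k) - y' * y') + (x' * x' - y' * y') * (X - 3))
      = X * X * ((v - k) + x')) :
    n = 4 ∧ ε = 1 ∧ k = 10 ∧ x = -6 ∧ y = 2 := by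
  have hXpos : 0 < X := by rw [hX]; positivity
  have hX2 : X - 2 ≠ 0 := by intro h; linarith
  obtain ⟨H, hH⟩ : ∃ H : ℤ, 2 * H = ε * X := ⟨x + x', hx'⟩
  have hεX : (ε * X) * (ε * X) = X * X := by
    rcases hε with rfl | rfl <;> ring
  have hsne : ε * X ≠ 0 := by
    rcases hε with rfl | rfl
    · rw [one_mul]; exact hXpos.ne'
    · intro h; linarith
  -- linear relation
  have hx1 : x' = H - x := by linarith
  have hy1 : y' = H - y := by linarith
  have L : k = (ε * X) * x + y - (X - 3) * (x - y) := by
    apply mul_left_cancel₀ hsne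
    apply mul_left_cancel₀ (show (2 : ℤ) ≠ 0 by norm_num)
    rw [hx1, hy1] at E4'
    rcases hε with rfl | rfl
    · have h2v : 2 * v = X * X + X := by linarith
      have h2H : X = 2 * H := by linarith
      have hv' : v = H * (X + 1) := by
        have : 2 * v = 2 * (H * (X + 1)) := by rw [h2v, h2H]; ring
        linarith
      subst hv'
      subst h2H
      linear_combination (E4 - E4')
    · have h2v : 2 * v = X * X - X := by linarith
      have hXH : X = - (2 * H) := by linarith
      have hv' : v = H * (2 * H + 1) := by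
        have : 2 * v = 2 * (H * (2 * H + 1)) := by rw [h2v, hXH]; ring
        linarith
      subst hv'
      subst hXH
      linear_combination (E4 - E4')
  rcases hε with rfl | rfl
  · -- `ε = 1`
    have hkk : k = 3 * x + (X - 2) * y := by rw [L]; ring
    have R1 : 4 * x * x + 2 * (X - 2) * y * y - 2 * X * x - X * (X - 2) * y = 0 := by
      apply mul_left_cancel₀ hXpos.ne'
      rw [mul_zero]
      rw [hkk] at E2 E4
      linear_combination 2 * E2 - E4
    have R3 : (x - y) * (x - 5 * y + X) = 0 := by
      apply mul_left_cancel₀ hX2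
      rw [mul_zero]
      rw [hkk] at E2
      have h2 : 2 * ((X - 2) * ((x - y) * (x - 5 * y + X))) = 0 := by
        linear_combination 5 * R1 - 2 * E2 + (2 * X - 3) * R1
      linarith
    have hx : x = 5 * y - X := by
      rcases mul_eq_zero.1 R3 with h | h
      · exact absurd (by linarith) hxy
      · linarith
    have R5 : (X + 48) * ((4 * y - X) * (4 * y - X)) = X * X * X := by
      rw [hx] at R1
      linear_combination 8 * R1
    have hdvd : (X + 48) ∣ 2 ^ (3 * n) := by
      have : (2 : ℤ) ^ (3 * n) = X * X * X := by rw [hX, ← pow_add, ← pow_add]; congr 1; ring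
      rw [this, ← R5]
      exact Dvd.intro _ rfl
    have hdvd' : (2 ^ n + 48) ∣ 2 ^ (3 * n) := by
      have h1 : ((2 ^ n + 48 : ℕ) : ℤ) ∣ ((2 ^ (3 * n) : ℕ) : ℤ) := by
        push_cast
        rw [← hX]; exact hdvd
      exact Int.natCast_dvd_natCast.1 h1
    obtain ⟨m, _, hm⟩ := (Nat.dvd_prime_pow Nat.prime_two).1 hdvd'
    have hn4 := pow_two_aux hn hm
    subst hn4
    have hX16 : X = 16 := by rw [hX]; norm_num
    subst hX16
    have h8 : (4 * y - 16) * (4 * y - 16) = 8 * 8 := by linarith
    rcases mul_self_eq_mul_self_iff.1 h8 with h | h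
    · exfalso
      have hy6 : y = 6 := by omega
      subst hy6
      rw [hkk, hx] at hkv
      norm_num at hkv hv
      omega
    · have hy2 : y = 2 := by omega
      subst hy2
      rw [hx] at hkk ⊢
      refine ⟨rfl, rfl, ?_, ?_, rfl⟩
      · rw [hkk]; norm_num
      · norm_num
  · exfalso
    have h2 : 2 * X * ((X - 2) * (y - x)) = 0 := by
      rw [L] at E1
      linear_combination E1
    have h3 : y - x = 0 := by
      rcases mul_eq_zero.1 h2 with h | h
      · exfalso; linarith
      · rcases mul_eq_zero.1 h with h | h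
        · exact absurd h hX2
        · exact h
    exact hxy (by linarith)

end Pool.Agent.H66.SIT
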