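import Pool.Agent.H66.SIT.Eichler

/-!
# The azygetic sets in dimension eight
-/

open Finset

namespace Pool.Agent.H66.SIT

variable {W : Type*} [AddCommGroup W] [Module (ZMod 2) W]
variable {f : LinearMap.BilinForm (ZMod 2) W}

/-- nine vectors, pairwise not orthogonal -/
def Simp (f : LinearMap.BilinForm (ZMod 2) W) (e : Fin 9 → W) : Prop :=
  ∀ i j, i ≠ j → f (e i) (e j) = 1

/-- linear combinations of nine vectors -/
noncomputable def Phi (e : Fin 9 → W) : (Fin 9 → ZMod 2) →ₗ[ZMod 2] W :=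
  Fintype.linearCombination (ZMod 2) e

theorem Phi_apply (e : Fin 9 → W) (c : Fin 9 → ZMod 2) : Phi e c = ∑ i, c i • e i :=
  Fintype.linearCombination_apply (ZMod 2) e c

theorem f_Phi (hf : f.IsAlt) {e : Fin 9 → W} (he : Simp f e) (c : Fin 9 → ZMod 2) (j : Fin 9) :
    f (e j) (Phi e c) = ∑ i, c i + c j := by
  rw [Phi_apply, map_sum]
  have h3 : ∀ i, f (e j) (c i • e i) = c i + if i = j then c i else 0 := by
    intro i
    rw [map_smul, smul_eq_mul]
    by_cases hi : i = j
    · rw [if_pos hi, hi, f_self hf, mul_zero, add_self_zmod]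
    · rw [if_neg hi, he j i (Ne.symm hi), mul_one, add_zero]
  rw [Finset.sum_congr rfl fun i _ => h3 i, Finset.sum_add_distrib,
    Finset.sum_ite_eq' univ j, if_pos (mem_univ _)]

/-- the sum of the coordinates -/
def sumL : (Fin 9 → ZMod 2) →ₗ[ZMod 2] ZMod 2 where
  toFun := fun c => ∑ i, c i
  map_add' := fun c d => Finset.sum_add_distrib
  map_smul' := fun a c => by
    rw [RingHom.id_apply, smul_eq_mul, Finset.mul_sum]
    rfl

theorem sumL_apply (c : Fin 9 → ZMod 2) : sumL c = ∑ i, c i := rfl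

theorem finrank_kerL : Module.finrank (ZMod 2) (LinearMap.ker sumL) = 8 := by
  have h1 := LinearMap.finrank_range_add_finrank_ker sumL
  have h2 : LinearMap.range sumL = ⊤ := by
    rw [LinearMap.range_eq_top]
    intro a
    refine ⟨fun i => if i = 0 then a else 0, ?_⟩
    rw [sumL_apply, Finset.sum_ite_eq' univ 0, if_pos (mem_univ _)]
  rw [h2, finrank_top, Module.finrank_self, Module.finrank_fin_fun] at h1
  omega

theorem Phi_inj (hf : f.IsAlt) {e : Fin 9 → W} (he : Simp f e) :
    Function.Injective ((Phi e).domRestrict (LinearMap.ker sumL)) := by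
  rw [← LinearMap.ker_eq_bot, eq_bot_iff]
  intro c hc
  have h1 : Phi e c = 0 := hc
  have h2 : ∑ i, (c : Fin 9 → ZMod 2) i = 0 := c.2
  rw [Submodule.mem_bot]
  apply Subtype.ext
  funext j
  have h3 := f_Phi hf he c j
  rw [h1, h2, map_zero, zero_add] at h3
  exact h3.symm

theorem Phi_bij [FiniteDimensional (ZMod 2) W] (hf : f.IsAlt) {e : Fin 9 → W}
    (he : Simp f e) (hd : Module.finrank (ZMod 2) W = 8) :
    Function.Bijective ((Phi e).domRestrict (LinearMap.ker sumL)) :=
  ⟨Phi_inj hf he, (LinearMap.injective_iff_surjective_of_finrank_eq_finrank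
    (by rw [finrank_kerL, hd])).1 (Phi_inj hf he)⟩

theorem exists_coeff [FiniteDimensional (ZMod 2) W] (hf : f.IsAlt) {e : Fin 9 → W}
    (he : Simp f e) (hd : Module.finrank (ZMod 2) W = 8) (w : W) :
    ∃ c : Fin 9 → ZMod 2, ∑ i, c i = 0 ∧ w = Phi e c := by
  obtain ⟨c, hc⟩ := (Phi_bij hf he hd).2 w
  exact ⟨c, c.2, hc.symm⟩

/-- vectors orthogonal to all members are zero -/
theorem Simp.sep [FiniteDimensional (ZMod 2) W] (hf : f.IsAlt) (hnd : f.Nondegenerate)
    {e : Fin 9 → W} (he : Simp f e) (hd : Module.finrank (ZMod 2) W = 8) {u : W}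
    (hu : ∀ i, f u (e i) = 0) : u = 0 := by
  apply hnd.1
  intro w
  obtain ⟨c, _, rfl⟩ := exists_coeff hf he hd w
  rw [Phi_apply, map_sum]
  apply Finset.sum_eq_zero
  intro i _
  rw [map_smul, hu, smul_zero]

theorem Simp.sum_eq_zero [FiniteDimensional (ZMod 2) W] (hf : f.IsAlt) (hnd : f.Nondegenerate)
    {e : Fin 9 → W} (he : Simp f e) (hd : Module.finrank (ZMod 2) W = 8) : ∑ i, e i = 0 := by
  apply he.sep hf hnd hd
  intro j
  have h1 : ∑ i, e i = Phi e (fun _ => 1) := by
    rw [Phi_apply]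
    exact Finset.sum_congr rfl fun i _ => (one_smul _ _).symm
  rw [h1, f_symm hf, f_Phi hf he]
  rfl

theorem Simp.eq_Phi [FiniteDimensional (ZMod 2) W] (hf : f.IsAlt) (hnd : f.Nondegenerate)
    {e : Fin 9 → W} (he : Simp f e) (hd : Module.finrank (ZMod 2) W = 8) (i : Fin 9) :
    e i = Phi e (fun j => if j = i then 0 else 1) := by
  have h1 : Phi e (fun j => if j = i then 0 else 1) + e i = 0 := by
    rw [← he.sum_eq_zero hf hnd hd, Phi_apply]
    have h2 : e i = ∑ j, if j = i then e j else 0 := by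
      rw [Finset.sum_ite_eq' univ i, if_pos (mem_univ _)]
    rw [h2]
    rw [← Finset.sum_add_distrib]
    refine Finset.sum_congr rfl fun j _ => ?_
    by_cases h : j = i
    · rw [if_pos h, if_pos h, zero_smul, zero_add]
    · rw [if_neg h, if_neg h, one_smul, add_zero]
  rw [add_eq_zero_W] at h1
  exact h1.symm

theorem f_Phi_Phi (hf : f.IsAlt) {e : Fin 9 → W} (he : Simp f e) (c d : Fin 9 → ZMod 2)
    (hd : ∑ i, d i = 0) : f (Phi e c) (Phi e d) = ∑ i, c i * d i := by
  rw [Phi_apply e c, map_sum, LinearMap.sum_apply]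
  refine Finset.sum_congr rfl fun i _ => ?_
  rw [map_smul, LinearMap.smul_apply, f_Phi hf he, hd, zero_add, smul_eq_mul]

/-- the isometry between two such families -/
theorem exists_isom_simp [FiniteDimensional (ZMod 2) W] (hf : f.IsAlt) (hnd : f.Nondegenerate)
    {e e' : Fin 9 → W} (he : Simp f e) (he' : Simp f e')
    (hd : Module.finrank (ZMod 2) W = 8) :
    ∃ g : W ≃ₗ[ZMod 2] W, Isom f g ∧ ∀ i, g (e i) = e' i := by
  let E := LinearEquiv.ofBijective _ (Phi_bij hf he hd)
  let E' := LinearEquiv.ofBijective _ (Phi_bij hf he' hd)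
  have hg : ∀ c : Fin 9 → ZMod 2, ∑ i, c i = 0 → (E.symm.trans E') (Phi e c) = Phi e' c := by
    intro c hc
    have h1 : E ⟨c, hc⟩ = Phi e c := rfl
    rw [LinearEquiv.trans_apply, ← h1, E.symm_apply_apply]
    rfl
  refine ⟨E.symm.trans E', ?_, ?_⟩
  · intro x y
    obtain ⟨c, hc, rfl⟩ := exists_coeff hf he hd x
    obtain ⟨d, hd', rfl⟩ := exists_coeff hf he hd y
    rw [hg c hc, hg d hd', f_Phi_Phi hf he' c d hd', f_Phi_Phi hf he c d hd']
  · intro i
    rw [he.eq_Phi hf hnd hd i, hg, ← he'.eq_Phi hf hnd hd i]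
    have : ∀ i : Fin 9, ∑ j : Fin 9, (if j = i then (0 : ZMod 2) else 1) = 0 := by decide
    exact this i

/-- value of a form on sums -/
theorem Q_sum {Q : QuadraticForm (ZMod 2) W} (hQ : IsForm f Q) {ι : Type*} [DecidableEq ι]
    {e : ι → W} (he : ∀ i j, i ≠ j → f (e i) (e j) = 1) (h0 : ∀ i, Q (e i) = 0)
    (I : Finset ι) : Q (∑ i ∈ I, e i) = (I.card.choose 2 : ℕ) := by
  induction I using Finset.induction_on with
  | empty => simp
  | insert a I ha ih =>
    rw [Finset.sum_insert ha, hQ, h0, ih, map_sum, Finset.card_insert_of_notMem ha,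
      Nat.choose_succ_succ' , Nat.choose_one_right]
    have h1 : ∑ i ∈ I, f (e a) (e i) = I.card := by
      rw [Finset.sum_congr rfl (g := fun _ => (1 : ZMod 2))]
      · simp
      · intro i hi
        exact he a i fun h => ha (h ▸ hi)
    rw [h1]
    push_cast
    ring

section
variable [Fintype W]

/-- azygetic sets of forms -/
def Azy (f : LinearMap.BilinForm (ZMod 2) W) (A : Finset (QuadraticForm (ZMod 2) W)) : Prop :=
  A ⊆ Om f 16 ∧ A.card = 10 ∧
    ∀ Q₁ ∈ A, ∀ Q₂ ∈ A, ∀ Q₃ ∈ A, Q₁ ≠ Q₂ → Q₁ ≠ Q₃ → Q₂ ≠ Q₃ → Q₁ + Q₂ + Q₃ ∉ Om f 16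

theorem add_shift_shift (Q : QuadraticForm (ZMod 2) W) (x y z : W) :
    shift f Q x + shift f Q y + shift f Q z = shift f Q (x + y + z) := by
  ext v
  change shift f Q x v + shift f Q y v + shift f Q z v = _
  rw [shift_apply, shift_apply, shift_apply, shift_apply, map_add, map_add,
    LinearMap.add_apply, LinearMap.add_apply]
  have := add_self_zmod (Q v)
  linear_combination this

/-- coordinates for an azygetic set, a member `P`, and a form `R` outside -/
theorem Azy.coord (hf : f.IsAlt) (hnd : f.Nondegenerate)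
    (hd : Module.finrank (ZMod 2) W = 8) {A : Finset (QuadraticForm (ZMod 2) W)}
    (hA : Azy f A) {P R : QuadraticForm (ZMod 2) W} (hP : P ∈ A) (hR : R ∈ Om f 16)
    (hRA : R ∉ A) :
    ∃ e : Fin 9 → W, Simp f e ∧ (∀ i, P (e i) = 0) ∧
      (∀ Q, Q ∈ A ↔ Q = P ∨ ∃ i, Q = shift f P (e i)) ∧
      R = shift f P (e 0 + e 1 + e 2 + e 3) := by
  classical
  have hfd : FiniteDimensional (ZMod 2) W := Module.Finite.of_finite
  obtain ⟨hAO, hA10, haz⟩ := hA
  have h16 : (16 : ℤ) ≠ 0 := by norm_num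
  have hPO := hAO hP
  have hPf := (mem_Om.1 hPO).1
  have hcard : (A.erase P).card = 9 := by rw [Finset.card_erase_of_mem hP, hA10]
  let q := (A.erase P).equivFinOfCardEq hcard
  have hex : ∀ i, ∃ w, ((q.symm i : A.erase P) : QuadraticForm (ZMod 2) W) = shift f P w := by
    intro i
    exact exists_shift_Om hnd hPO (hAO (Finset.mem_of_mem_erase (q.symm i).2))
  choose e₀ he₀ using hex
  have hmem₀ : ∀ i, shift f P (e₀ i) ∈ A.erase P := by
    intro i
    rw [← he₀ i]
    exact (q.symm i).2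
  have hmem : ∀ i, shift f P (e₀ i) ∈ A := fun i => Finset.mem_of_mem_erase (hmem₀ i)
  have hneP : ∀ i, shift f P (e₀ i) ≠ P := fun i => Finset.ne_of_mem_erase (hmem₀ i)
  have hinj : ∀ i j, i ≠ j → shift f P (e₀ i) ≠ shift f P (e₀ j) := by
    intro i j hij h
    rw [← he₀ i, ← he₀ j] at h
    exact hij (q.symm.injective (Subtype.ext h))
  have hP0 : ∀ i, P (e₀ i) = 0 := fun i => eq_zero_of_shift_mem hf h16 hPO (hAO (hmem i))
  have hsimp₀ : Simp f e₀ := by
    intro i j hij
    rw [← ne_zero_iff]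
    intro h0
    apply haz P hP _ (hmem i) _ (hmem j) (Ne.symm (hneP i)) (Ne.symm (hneP j)) (hinj i j hij)
    have h1 := add_shift_shift (f := f) P 0 (e₀ i) (e₀ j)
    rw [shift_zero, zero_add] at h1
    rw [h1]
    apply shift_mem_Om hf hPO
    rw [hPf, hP0, hP0, h0]; rfl
  have hmemA₀ : ∀ Q, Q ∈ A ↔ Q = P ∨ ∃ i, Q = shift f P (e₀ i) := by
    intro Q
    constructor
    · intro hQ
      by_cases hQP : Q = P
      · exact Or.inl hQP
      · right
        refine ⟨q ⟨Q, Finset.mem_erase.2 ⟨hQP, hQ⟩⟩, ?_⟩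
        rw [← he₀, Equiv.symm_apply_apply]
    · rintro (h | ⟨i, h⟩)
      · rw [h]; exact hP
      · rw [h]; exact hmem i
  obtain ⟨w, hw⟩ := exists_shift_Om hnd hPO hR
  obtain ⟨c, hc, hwc⟩ := exists_coeff hf hsimp₀ hd w
  let I := univ.filter (fun i => c i = 1)
  have hwI : w = ∑ i ∈ I, e₀ i := by
    rw [hwc, Phi_apply, Finset.sum_filter]
    refine Finset.sum_congr rfl fun i _ => ?_
    rcases zmod2_cases (c i) with h | h
    · rw [h, zero_smul, if_neg]; decide
    · rw [h, one_smul, if_pos rfl]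
  have hcI : ((I.card : ℕ) : ZMod 2) = 0 := by
    rw [← hc]
    have h1 : ((I.card : ℕ) : ZMod 2) = ∑ i ∈ I, 1 := by simp
    rw [h1, Finset.sum_filter]
    refine Finset.sum_congr rfl fun i _ => ?_
    rcases zmod2_cases (c i) with h | h
    · rw [h, if_neg]; decide
    · rw [h, if_pos rfl]
  have hPw : P w = 0 := eq_zero_of_shift_mem hf h16 hPO (hw ▸ hR)
  have hPI : ((I.card.choose 2 : ℕ) : ZMod 2) = 0 := by
    rw [← Q_sum hPf hsimp₀ hP0 I, ← hwI, hPw]
  have hle : I.card ≤ 9 := by
    have := Finset.card_le_univ I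
    rwa [Fintype.card_fin] at this
  have hcases : I.card = 0 ∨ I.card = 4 ∨ I.card = 8 := by
    revert hcI hPI hle
    generalize I.card = m
    intro h1 h2 h3
    interval_cases m <;> revert h1 h2 <;> decide
  have h4 : I.card = 4 := by
    rcases hcases with h | h | h
    · exfalso
      rw [Finset.card_eq_zero] at h
      rw [h, Finset.sum_empty] at hwI
      rw [hwI, shift_zero] at hw
      rw [hw] at hRA
      exact hRA hP
    · exact h
    · exfalso
      have h5 : (Iᶜ).card = 1 := by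
        rw [Finset.card_compl, Fintype.card_fin, h]
      obtain ⟨j, hj⟩ := Finset.card_eq_one.1 h5
      have h6 : w = e₀ j := by
        have h7 := hsimp₀.sum_eq_zero hf hnd hd
        rw [← Finset.sum_add_sum_compl I, ← hwI, hj, Finset.sum_singleton, add_eq_zero_W] at h7
        exact h7
      apply hRA
      rw [hw, h6]
      exact hmem j
  -- permutation
  have hcardJ : Fintype.card {i : Fin 9 // i < 4} = Fintype.card {i : Fin 9 // i ∈ I} := by
    rw [Fintype.card_coe, h4]
    rfl
  let π₀ := Fintype.equivOfCardEq hcardJ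
  let π : Equiv.Perm (Fin 9) := π₀.extendSubtype
  have hπ : ∀ i, π i ∈ I ↔ i < 4 := by
    intro i
    constructor
    · intro h
      by_contra hlt
      exact Equiv.extendSubtype_not_mem π₀ i hlt h
    · intro h
      exact Equiv.extendSubtype_mem π₀ i h
  refine ⟨fun i => e₀ (π i), ?_, fun i => hP0 _, ?_, ?_⟩
  · intro i j hij
    exact hsimp₀ _ _ fun h => hij (π.injective h)
  · intro Q
    rw [hmemA₀]
    constructor
    · rintro (h | ⟨i, h⟩)
      · exact Or.inl h
      · right
        refine ⟨π.symm i, ?_⟩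
        rw [h]
        exact (congrArg (fun z => shift f P (e₀ z)) (π.apply_symm_apply i)).symm
    · rintro (h | ⟨i, h⟩)
      · exact Or.inl h
      · right
        exact ⟨π i, h⟩
  · rw [hw, hwI]
    congr 1
    have h5 : ∑ i ∈ I, e₀ i = ∑ i ∈ univ.filter (fun i : Fin 9 => i < 4), e₀ (π i) := by
      symm
      apply Finset.sum_bij (fun i _ => π i)
      · intro i hi
        rw [mem_filter] at hi
        exact (hπ i).2 hi.2
      · intro i _ j _ h
        exact π.injective h
      · intro j hj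
        refine ⟨π.symm j, ?_, Equiv.apply_symm_apply _ _⟩
        rw [mem_filter]
        refine ⟨mem_univ _, ?_⟩
        rw [← hπ, Equiv.apply_symm_apply]
        exact hj
      · intro i _; rfl
    rw [h5]
    have h6 : univ.filter (fun i : Fin 9 => i < 4) = {0, 1, 2, 3} := by decide
    rw [h6, Finset.sum_insert (by decide), Finset.sum_insert (by decide),
      Finset.sum_insert (by decide), Finset.sum_singleton]
    abel

/-- transitivity for the azygetic sets -/
theorem az_trans (hf : f.IsAlt) (hnd : f.Nondegenerate)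
    (hd : Module.finrank (ZMod 2) W = 8) {A A' : Finset (QuadraticForm (ZMod 2) W)}
    (hA : Azy f A) (hA' : Azy f A') {P R P' R' : QuadraticForm (ZMod 2) W}
    (hP : P ∈ A) (hR : R ∈ Om f 16) (hRA : R ∉ A)
    (hP' : P' ∈ A') (hR' : R' ∈ Om f 16) (hRA' : R' ∉ A') :
    ∃ g : W ≃ₗ[ZMod 2] W, Isom f g ∧ (∀ Q, act g Q ∈ A' ↔ Q ∈ A) ∧ act g P = P' ∧
      act g R = R' := by
  have hfd : FiniteDimensional (ZMod 2) W := Module.Finite.of_finite
  obtain ⟨e, he, heP, heA, heR⟩ := hA.coord hf hnd hd hP hR hRA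
  obtain ⟨e', he', heP', heA', heR'⟩ := hA'.coord hf hnd hd hP' hR' hRA'
  obtain ⟨g, hg, hge⟩ := exists_isom_simp hf hnd he he' hd
  have h1 : act g P = P' := by
    obtain ⟨u, hu⟩ := exists_shift_Om hnd (act_mem_Om (hA.1 hP) hg) (hA'.1 hP')
    have h2 : u = 0 := by
      apply he'.sep hf hnd hd
      intro i
      have h3 : P' (e' i) = 0 := heP' i
      rw [hu, shift_apply, act_apply, ← hge i, g.symm_apply_apply, heP, zero_add] at h3
      rw [← hge i]; exact h3
    rw [hu, h2, shift_zero]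
  refine ⟨g, hg, ?_, h1, ?_⟩
  · intro Q
    rw [heA, heA']
    constructor
    · rintro (h | ⟨i, h⟩)
      · left
        rw [← h1] at h
        exact act_injective g h
      · right
        refine ⟨i, ?_⟩
        rw [← h1, ← hge i, ← act_shift hg] at h
        exact act_injective g h
    · rintro (h | ⟨i, h⟩)
      · left
        rw [h, h1]
      · right
        refine ⟨i, ?_⟩
        rw [h, act_shift hg, h1, hge]
  · rw [heR, heR', act_shift hg, h1, map_add, map_add, map_add, hge, hge, hge, hge]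

end

end Pool.Agent.H66.SIT
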