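import Pool.Agent.H66.SIT.Az

/-!
# Existence of azygetic sets in dimension eight
-/

open Finset

namespace Pool.Agent.H66.SIT

variable {W : Type*} [AddCommGroup W] [Module (ZMod 2) W]
variable {f : LinearMap.BilinForm (ZMod 2) W}
variable [Fintype W]

theorem sum_basis_bijective (b : Module.Basis (Fin 8) (ZMod 2) W) :
    Function.Bijective (fun I : Finset (Fin 8) => ∑ i ∈ I, b i) := by
  classical
  rw [Fintype.bijective_iff_injective_and_card]
  constructor
  · intro I J h
    simp only at h
    have h1 : ∀ (I : Finset (Fin 8)) (j : Fin 8),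
        b.repr (∑ i ∈ I, b i) j = if j ∈ I then 1 else 0 := by
      intro I j
      rw [map_sum, Finsupp.finset_sum_apply]
      simp_rw [Module.Basis.repr_self]
      have h2 : ∀ i ∈ I, (Finsupp.single i (1 : ZMod 2)) j = if j = i then 1 else 0 := by
        intro i _
        rw [Finsupp.single_apply]
        by_cases hij : i = j
        · rw [if_pos hij, if_pos hij.symm]
        · rw [if_neg hij, if_neg (Ne.symm hij)]
      rw [Finset.sum_congr rfl h2, Finset.sum_ite_eq]
    ext j
    have h3 := h1 I j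
    have h4 := h1 J j
    rw [h, h4] at h3
    by_cases hI : j ∈ I <;> by_cases hJ : j ∈ J <;> simp [hI, hJ] at h3 ⊢
  · rw [Fintype.card_finset, Fintype.card_fin, card_W, Module.finrank_eq_card_basis b,
      Fintype.card_fin]

theorem S_simplex (b : Module.Basis (Fin 8) (ZMod 2) W)
    (hb : ∀ i j, i ≠ j → f (b i) (b j) = 1) {P : QuadraticForm (ZMod 2) W} (hP : IsForm f P)
    (h0 : ∀ i, P (b i) = 0) : S P = 16 := by
  classical
  unfold S
  rw [← (sum_basis_bijective b).sum_comp (fun w => chi (P w))]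
  have h1 : ∀ I : Finset (Fin 8), chi (P (∑ i ∈ I, b i)) = chi ((I.card.choose 2 : ℕ) : ZMod 2) :=
    fun I => by rw [Q_sum hP hb h0]
  simp_rw [h1]
  rw [← Finset.powerset_univ,
    Finset.sum_powerset_apply_card (fun m => chi ((m.choose 2 : ℕ) : ZMod 2))]
  decide

/-- existence -/
theorem exists_azy (hf : f.IsAlt) (hnd : f.Nondegenerate)
    (hd : Module.finrank (ZMod 2) W = 8) {Q₀ : QuadraticForm (ZMod 2) W} (hQ₀ : IsForm f Q₀) :
    ∃ A, Azy f A := by
  classical
  have hfd : FiniteDimensional (ZMod 2) W := Module.Finite.of_finite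
  obtain ⟨b, hb⟩ := exists_simplex_basis hf hnd hd
  obtain ⟨u, hu⟩ := exists_rep hnd (b.constr (ZMod 2) (fun i => Q₀ (b i)))
  obtain ⟨P, hPdef⟩ : ∃ P, P = shift f Q₀ u := ⟨_, rfl⟩
  have hPf : IsForm f P := hPdef ▸ hQ₀.shift u
  have hP0 : ∀ i, P (b i) = 0 := by
    intro i
    rw [hPdef, shift_apply, hu, Module.Basis.constr_basis, add_self_zmod]
  have hPO : P ∈ Om f 16 := mem_Om.2 ⟨hPf, S_simplex b hb hPf hP0⟩
  have h16 : (16 : ℤ) ≠ 0 := by norm_num
  let e : Fin 9 → W := Fin.snoc (fun i : Fin 8 => b i) (∑ i, b i)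
  have heL : e (Fin.last 8) = ∑ i, b i := Fin.snoc_last _ _
  have heC : ∀ i : Fin 8, e (Fin.castSucc i) = b i := fun i => Fin.snoc_castSucc _ _ _
  have hbs : ∀ j, f (b j) (∑ i, b i) = 1 := by
    intro j
    rw [map_sum]
    have h3 : ∀ i, f (b j) (b i) = 1 + if i = j then 1 else 0 := by
      intro i
      by_cases hi : i = j
      · rw [if_pos hi, hi, f_self hf]; rfl
      · rw [if_neg hi, hb j i (Ne.symm hi), add_zero]
    rw [Finset.sum_congr rfl fun i _ => h3 i, Finset.sum_add_distrib,
      Finset.sum_ite_eq' univ j, if_pos (mem_univ _)]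
    rfl
  have he : Simp f e := by
    intro i j
    refine Fin.lastCases ?_ (fun i' => ?_) i
    · refine Fin.lastCases ?_ (fun j' => ?_) j
      · intro h; exact absurd rfl h
      · intro _
        rw [heL, heC, f_symm hf, hbs]
    · refine Fin.lastCases ?_ (fun j' => ?_) j
      · intro _
        rw [heL, heC, hbs]
      · intro h
        rw [heC, heC]
        exact hb i' j' fun hh => h (by rw [hh])
  have heP : ∀ i, P (e i) = 0 := by
    intro i
    refine Fin.lastCases ?_ (fun i' => ?_) i
    · rw [heL, Q_sum hPf hb hP0]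
      rfl
    · rw [heC, hP0]
  have hene : ∀ i, e i ≠ 0 := by
    intro i h
    obtain ⟨j, hj⟩ : ∃ j : Fin 9, i ≠ j := by
      clear h
      revert i
      decide
    have h1 := he i j hj
    rw [h, map_zero, LinearMap.zero_apply] at h1
    exact absurd h1 (by decide)
  have heinj : Function.Injective e := by
    intro i j h
    by_contra hij
    have h1 := he i j hij
    rw [h, f_self hf] at h1
    exact absurd h1 (by decide)
  have hsinj : Function.Injective (fun i => shift f P (e i)) := by
    intro i j h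
    exact heinj (shift_inj hnd h)
  have hPnot : P ∉ univ.image (fun i => shift f P (e i)) := by
    intro h
    rw [mem_image] at h
    obtain ⟨i, _, h⟩ := h
    apply hene i
    apply shift_inj hnd (Q := P)
    rw [h, shift_zero]
  refine ⟨insert P (univ.image (fun i => shift f P (e i))), ?_, ?_, ?_⟩
  · intro Q hQ
    rw [mem_insert, mem_image] at hQ
    rcases hQ with rfl | ⟨i, _, rfl⟩
    · exact hPO
    · exact shift_mem_Om hf hPO (heP i)
  · rw [Finset.card_insert_of_notMem hPnot, Finset.card_image_of_injective _ hsinj, card_univ,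
      Fintype.card_fin]
  · have key : ∀ x y z : W, (x = 0 ∨ ∃ i, x = e i) → (y = 0 ∨ ∃ i, y = e i) →
        (z = 0 ∨ ∃ i, z = e i) → x ≠ y → x ≠ z → y ≠ z → P (x + y + z) = 1 := by
      intro x y z hx hy hz hxy hxz hyz
      have hPx : ∀ x : W, (x = 0 ∨ ∃ i, x = e i) → P x = 0 := by
        rintro x (rfl | ⟨i, rfl⟩)
        · exact IsForm.zero
        · exact heP i
      rw [hPf, hPf, hPx x hx, hPx y hy, hPx z hz, map_add, LinearMap.add_apply]
      have hfe : ∀ i j, e i ≠ e j → f (e i) (e j) = 1 := fun i j h =>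
        he i j fun hij => h (by rw [hij])
      rcases hx with rfl | ⟨i, rfl⟩
      · rcases hy with rfl | ⟨j, rfl⟩
        · exact absurd rfl hxy
        · rcases hz with rfl | ⟨k, rfl⟩
          · exact absurd rfl hxz
          · rw [hfe j k hyz]
            simp
      · rcases hy with rfl | ⟨j, rfl⟩
        · rcases hz with rfl | ⟨k, rfl⟩
          · exact absurd rfl hyz
          · rw [hfe i k hxz]
            simp
        · rcases hz with rfl | ⟨k, rfl⟩
          · rw [hfe i j hxy]
            simp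
          · rw [hfe i j hxy, hfe i k hxz, hfe j k hyz]
            rfl
    have hrep : ∀ Q ∈ insert P (univ.image (fun i => shift f P (e i))),
        ∃ x, (x = 0 ∨ ∃ i, x = e i) ∧ Q = shift f P x := by
      intro Q hQ
      rw [mem_insert, mem_image] at hQ
      rcases hQ with rfl | ⟨i, _, rfl⟩
      · exact ⟨0, Or.inl rfl, (shift_zero Q).symm⟩
      · exact ⟨e i, Or.inr ⟨i, rfl⟩, rfl⟩
    intro Q₁ h₁ Q₂ h₂ Q₃ h₃ h12 h13 h23 hcon
    obtain ⟨x, hx, rfl⟩ := hrep Q₁ h₁
    obtain ⟨y, hy, rfl⟩ := hrep Q₂ h₂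
    obtain ⟨z, hz, rfl⟩ := hrep Q₃ h₃
    rw [add_shift_shift] at hcon
    have h1 := eq_zero_of_shift_mem hf h16 hPO hcon
    rw [key x y z hx hy hz (fun h => h12 (by rw [h])) (fun h => h13 (by rw [h]))
      (fun h => h23 (by rw [h]))] at h1
    exact absurd h1 (by decide)

end Pool.Agent.H66.SIT
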