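import Pool.Agent.H66.SIT.Act

/-!
# Characters, forms, and their sums
-/

open Finset

namespace Pool.Agent.H66.SIT

/-- The nontrivial character of `ZMod 2` with values in `ℤ`. -/
def chi (a : ZMod 2) : ℤ := if a = 0 then 1 else -1

theorem zmod2_cases (a : ZMod 2) : a = 0 ∨ a = 1 := by
  revert a; decide

@[simp] theorem chi_zero : chi 0 = 1 := rfl
@[simp] theorem chi_one : chi 1 = -1 := rfl

theorem chi_add (a b : ZMod 2) : chi (a + b) = chi a * chi b := by
  revert a b; decide

theorem chi_mul_self (a : ZMod 2) : chi a * chi a = 1 := by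
  revert a; decide

theorem chi_eq (a : ZMod 2) : chi a = 1 ∨ chi a = -1 := by
  revert a; decide

theorem chi_eq_one_iff (a : ZMod 2) : chi a = 1 ↔ a = 0 := by
  revert a; decide

theorem chi_eq_neg_one_iff (a : ZMod 2) : chi a = -1 ↔ a = 1 := by
  revert a; decide

theorem ne_zero_iff (a : ZMod 2) : a ≠ 0 ↔ a = 1 := by
  revert a; decide

theorem ne_one_iff (a : ZMod 2) : a ≠ 1 ↔ a = 0 := by
  revert a; decide

theorem add_self_zmod (a : ZMod 2) : a + a = 0 := by
  revert a; decide

section
variable {W : Type*} [AddCommGroup W] [Module (ZMod 2) W]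

theorem add_self_W (x : W) : x + x = 0 := by
  have h : (2 : ZMod 2) • x = x + x := two_smul (ZMod 2) x
  rw [← h]
  have : (2 : ZMod 2) = 0 := rfl
  rw [this, zero_smul]

theorem add_add_cancel_W (x y : W) : x + y + y = x := by
  rw [add_assoc, add_self_W, add_zero]

theorem neg_eq_W (x : W) : -x = x := neg_eq_of_add_eq_zero_left (add_self_W x)

theorem sub_eq_add_W (x y : W) : x - y = x + y := by rw [sub_eq_add_neg, neg_eq_W]

theorem add_eq_zero_W {x y : W} : x + y = 0 ↔ x = y := by
  rw [add_eq_zero_iff_eq_neg, neg_eq_W]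

variable (f : LinearMap.BilinForm (ZMod 2) W)

/-- `Q` polarises to `f`. -/
def IsForm (Q : QuadraticForm (ZMod 2) W) : Prop := ∀ x y, Q (x + y) = Q x + Q y + f x y

/-- The form `Q + f(u, ·)`. -/
def shift (Q : QuadraticForm (ZMod 2) W) (u : W) : QuadraticForm (ZMod 2) W :=
  Q + (QuadraticMap.sq : QuadraticForm (ZMod 2) (ZMod 2)).comp (f u)

variable {f}

@[simp] theorem shift_apply (Q : QuadraticForm (ZMod 2) W) (u x : W) :
    shift f Q u x = Q x + f u x := by
  have h : ∀ a : ZMod 2, a * a = a := by decide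
  simp [shift, h]

theorem shift_zero (Q : QuadraticForm (ZMod 2) W) : shift f Q 0 = Q := by
  ext x; simp

theorem shift_shift (Q : QuadraticForm (ZMod 2) W) (u v : W) :
    shift f (shift f Q u) v = shift f Q (u + v) := by
  ext x; simp [add_assoc]

theorem f_symm (hf : f.IsAlt) (x y : W) : f x y = f y x := by
  have h : f (x + y) (x + y) = 0 := hf (x + y)
  have h1 : f x x = 0 := hf x
  have h2 : f y y = 0 := hf y
  simp only [map_add, LinearMap.add_apply, h1, h2, zero_add, add_zero] at h
  have := add_self_zmod (f y x)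
  linear_combination h - this

theorem f_self (hf : f.IsAlt) (x : W) : f x x = 0 := hf x

theorem IsForm.zero {Q : QuadraticForm (ZMod 2) W} : Q 0 = 0 := QuadraticMap.map_zero Q

theorem IsForm.shift {Q : QuadraticForm (ZMod 2) W} (h : IsForm f Q) (u : W) :
    IsForm f (shift f Q u) := by
  intro x y
  rw [shift_apply, shift_apply, shift_apply, h, map_add]
  ring

theorem eq_zero_of_f_left (hnd : f.Nondegenerate) {u : W} (h : ∀ x, f u x = 0) : u = 0 :=
  hnd.1 u h

theorem exists_f_eq_one (hnd : f.Nondegenerate) {u : W} (hu : u ≠ 0) : ∃ v, f u v = 1 := by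
  by_contra h
  push Not at h
  exact hu (hnd.1 u fun x => (ne_one_iff _).1 (h x))

theorem shift_inj (hnd : f.Nondegenerate) {Q : QuadraticForm (ZMod 2) W} {u v : W}
    (h : shift f Q u = shift f Q v) : u = v := by
  have h1 : ∀ x, f u x = f v x := fun x => by
    have := congrArg (fun R : QuadraticForm (ZMod 2) W => R x) h
    simpa using this
  have h2 : u - v = 0 := hnd.1 _ fun x => by
    rw [map_sub, LinearMap.sub_apply, h1, sub_self]
  exact sub_eq_zero.1 h2

theorem exists_rep [FiniteDimensional (ZMod 2) W] (hnd : f.Nondegenerate)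
    (φ : W →ₗ[ZMod 2] ZMod 2) : ∃ u, ∀ x, f u x = φ x := by
  refine ⟨(f.toDual hnd).symm φ, fun x => ?_⟩
  rw [← LinearMap.BilinForm.toDual_def hnd, LinearEquiv.apply_symm_apply]

theorem exists_shift [FiniteDimensional (ZMod 2) W] (hnd : f.Nondegenerate)
    {Q Q' : QuadraticForm (ZMod 2) W} (h : IsForm f Q) (h' : IsForm f Q') :
    ∃ u, Q' = shift f Q u := by
  let φ : W →ₗ[ZMod 2] ZMod 2 :=
    { toFun := fun x => Q' x + Q x
      map_add' := by
        intro x y
        rw [h, h']
        have := add_self_zmod (f x y)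
        linear_combination this
      map_smul' := by
        intro c x
        rw [QuadraticMap.map_smul, QuadraticMap.map_smul]
        have : c * c = c := by revert c; decide
        rw [this]
        simp [mul_add] }
  obtain ⟨u, hu⟩ := exists_rep hnd φ
  refine ⟨u, ?_⟩
  ext x
  rw [shift_apply, hu]
  have := add_self_zmod (Q x)
  change Q' x = Q x + (Q' x + Q x)
  linear_combination -this

variable [Fintype W]

theorem sum_chi_f (hnd : f.Nondegenerate) [DecidableEq W] (u : W) :
    ∑ w, chi (f u w) = if u = 0 then (Fintype.card W : ℤ) else 0 := by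
  split_ifs with h
  · subst h; simp
  · obtain ⟨v, hv⟩ := exists_f_eq_one hnd h
    have h1 : ∑ w, chi (f u w) = ∑ w, chi (f u (w + v)) :=
      (Equiv.sum_comp (Equiv.addRight v) (fun w => chi (f u w))).symm
    have h2 : ∑ w, chi (f u (w + v)) = - ∑ w, chi (f u w) := by
      rw [← Finset.sum_neg_distrib]
      refine Finset.sum_congr rfl fun w _ => ?_
      rw [map_add, chi_add, hv]; simp
    omega

/-- The character sum of a form. -/
def S (Q : QuadraticForm (ZMod 2) W) : ℤ := ∑ w, chi (Q w)

theorem S_shift (hf : f.IsAlt) {Q : QuadraticForm (ZMod 2) W} (h : IsForm f Q) (u : W) :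
    S (shift f Q u) = chi (Q u) * S Q := by
  unfold S
  rw [← Equiv.sum_comp (Equiv.addRight u) (fun w => chi (Q w)), Finset.mul_sum]
  refine Finset.sum_congr rfl fun w _ => ?_
  change chi (shift f Q u w) = chi (Q u) * chi (Q (w + u))
  rw [← chi_add, shift_apply, h, f_symm hf w u]
  congr 1
  have := add_self_zmod (Q u)
  linear_combination -this

theorem sum_chi_mul (hf : f.IsAlt) (hnd : f.Nondegenerate) {Q : QuadraticForm (ZMod 2) W}
    (h : IsForm f Q) (u : W) [DecidableEq W] :
    ∑ w, chi (Q w) * chi (Q (w + u)) = if u = 0 then (Fintype.card W : ℤ) else 0 := by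
  have : ∀ w, chi (Q w) * chi (Q (w + u)) = chi (Q u) * chi (f u w) := by
    intro w
    rw [← chi_add, ← chi_add, h, f_symm hf w u]
    congr 1
    have := add_self_zmod (Q w)
    linear_combination this
  simp_rw [this]
  rw [← Finset.mul_sum, sum_chi_f hnd]
  split_ifs with hu
  · subst hu; simp
  · simp

theorem S_sq (hf : f.IsAlt) (hnd : f.Nondegenerate) {Q : QuadraticForm (ZMod 2) W}
    (h : IsForm f Q) : S Q * S Q = Fintype.card W := by
  classical
  unfold S
  rw [Finset.sum_mul_sum]
  have h1 : ∀ w, ∑ v, chi (Q w) * chi (Q v) = ∑ u, chi (Q w) * chi (Q (w + u)) := by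
    intro w
    exact (Equiv.sum_comp (Equiv.addLeft w) (fun v => chi (Q w) * chi (Q v))).symm
  simp_rw [h1]
  rw [Finset.sum_comm]
  simp_rw [sum_chi_mul hf hnd h]
  simp

/-- orthogonality of different forms -/
theorem sum_chi_forms_ne (hnd : f.Nondegenerate)
    {Q Q' : QuadraticForm (ZMod 2) W}
    (h : IsForm f Q) (h' : IsForm f Q') (hne : Q ≠ Q') :
    ∑ w, chi (Q w) * chi (Q' w) = 0 := by
  classical
  have : FiniteDimensional (ZMod 2) W := Module.Finite.of_finite
  obtain ⟨u, rfl⟩ := exists_shift hnd h h'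
  have h2 : ∀ w, chi (Q w) * chi (shift f Q u w) = chi (f u w) := by
    intro w
    rw [shift_apply, chi_add, ← mul_assoc, chi_mul_self, one_mul]
  simp_rw [h2]
  rw [sum_chi_f hnd]
  by_cases hu : u = 0
  · subst hu; rw [shift_zero] at hne; exact absurd rfl hne
  · simp [hu]

theorem sum_chi_forms_self (Q : QuadraticForm (ZMod 2) W) :
    ∑ w, chi (Q w) * chi (Q w) = Fintype.card W := by
  simp [chi_mul_self]

end

end Pool.Agent.H66.SIT
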