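import Pool.Agent.H66.SIT.CaseC2

/-!
# The reducible cases
-/

open Finset

namespace Pool.Agent.H66.SIT

variable {W : Type*} [AddCommGroup W] [Module (ZMod 2) W]
variable {f : LinearMap.BilinForm (ZMod 2) W}
variable [Fintype W] {n : ℕ} {ε s : ℤ} {A : Finset (QuadraticForm (ZMod 2) W)}

theorem Stab.mem_span_of {g : W ≃ₗ[ZMod 2] W} (hg : Stab f A g) {w : W}
    (hw : w ∈ Submodule.span (ZMod 2) (TT f A : Set W)) :
    g w ∈ Submodule.span (ZMod 2) (TT f A : Set W) := by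
  induction hw using Submodule.span_induction with
  | mem z hz => exact Submodule.subset_span (hg.mem_TT_of hz)
  | zero => rw [map_zero]; exact Submodule.zero_mem _
  | add x x' _ _ h h' => rw [map_add]; exact Submodule.add_mem _ h h'
  | smul c x _ h => rw [map_smul]; exact Submodule.smul_mem _ c h

theorem Stab.mem_orth_of (hf : f.IsAlt) {g : W ≃ₗ[ZMod 2] W} (hg : Stab f A g) {w : W}
    (hw : ∀ u ∈ Submodule.span (ZMod 2) (TT f A : Set W), f w u = 0) :
    ∀ u ∈ Submodule.span (ZMod 2) (TT f A : Set W), f (g w) u = 0 := by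
  intro u hu
  have h1 := hw _ (hg.symm.mem_span_of hu)
  have h2 := hg.1 w (g.symm u)
  rw [g.apply_symm_apply] at h2
  rw [h2, h1]

/-- Case A: `T` does not span `W`. -/
theorem Ctx.caseA (hf : f.IsAlt) (hnd : f.Nondegenerate) (hnum : Num W n ε s)
    (c : Ctx f s A) (hspan : Submodule.span (ZMod 2) (TT f A : Set W) ≠ ⊤) :
    ∃ Y : Submodule (ZMod 2) W, Y ≠ ⊥ ∧ (∀ x ∈ Y, ∀ y ∈ Y, f x y = 0) ∧
      ((∀ Q ∈ Om f s, (Q ∈ A ↔ ∀ y ∈ Y, Q y = 0)) ∨
       (∀ Q ∈ Om f s, (Q ∉ A ↔ ∀ y ∈ Y, Q y = 0))) := by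
  classical
  have hfd : FiniteDimensional (ZMod 2) W := Module.Finite.of_finite
  have hs0 := hnum.s_ne_zero
  obtain ⟨Z, hZ⟩ : ∃ Z, Z = Submodule.span (ZMod 2) (TT f A : Set W) := ⟨_, rfl⟩
  rw [← hZ] at hspan
  have hTZ : ∀ w ∈ TT f A, w ∈ Z := fun w hw => by rw [hZ]; exact Submodule.subset_span hw
  -- 1. nonzero vectors of `Z` are in `T`
  have h1 : ∀ w ∈ Z, w ≠ 0 → w ∈ TT f A := by
    intro w hwZ hw0
    by_contra hwT
    apply hspan
    rw [eq_top_iff]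
    intro u _
    by_cases hu0 : u = 0
    · rw [hu0]; exact Z.zero_mem
    by_cases huT : u ∈ TT f A
    · exact hTZ u huT
    · obtain ⟨g, hg, rfl⟩ := c.trans_compl hf hnd hw0 hwT hu0 huT
      rw [hZ] at hwZ ⊢
      exact hg.mem_span_of hwZ
  -- there is a vector outside `Z`
  obtain ⟨a, ha⟩ : ∃ a, a ∉ Z := by
    by_contra hcon
    push Not at hcon
    exact hspan (eq_top_iff.2 fun x _ => hcon x)
  obtain ⟨t, ht⟩ := c.TT_nonempty hf hnd hnum
  have ht0 : t ≠ 0 := (mem_TT.1 ht).1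
  -- 2. vectors orthogonal to `Z` are in `Z`
  have h2 : ∀ w, (∀ u ∈ Z, f w u = 0) → w ∈ Z := by
    intro w hw
    by_contra hwZ
    have hw0 : w ≠ 0 := fun h => hwZ (h ▸ Z.zero_mem)
    have hwT : w ∉ TT f A := fun h => hwZ (hTZ w h)
    have hall : ∀ v, v ∉ Z → ∀ u ∈ Z, f v u = 0 := by
      intro v hv
      have hv0 : v ≠ 0 := fun h => hv (h ▸ Z.zero_mem)
      have hvT : v ∉ TT f A := fun h => hv (hTZ v h)
      obtain ⟨g, hg, rfl⟩ := c.trans_compl hf hnd hw0 hwT hv0 hvT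
      rw [hZ] at hw ⊢
      exact hg.mem_orth_of hf hw
    obtain ⟨b, hb⟩ := exists_f_eq_one hnd ht0
    by_cases hbZ : b ∈ Z
    · have hab : a + b ∉ Z := fun h => ha (by
        have := Z.add_mem h hbZ
        rwa [add_add_cancel_W] at this)
      have h3 := hall _ hab t (hTZ t ht)
      have h4 := hall a ha t (hTZ t ht)
      rw [map_add, LinearMap.add_apply, h4, zero_add, f_symm hf, hb] at h3
      exact absurd h3 (by decide)
    · have h3 := hall b hbZ t (hTZ t ht)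
      rw [f_symm hf, hb] at h3
      exact absurd h3 (by decide)
  -- the isotropic subspace
  let Y := f.orthogonal Z
  have hmemY : ∀ w, w ∈ Y ↔ ∀ u ∈ Z, f w u = 0 := fun w => mem_orth hf
  have hYZ : ∀ w ∈ Y, w ∈ Z := fun w hw => h2 w ((hmemY w).1 hw)
  have hYY : ∀ x ∈ Y, ∀ y ∈ Y, f x y = 0 := fun x hx y hy => (hmemY x).1 hx y (hYZ y hy)
  have hrefl : f.IsRefl := by
    intro x y h
    rw [f_symm hf]; exact h
  have hZorth : ∀ w, (∀ y ∈ Y, f w y = 0) → w ∈ Z := by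
    intro w hw
    have h3 : w ∈ f.orthogonal Y := (mem_orth hf).2 hw
    rwa [LinearMap.BilinForm.orthogonal_orthogonal hnd hrefl] at h3
  have hYbot : Y ≠ ⊥ := by
    intro h
    have h3 := finrank_orth hnd Z
    change Module.finrank (ZMod 2) Y + _ = _ at h3
    rw [h, finrank_bot, zero_add] at h3
    exact hspan (Submodule.eq_top_of_finrank_eq h3)
  -- stabilisers preserve `Y`
  have hgY : ∀ g, Stab f A g → ∀ y ∈ Y, g y ∈ Y := by
    intro g hg y hy
    rw [hmemY] at hy ⊢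
    rw [hZ] at hy ⊢
    exact hg.mem_orth_of hf hy
  -- 4. forms with the same restriction to `Y`
  have h4 : ∀ Q ∈ A, ∀ Q' ∈ Om f s, (∀ y ∈ Y, Q y = Q' y) → Q' ∈ A := by
    intro Q hQ Q' hQ' hres
    obtain ⟨w, rfl⟩ := exists_shift_Om hnd (c.sub hQ) hQ'
    have h5 : ∀ y ∈ Y, f w y = 0 := by
      intro y hy
      have := hres y hy
      rw [shift_apply] at this
      exact left_eq_add.1 this
    have hwZ := hZorth w h5
    by_cases hw0 : w = 0
    · rw [hw0, shift_zero]; exact hQ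
    · exact (mem_TT.1 (h1 w hwZ hw0)).2 Q hQ (eq_zero_of_shift_mem hf hs0 (c.sub hQ) hQ')
  -- 5. some form of `Om` vanishes on `Y`
  have h5 : ∃ Q ∈ Om f s, ∀ y ∈ Y, Q y = 0 := by
    by_contra hcon
    push Not at hcon
    have ha0 : a ≠ 0 := fun h => ha (h ▸ Z.zero_mem)
    have haT : a ∉ TT f A := fun h => ha (hTZ a h)
    obtain ⟨Q, hQ, hQa, hQa1, hQa2⟩ := c.exists_split hf ha0 haT
    have hQf := (mem_Om.1 (c.sub hQ)).1
    -- linear functional
    let φ : Y →ₗ[ZMod 2] ZMod 2 :=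
      { toFun := fun y => Q y
        map_add' := by
          intro x y
          rw [Submodule.coe_add, hQf, hYY x x.2 y y.2, add_zero]
        map_smul' := by
          intro r x
          rw [Submodule.coe_smul, QuadraticMap.map_smul]
          have : r * r = r := by revert r; decide
          rw [this]; rfl }
    obtain ⟨ψ, hψ⟩ := LinearMap.exists_extend φ
    obtain ⟨z, hz⟩ := exists_rep hnd ψ
    have hzQ : ∀ y ∈ Y, f z y = Q y := by
      intro y hy
      rw [hz]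
      have : ψ y = (ψ ∘ₗ Y.subtype) ⟨y, hy⟩ := rfl
      rw [this, hψ]; rfl
    have hz1 : z ∉ Z := by
      intro hzZ
      obtain ⟨y, hy, hne⟩ := hcon Q (c.sub hQ)
      apply hne
      rw [← hzQ y hy, f_symm hf]
      exact (hmemY y).1 hy z hzZ
    have hz2 : z + a ∉ Z := by
      intro hzZ
      obtain ⟨y, hy, hne⟩ := hcon _ hQa1
      apply hne
      rw [shift_apply, ← hzQ y hy, ← LinearMap.add_apply, ← map_add, f_symm hf]
      exact (hmemY y).1 hy _ hzZ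
    have hz10 : z ≠ 0 := fun h => hz1 (h ▸ Z.zero_mem)
    have hz20 : z + a ≠ 0 := fun h => hz2 (h ▸ Z.zero_mem)
    obtain ⟨g, hg, hgz⟩ := c.trans_compl hf hnd hz10 (fun h => hz1 (hTZ _ h)) hz20
      (fun h => hz2 (hTZ _ h))
    apply hQa2
    apply h4 (act g Q) ((hg.2 Q).2 hQ) _ hQa1
    intro y hy
    rw [act_apply, shift_apply, ← hzQ y hy, ← LinearMap.add_apply, ← map_add, ← hgz]
    rw [← hzQ _ (hgY g.symm hg.symm y hy)]
    have := hg.1 z (g.symm y)
    rw [g.apply_symm_apply] at this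
    exact this.symm
  obtain ⟨Q0, hQ0, hQ0Y⟩ := h5
  refine ⟨Y, hYbot, hYY, ?_⟩
  have hact : ∀ g, Stab f A g → ∀ y ∈ Y, act g Q0 y = 0 := by
    intro g hg y hy
    rw [act_apply]
    exact hQ0Y _ (hgY g.symm hg.symm y hy)
  by_cases hQA : Q0 ∈ A
  · left
    intro Q hQ
    constructor
    · intro hQmem
      obtain ⟨R, hR, hRA⟩ := c.ne'
      obtain ⟨g, hg, h6, _⟩ := c.trans Q0 hQA R hR hRA Q hQmem R hR hRA
      rw [← h6]
      exact hact g hg
    · intro hQY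
      exact h4 Q0 hQA Q hQ (fun y hy => by rw [hQ0Y y hy, hQY y hy])
  · right
    intro Q hQ
    constructor
    · intro hQmem
      obtain ⟨P, hP⟩ := c.ne
      obtain ⟨g, hg, _, h6⟩ := c.trans P hP Q0 hQ0 hQA P hP Q hQ hQmem
      rw [← h6]
      exact hact g hg
    · intro hQY hQmem
      apply hQA
      exact h4 Q hQmem Q0 hQ0 (fun y hy => by rw [hQ0Y y hy, hQY y hy])

theorem orth_span {T₁ T₂ : Finset W} (h : ∀ x ∈ T₁, ∀ y ∈ T₂, f x y = 0) :
    ∀ x ∈ Submodule.span (ZMod 2) (T₁ : Set W), ∀ y ∈ Submodule.span (ZMod 2) (T₂ : Set W),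
      f x y = 0 := by
  intro x hx y hy
  have h1 : ∀ x ∈ T₁, f x y = 0 := by
    intro x hx
    induction hy using Submodule.span_induction with
    | mem z hz => exact h x hx z hz
    | zero => simp
    | add z z' _ _ h h' => rw [map_add, h, h']; rfl
    | smul c z _ h => rw [map_smul, h, smul_zero]
  induction hx using Submodule.span_induction with
  | mem z hz => exact h1 z hz
  | zero => simp
  | add x x' _ _ h h' => rw [map_add, LinearMap.add_apply, h, h']; rfl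
  | smul c x _ h => rw [map_smul, LinearMap.smul_apply, h, smul_zero]

/-- Case B: `T` spans `W` but is not connected. -/
theorem Ctx.caseB (hf : f.IsAlt) (hnd : f.Nondegenerate) (hnum : Num W n ε s)
    (c : Ctx f s A) (hspan : Submodule.span (ZMod 2) (TT f A : Set W) = ⊤)
    (hconn : ¬ Conn f (TT f A)) :
    ∃ U₁ U₂ : Submodule (ZMod 2) W, U₁ ≠ ⊥ ∧ U₂ ≠ ⊥ ∧ IsCompl U₁ U₂ ∧
      (∀ x ∈ U₁, ∀ y ∈ U₂, f x y = 0) ∧
      (∀ w ∈ U₁, w ≠ 0 → w ∈ TT f A) ∧ (∀ w ∈ U₂, w ≠ 0 → w ∈ TT f A) := by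
  classical
  unfold Conn at hconn
  push Not at hconn
  obtain ⟨P, hP, ⟨y₀, hy₀, hPy₀⟩, ⟨x₀, hx₀, hPx₀⟩⟩ := hconn
  obtain ⟨T, hTd⟩ : ∃ T, T = TT f A := ⟨_, rfl⟩
  rw [← hTd] at hspan hP hy₀ hx₀ ⊢
  let T₁ := T.filter P
  let T₂ := T.filter (fun x => ¬ P x)
  have hT12 : ∀ x ∈ T₁, ∀ y ∈ T₂, f x y = 0 := by
    intro x hx y hy
    rw [mem_filter] at hx hy
    exact hP x hx.1 y hy.1 hx.2 hy.2
  let U₁ := Submodule.span (ZMod 2) (T₁ : Set W)
  let U₂ := Submodule.span (ZMod 2) (T₂ : Set W)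
  have hU12 : ∀ x ∈ U₁, ∀ y ∈ U₂, f x y = 0 := orth_span hT12
  have hsup : U₁ ⊔ U₂ = ⊤ := by
    rw [eq_top_iff, ← hspan, Submodule.span_le]
    intro x hx
    by_cases hPx : P x
    · exact Submodule.mem_sup_left (Submodule.subset_span (mem_filter.2 ⟨hx, hPx⟩))
    · exact Submodule.mem_sup_right (Submodule.subset_span (mem_filter.2 ⟨hx, hPx⟩))
  have hinf : ∀ x, x ∈ U₁ → x ∈ U₂ → x = 0 := by
    intro x h1 h2
    apply hnd.1
    intro y
    have hy : y ∈ U₁ ⊔ U₂ := by rw [hsup]; trivial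
    obtain ⟨y1, hy1, y2, hy2, rfl⟩ := Submodule.mem_sup.1 hy
    rw [map_add, hU12 x h1 y2 hy2, f_symm hf, hU12 y1 hy1 x h2]; rfl
  have hcompl : IsCompl U₁ U₂ := by
    refine ⟨?_, ?_⟩
    · rw [Submodule.disjoint_def]; exact hinf
    · rw [codisjoint_iff]; exact hsup
  have h0T : (0 : W) ∉ T := by rw [hTd]; exact zero_not_mem_TT
  have hne : ∀ w ∈ T, w ≠ 0 := fun w hw h => h0T (h ▸ hw)
  have hT1U : ∀ x ∈ T₁, x ∈ U₁ := fun x hx => Submodule.subset_span hx
  have hT2U : ∀ x ∈ T₂, x ∈ U₂ := fun x hx => Submodule.subset_span hx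
  have hx₀1 : x₀ ∈ T₁ := mem_filter.2 ⟨hx₀, hPx₀⟩
  have hy₀2 : y₀ ∈ T₂ := mem_filter.2 ⟨hy₀, hPy₀⟩
  -- splitting of `hT`
  have hsplit : ∀ x ∈ U₁, ∀ y ∈ U₂, hT f T (x + y) = hT f T₁ x + hT f T₂ y := by
    intro x hx y hy
    unfold hT
    rw [← Finset.sum_filter_add_sum_filter_not T P]
    congr 1
    · refine Finset.sum_congr rfl fun t ht => ?_
      rw [map_add, hU12 t (hT1U t ht) y hy, add_zero]
    · refine Finset.sum_congr rfl fun t ht => ?_
      rw [map_add, f_symm hf t x, hU12 x hx t (hT2U t ht), zero_add]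
  have hlt : ∀ T' : Finset W, ∀ x, (∃ t ∈ T', f t x = 1) → hT f T' x < T'.card := by
    intro T' x ⟨t, ht, htx⟩
    have h1 := two_mul_nonorth (f := f) T' x
    have h2 : 0 < (T'.filter (fun u => f u x = 1)).card := by
      rw [Finset.card_pos]; exact ⟨t, mem_filter.2 ⟨ht, htx⟩⟩
    omega
  have hex1 : ∀ x ∈ U₁, x ≠ 0 → ∃ t ∈ T₁, f t x = 1 := by
    intro x hx hx0
    by_contra hcon
    push Not at hcon
    apply hx0
    apply orth_of_span_top hf hnd hspan
    intro t ht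
    by_cases hPt : P t
    · exact (ne_one_iff _).1 (hcon t (mem_filter.2 ⟨ht, hPt⟩))
    · rw [f_symm hf]
      exact hU12 x hx t (hT2U t (mem_filter.2 ⟨ht, hPt⟩))
  have hex2 : ∀ y ∈ U₂, y ≠ 0 → ∃ t ∈ T₂, f t y = 1 := by
    intro x hx hx0
    by_contra hcon
    push Not at hcon
    apply hx0
    apply orth_of_span_top hf hnd hspan
    intro t ht
    by_cases hPt : P t
    · exact hU12 t (hT1U t (mem_filter.2 ⟨ht, hPt⟩)) x hx
    · exact (ne_one_iff _).1 (hcon t (mem_filter.2 ⟨ht, hPt⟩))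
  have hsum : ∀ x ∈ U₁, x ≠ 0 → ∀ y ∈ U₂, y ≠ 0 → x + y ∉ T ∧ x + y ≠ 0 := by
    intro x hx hx0 y hy hy0
    constructor
    · intro hxy
      by_cases hPxy : P (x + y)
      · have h1 := hT1U _ (mem_filter.2 ⟨hxy, hPxy⟩)
        have h2 : y ∈ U₁ := by
          have := U₁.add_mem hx h1
          rwa [← add_assoc, add_self_W, zero_add] at this
        exact hy0 (hinf y h2 hy)
      · have h1 := hT2U _ (mem_filter.2 ⟨hxy, hPxy⟩)
        have h2 : x ∈ U₂ := by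
          have := U₂.add_mem h1 hy
          rwa [add_add_cancel_W] at this
        exact hx0 (hinf x hx h2)
    · intro h
      rw [add_eq_zero_W] at h
      exact hx0 (hinf x hx (h ▸ hy))
  refine ⟨U₁, U₂, ?_, ?_, hcompl, hU12, ?_, ?_⟩
  · intro h
    have := hT1U x₀ hx₀1
    rw [h, Submodule.mem_bot] at this
    exact hne x₀ hx₀ this
  · intro h
    have := hT2U y₀ hy₀2
    rw [h, Submodule.mem_bot] at this
    exact hne y₀ hy₀ this
  · intro x hx hx0
    by_contra hxT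
    obtain ⟨h1, h2⟩ := hsum x hx hx0 y₀ (hT2U _ hy₀2) (hne _ hy₀)
    have h3 := c.hT_const hf hnd (w := x) (w' := x + y₀) hx0 (by rw [← hTd]; exact hxT) h2
      (by rw [← hTd]; exact h1)
    rw [← hTd, hsplit x hx y₀ (hT2U _ hy₀2)] at h3
    have h4 := hsplit x hx 0 U₂.zero_mem
    rw [add_zero, hT_zero] at h4
    have h5 := hlt T₂ y₀ (hex2 y₀ (hT2U _ hy₀2) (hne _ hy₀))
    omega
  · intro y hy hy0
    by_contra hyT
    obtain ⟨h1, h2⟩ := hsum x₀ (hT1U _ hx₀1) (hne _ hx₀) y hy hy0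
    have h3 := c.hT_const hf hnd (w := y) (w' := x₀ + y) hy0 (by rw [← hTd]; exact hyT) h2
      (by rw [← hTd]; exact h1)
    rw [← hTd, hsplit x₀ (hT1U _ hx₀1) y hy] at h3
    have h4 := hsplit 0 U₁.zero_mem y hy
    rw [zero_add, hT_zero] at h4
    have h5 := hlt T₁ x₀ (hex1 x₀ (hT1U _ hx₀1) (hne _ hx₀))
    omega

end Pool.Agent.H66.SIT
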