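import Pool.Agent.H66.SIT.Lines
import Pool.Agent.H66.SIT.Alg

/-!
# The connected case
-/

open Finset

namespace Pool.Agent.H66.SIT

variable {W : Type*} [AddCommGroup W] [Module (ZMod 2) W]
variable {f : LinearMap.BilinForm (ZMod 2) W}

/-- Standing numerical hypotheses. -/
structure Num (W : Type*) [Fintype W] (n : ℕ) (ε s : ℤ) : Prop where
  hn : 1 ≤ n
  hε : ε = 1 ∨ ε = -1
  hs : s = ε * 2 ^ n
  hW : (Fintype.card W : ℤ) = s * s

theorem Num.s_ne_zero [Fintype W] {n : ℕ} {ε s : ℤ} (h : Num W n ε s) : s ≠ 0 := by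
  rw [h.hs]
  have : (0 : ℤ) < 2 ^ n := by positivity
  rcases h.hε with h1 | h1 <;> rw [h1] <;> intro h2 <;> linarith

theorem two_le_pow {n : ℕ} (hn : 1 ≤ n) : (2 : ℤ) ≤ 2 ^ n := by
  have := pow_le_pow_right₀ (show (1 : ℤ) ≤ 2 by norm_num) hn
  simpa using this

theorem Num.s_ne_one [Fintype W] {n : ℕ} {ε s : ℤ} (h : Num W n ε s) : s ≠ 1 := by
  rw [h.hs]
  have := two_le_pow h.hn
  rcases h.hε with h1 | h1 <;> rw [h1] <;> intro h2 <;> linarith

theorem Num.s_ne_neg_one [Fintype W] {n : ℕ} {ε s : ℤ} (h : Num W n ε s) : s ≠ -1 := by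
  rw [h.hs]
  have := two_le_pow h.hn
  rcases h.hε with h1 | h1 <;> rw [h1] <;> intro h2 <;> linarith

variable [Fintype W] {n : ℕ} {ε s : ℤ} {A : Finset (QuadraticForm (ZMod 2) W)}

theorem Ctx.card_lt (c : Ctx f s A) : A.card < (Om f s).card := by
  apply Finset.card_lt_card
  refine ⟨c.sub, fun h => ?_⟩
  obtain ⟨R, hR, hRA⟩ := c.ne'
  exact hRA (h hR)

theorem Ctx.card_pos (c : Ctx f s A) : 0 < A.card := Finset.card_pos.2 c.ne

theorem FF_eqs (hf : f.IsAlt) (hnd : f.Nondegenerate) (hA : A ⊆ Om f s) [DecidableEq W]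
    {T : Finset W} (h0 : (0 : W) ∉ T) {x y : ℤ} (hx : ∀ w ∈ T, FF A w = x)
    (hy : ∀ w, w ∉ T → w ≠ 0 → FF A w = y) :
    ((A.card - y) + (x - y) * T.card + y * Fintype.card W = A.card * s) ∧
    ((A.card * A.card - y * y) + (x * x - y * y) * T.card + y * y * Fintype.card W
      = (Fintype.card W : ℤ) * A.card) := by
  classical
  constructor
  · have h1 := sum_FF hA
    have h2 := sum_split T h0 (FF A) (fun _ => 1) x y hx hy
    simp only [mul_one] at h2
    rw [h1, FF_zero] at h2
    rw [h2]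
    simp
  · have h1 := sum_FF_sq hnd hA 0 hf
    have h2 := sum_split T h0 (fun w => FF A w * FF A w) (fun w => chi (f w 0)) (x * x) (y * y)
      (fun w hw => by rw [hx w hw]) (fun w hw hw0 => by rw [hy w hw hw0])
    rw [h1, FF_zero] at h2
    have h3 : A.filter (fun Q => shift f Q 0 ∈ A) = A := by
      apply Finset.filter_true_of_mem
      intro Q hQ
      rw [shift_zero]; exact hQ
    rw [h3] at h2
    rw [h2]
    simp

theorem Ctx.not_const (hf : f.IsAlt) (hnd : f.Nondegenerate) (hnum : Num W n ε s)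
    (c : Ctx f s A) {y : ℤ} (hy : ∀ w, w ≠ 0 → FF A w = y) : False := by
  classical
  obtain ⟨h1, h2⟩ := FF_eqs hf hnd c.sub (T := ∅) (by simp) (x := 0) (y := y) (by simp)
    (fun w _ hw => hy w hw)
  simp only [Finset.card_empty, Nat.cast_zero, mul_zero, add_zero] at h1 h2
  rw [hnum.hW] at h1 h2
  have hk : (0 : ℤ) < A.card := by exact_mod_cast c.card_pos
  have h3 := alg_const hnum.s_ne_zero hnum.s_ne_one hnum.s_ne_neg_one hk h1 h2
  obtain ⟨P, hP⟩ := c.ne
  have h4 := card_Om hf hnd hnum.s_ne_zero (c.sub hP)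
  rw [hnum.hW] at h4
  have h5 := c.card_lt
  have h6 : (A.card : ℤ) < (Om f s).card := by exact_mod_cast h5
  linarith

theorem Ctx.TT_nonempty (hf : f.IsAlt) (hnd : f.Nondegenerate) (hnum : Num W n ε s)
    (c : Ctx f s A) : (TT f A).Nonempty := by
  by_contra h
  rw [Finset.not_nonempty_iff_eq_empty] at h
  by_cases hW : ∃ w : W, w ≠ 0
  · obtain ⟨w0, hw0⟩ := hW
    apply c.not_const hf hnd hnum (y := FF A w0)
    intro w hw
    exact c.FF_const hf hnd hw (by rw [h]; simp) hw0 (by rw [h]; simp)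
  · push Not at hW
    apply c.not_const hf hnd hnum (y := 0)
    intro w hw
    exact absurd (hW w) hw

/-- the connected case: constants -/
theorem Ctx.const_T (hf : f.IsAlt) (c : Ctx f s A)
    (hconn : Conn f (TT f A)) {w w' : W} (hw : w ∈ TT f A) (hw' : w' ∈ TT f A) :
    FF A w = FF A w' ∧ hT f (TT f A) w = hT f (TT f A) w' := by
  have h := hconn (fun x => FF A x = FF A w' ∧ hT f (TT f A) x = hT f (TT f A) w') (by
    intro x hx y hy hPx hPy
    rw [← ne_one_iff]
    intro hxy
    apply hPy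
    rw [← FF_const_adj hf c.sub hx hy hxy, ← hT_const_adj hf c.sub hx hy hxy]
    exact hPx)
  rcases h with h | h
  · exact h w hw
  · exact absurd ⟨rfl, rfl⟩ (h w' hw')

/-- a submodule whose orthogonal is trivial is everything -/
theorem eq_top_of_orth (hnd : f.Nondegenerate) {U : Submodule (ZMod 2) W}
    (h : ∀ u, (∀ x ∈ U, f x u = 0) → u = 0) : U = ⊤ := by
  have : FiniteDimensional (ZMod 2) W := Module.Finite.of_finite
  have h1 : f.orthogonal U = ⊥ := by
    rw [eq_bot_iff]
    intro u hu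
    rw [LinearMap.BilinForm.mem_orthogonal_iff] at hu
    rw [Submodule.mem_bot]
    exact h u fun x hx => hu x hx
  have h2 := finrank_orth hnd U
  rw [h1, finrank_bot, zero_add] at h2
  exact Submodule.eq_top_of_finrank_eq h2

theorem orth_of_span_top (hf : f.IsAlt) (hnd : f.Nondegenerate) {T : Finset W}
    (hspan : Submodule.span (ZMod 2) (T : Set W) = ⊤) (u : W)
    (hu : ∀ x ∈ T, f x u = 0) : u = 0 := by
  apply hnd.1
  intro x
  rw [f_symm hf]
  have hx : x ∈ Submodule.span (ZMod 2) (T : Set W) := by rw [hspan]; trivial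
  induction hx using Submodule.span_induction with
  | mem z hz => exact hu z hz
  | zero => simp
  | add x x' _ _ h h' => rw [map_add, LinearMap.add_apply, h, h']; rfl
  | smul c x _ h => rw [map_smul, LinearMap.smul_apply, h, smul_zero]

/-- numerical data of the connected case -/
theorem Ctx.params (hf : f.IsAlt) (hnd : f.Nondegenerate) (hnum : Num W n ε s)
    (c : Ctx f s A) (hspan : Submodule.span (ZMod 2) (TT f A : Set W) = ⊤)
    (hconn : Conn f (TT f A)) {w₀ v₀ : W} (hw₀ : w₀ ∈ TT f A) (hv₀ : v₀ ≠ 0)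
    (hv₀' : v₀ ∉ TT f A) :
    (∀ w ∈ TT f A, ∀ x ∈ TT f A, f x w = 0 → x + w ∉ TT f A) ∧
    (2 * ((TT f A).card + hT f (TT f A) w₀) = 2 ^ n * 2 ^ n ∨
      (hT f (TT f A) v₀ = -3 ∧ hT f (TT f A) w₀ = 2 ^ n - 3 ∧
        ((TT f A).card : ℤ) = 3 * (2 ^ n - 1))) := by
  classical
  set T := TT f A with hTdef
  have h0T : (0 : W) ∉ T := zero_not_mem_TT
  obtain ⟨p, hp⟩ : ∃ p, p = hT f T w₀ := ⟨_, rfl⟩
  obtain ⟨q, hq⟩ : ∃ q, q = hT f T v₀ := ⟨_, rfl⟩
  have hpT : ∀ w ∈ T, hT f T w = p := fun w hw => by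
    rw [hp]; exact (c.const_T hf hconn hw hw₀).2
  have hqT : ∀ w, w ∉ T → w ≠ 0 → hT f T w = q := fun w hw hw0 => by
    rw [hq]; exact c.hT_const hf hnd hw0 hw hv₀ hv₀'
  have hW : (Fintype.card W : ℤ) = 2 ^ n * 2 ^ n := by
    rw [hnum.hW, hnum.hs]
    rcases hnum.hε with h | h <;> rw [h] <;> ring
  obtain ⟨X, hX⟩ : ∃ X : ℤ, X = 2 ^ n := ⟨_, rfl⟩
  rw [← hX] at hW ⊢
  have hXpos : 0 < X := by rw [hX]; positivity
  have htpos : (0 : ℤ) < T.card := by
    exact_mod_cast Finset.card_pos.2 ⟨w₀, hw₀⟩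
  -- Fourier identities
  have F1 : ∀ y : W, y ≠ 0 →
      (T.card - q) + (p - q) * hT f T y = if y ∈ T then X * X else 0 := by
    intro y hy
    have h1 := sum_hT hf hnd T y
    rw [sum_split T h0T (hT f T) (fun w => chi (f w y)) p q hpT hqT, hT_zero] at h1
    have h2 : ∑ w, chi (f w y) = 0 := by
      have h3 : ∀ w, chi (f w y) = chi (f y w) := fun w => by rw [f_symm hf]
      simp_rw [h3]
      rw [sum_chi_f hnd, if_neg hy]
    rw [h2, hW] at h1
    simp only [map_zero, LinearMap.zero_apply, chi_zero, mul_one, mul_zero, add_zero] at h1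
    exact h1
  have F2 : ∀ y : W, y ≠ 0 →
      (T.card * T.card - q * q) + (p * p - q * q) * hT f T y
        = X * X * (T.filter (fun x => x + y ∈ T)).card := by
    intro y hy
    have h1 := sum_hT_sq hf hnd T y
    rw [sum_split T h0T (fun w => hT f T w * hT f T w) (fun w => chi (f w y)) (p * p) (q * q)
      (fun w hw => by rw [hpT w hw]) (fun w hw hw0 => by rw [hqT w hw hw0]), hT_zero] at h1
    have h2 : ∑ w, chi (f w y) = 0 := by
      have h3 : ∀ w, chi (f w y) = chi (f y w) := fun w => by rw [f_symm hf]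
      simp_rw [h3]
      rw [sum_chi_f hnd, if_neg hy]
    rw [h2, hW] at h1
    simp only [map_zero, LinearMap.zero_apply, chi_zero, mul_one, mul_zero, add_zero] at h1
    exact h1
  have hne : ∀ w ∈ T, w ≠ 0 := fun w hw h => h0T (h ▸ hw)
  have E1 : ((T.card : ℤ) - q) + (p - q) * q = 0 := by
    have := F1 v₀ hv₀
    rwa [if_neg hv₀', hqT v₀ hv₀' hv₀] at this
  have E2 : ((T.card : ℤ) - q) + (p - q) * p = X * X := by
    have := F1 w₀ (hne _ hw₀)
    rwa [if_pos hw₀, hpT w₀ hw₀] at this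
  -- the number of vectors in `T` on an orthogonal line through `w`
  have key : ∀ w ∈ T,
      ((T.filter (fun x => x + w ∈ T)).card : ℤ)
        = (T.filter (fun x => f x w = 1)).card
          + (T.filter (fun x => f x w = 0 ∧ x + w ∈ T)).card := by
    intro w hw
    have h1 : T.filter (fun x => x + w ∈ T)
        = T.filter (fun x => f x w = 1) ∪ T.filter (fun x => f x w = 0 ∧ x + w ∈ T) := by
      ext x
      simp only [mem_union, mem_filter]
      constructor
      · rintro ⟨h2, h3⟩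
        rcases zmod2_cases (f x w) with h4 | h4
        · right; exact ⟨h2, h4, h3⟩
        · left; exact ⟨h2, h4⟩
      · rintro (⟨h2, h3⟩ | ⟨h2, h3, h4⟩)
        · exact ⟨h2, c.closed hf h2 hw h3⟩
        · exact ⟨h2, h4⟩
    have h2 : Disjoint (T.filter (fun x => f x w = 1))
        (T.filter (fun x => f x w = 0 ∧ x + w ∈ T)) := by
      rw [Finset.disjoint_left]
      intro z h3 h4
      rw [mem_filter] at h3 h4
      rw [h3.2] at h4
      exact absurd h4.2.1 (by decide)
    rw [h1, Finset.card_union_of_disjoint h2]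
    push_cast; ring
  have par : ∀ w ∈ T, _ := fun w hw =>
    alg_params (a := ((T.filter (fun x => f x w = 1)).card : ℤ)) hXpos htpos E1 E2
      (by have := F2 w (hne w hw); rwa [hpT w hw] at this)
      (by rw [two_mul_nonorth, hpT w hw]) (key w hw)
  have hcl : ∀ x ∈ T, ∀ y ∈ T, f x y = 1 → x + y ∈ T := fun x hx y hy h => c.closed hf hx hy h
  have hsp := orth_of_span_top hf hnd hspan
  -- `a ≠ 0`
  have hadj : ∀ w ∈ T, ∃ x ∈ T, f x w = 1 := by
    intro w hw
    by_contra hcon
    push Not at hcon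
    apply hne w hw
    exact hsp w fun x hx => (ne_one_iff _).1 (hcon x hx)
  have hnat : ∀ w ∈ T, (T.filter (fun x => f x w = 1)).card
      = (T.filter (fun x => f x w₀ = 1)).card := by
    intro w hw
    have h1 := two_mul_nonorth (f := f) T w
    have h2 := two_mul_nonorth (f := f) T w₀
    rw [hpT w hw] at h1
    rw [hpT w₀ hw₀] at h2
    omega
  have ha : (T.filter (fun x => f x w₀ = 1)).card ≠ 0 := by
    obtain ⟨x, hx, hxw⟩ := hadj w₀ hw₀
    rw [← Nat.pos_iff_ne_zero, Finset.card_pos]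
    exact ⟨x, mem_filter.2 ⟨hx, hxw⟩⟩
  -- all `l` are equal; so if one is nonzero, all are
  have lconst : ∀ w ∈ T, ((T.filter (fun x => f x w = 0 ∧ x + w ∈ T)).card : ℤ)
      = (T.filter (fun x => f x w₀ = 0 ∧ x + w₀ ∈ T)).card := by
    intro w hw
    have h1 := F2 w (hne w hw)
    have h2 := F2 w₀ (hne w₀ hw₀)
    rw [hpT w hw, key w hw] at h1
    rw [hpT w₀ hw₀, key w₀ hw₀] at h2
    have h3 := hnat w hw
    rw [h1] at h2
    have hX2 : X * X ≠ 0 := by positivity
    have h4 := mul_left_cancel₀ hX2 h2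
    rw [h3] at h4
    linarith
  have hl0 : (T.filter (fun x => f x w₀ = 0 ∧ x + w₀ ∈ T)).card = 0 := by
    by_contra hcon
    have hline : ∀ y ∈ T, ∃ x ∈ T, f x y = 0 ∧ x + y ∈ T := by
      intro y hy
      have h1 := lconst y hy
      have h2 : (T.filter (fun x => f x y = 0 ∧ x + y ∈ T)).Nonempty := by
        rw [← Finset.card_pos]
        have : (T.filter (fun x => f x y = 0 ∧ x + y ∈ T)).card
          = (T.filter (fun x => f x w₀ = 0 ∧ x + w₀ ∈ T)).card := by exact_mod_cast h1
        omega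
      obtain ⟨x, hx⟩ := h2
      rw [mem_filter] at hx
      exact ⟨x, hx.1, hx.2⟩
    have hall := closed_of_lines hf hcl hsp hconn ha hnat h0T hline
    -- `T ∪ {0}` is a subspace
    let U : Submodule (ZMod 2) W :=
      { carrier := {x | x = 0 ∨ x ∈ T}
        zero_mem' := Or.inl rfl
        add_mem' := by
          rintro x y (rfl | hx) (rfl | hy)
          · left; simp
          · right; rw [zero_add]; exact hy
          · right; rw [add_zero]; exact hx
          · by_cases hxy : x = y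
            · left; rw [hxy, add_self_W]
            · right; exact hall x hx y hy hxy
        smul_mem' := by
          intro a x hx
          rcases zmod2_cases a with rfl | rfl
          · left; rw [zero_smul]
          · rw [one_smul]; exact hx }
    have hU : U = ⊤ := by
      apply eq_top_of_orth hnd (f := f)
      intro u hu
      exact hsp u fun x hx => hu x (Or.inr hx)
    have : v₀ ∈ U := by rw [hU]; trivial
    rcases this with h | h
    · exact hv₀ h
    · exact hv₀' h
  refine ⟨?_, ?_⟩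
  · intro w hw x hx hxw hcon
    have h1 := lconst w hw
    rw [hl0, Nat.cast_zero] at h1
    have h2 : (T.filter (fun x => f x w = 0 ∧ x + w ∈ T)).card = 0 := by exact_mod_cast h1
    rw [Finset.card_eq_zero] at h2
    have h3 : x ∈ T.filter (fun x => f x w = 0 ∧ x + w ∈ T) := mem_filter.2 ⟨hx, hxw, hcon⟩
    rw [h2] at h3
    simp at h3
  · have h1 := alg_params2 hXpos htpos (by rw [hl0]; rfl) (par w₀ hw₀)
    rw [← hq, ← hp]
    exact h1

end Pool.Agent.H66.SIT
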