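import Pool.Agent.H66.SIT.CaseC

/-!
# The connected case: orthogonal type is impossible, and the exceptional example
-/

open Finset

namespace Pool.Agent.H66.SIT

variable {W : Type*} [AddCommGroup W] [Module (ZMod 2) W]
variable {f : LinearMap.BilinForm (ZMod 2) W}

/-- a quadratic form from a function satisfying the polarisation identity -/
def mkForm (f : LinearMap.BilinForm (ZMod 2) W) (q : W → ZMod 2)
    (h : ∀ x y, q (x + y) = q x + q y + f x y) : QuadraticForm (ZMod 2) W where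
  toFun := q
  toFun_smul := by
    intro a x
    have h0 : q 0 = 0 := by
      have := h 0 0
      simp only [add_zero, map_zero, LinearMap.zero_apply] at this
      have h2 := add_self_zmod (q 0)
      rw [h2] at this
      exact this
    rcases zmod2_cases a with rfl | rfl
    · rw [zero_smul, zero_mul, zero_smul, h0]
    · rw [one_smul, one_mul, one_smul]
  exists_companion' := ⟨f, fun x y => h x y⟩

@[simp] theorem mkForm_apply (q : W → ZMod 2)
    (h : ∀ x y, q (x + y) = q x + q y + f x y) (x : W) : mkForm f q h x = q x := rfl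

variable [Fintype W] {n : ℕ} {ε s : ℤ} {A : Finset (QuadraticForm (ZMod 2) W)}

theorem Ctx.not_orth_type (hf : f.IsAlt) (hnd : f.Nondegenerate) (hnum : Num W n ε s)
    (c : Ctx f s A) (hspan : Submodule.span (ZMod 2) (TT f A : Set W) = ⊤)
    (hconn : Conn f (TT f A))
    (hnl : ∀ w ∈ TT f A, ∀ x ∈ TT f A, f x w = 0 → x + w ∉ TT f A)
    (hp : ∀ w ∈ TT f A, 2 * ((TT f A).card + hT f (TT f A) w) = Fintype.card W)
    (hA2 : 2 ≤ A.card) (hB2 : 2 ≤ (Om f s).card - A.card) : False := by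
  classical
  set T := TT f A with hTdef
  have h0T : (0 : W) ∉ T := zero_not_mem_TT
  have hcl : ∀ x ∈ T, ∀ y ∈ T, f x y = 1 → x + y ∈ T := fun x hx y hy h => c.closed hf hx hy h
  have hne : ∀ w ∈ T, w ≠ 0 := fun w hw h => h0T (h ▸ hw)
  have hsp := orth_of_span_top hf hnd hspan
  -- completion of orthogonal pairs
  have hcomp : ∀ w ∈ T, ∀ y, f w y = 0 → y ≠ 0 → y ∉ T → w + y ∈ T := by
    intro w hw y hwy hy0 hyT
    let P1 := (T.filter (fun x => f x w = 0)).erase w
    let P2 := ((univ.filter (fun y => f w y = 0)) \ (T.filter (fun x => f x w = 0))).erase 0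
    have hsub : T.filter (fun x => f x w = 0) ⊆ univ.filter (fun y => f w y = 0) := by
      intro x hx
      rw [mem_filter] at hx ⊢
      refine ⟨mem_univ _, ?_⟩
      rw [f_symm hf]; exact hx.2
    have hwmem : w ∈ T.filter (fun x => f x w = 0) := mem_filter.2 ⟨hw, f_self hf w⟩
    have h0mem : (0 : W) ∈ (univ.filter (fun y => f w y = 0)) \ (T.filter (fun x => f x w = 0)) := by
      rw [mem_sdiff, mem_filter, mem_filter]
      exact ⟨⟨mem_univ _, by simp⟩, fun h => h0T h.1⟩
    have hc1 : 2 * ((T.filter (fun x => f x w = 0)).card : ℤ) = T.card + hT f T w :=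
      two_mul_orth T w
    have hc2 := card_perp hnd w (hne w hw)
    have hc3 := hp w hw
    have hcard : P2.card ≤ P1.card := by
      rw [Finset.card_erase_of_mem hwmem, Finset.card_erase_of_mem h0mem,
        Finset.card_sdiff_of_subset hsub]
      have h4 : (univ.filter (fun y => f w y = 0)).card = 2 * (T.filter (fun x => f x w = 0)).card := by
        have : ((univ.filter (fun y => f w y = 0)).card : ℤ)
          = 2 * (T.filter (fun x => f x w = 0)).card := by linarith
        exact_mod_cast this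
      omega
    have himg : P1.image (fun x => x + w) ⊆ P2 := by
      intro z hz
      rw [mem_image] at hz
      obtain ⟨x, hx, rfl⟩ := hz
      rw [mem_erase, mem_filter] at hx
      rw [mem_erase, mem_sdiff, mem_filter, mem_filter]
      refine ⟨?_, ⟨mem_univ _, ?_⟩, ?_⟩
      · intro h; exact hx.1 (add_eq_zero_W.1 h)
      · rw [map_add, f_self hf, f_symm hf, hx.2.2]; rfl
      · intro h; exact hnl w hw x hx.2.1 hx.2.2 h.1
    have hinj : (P1.image (fun x => x + w)).card = P1.card :=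
      Finset.card_image_of_injective _ (add_left_injective w)
    have heq : P1.image (fun x => x + w) = P2 :=
      Finset.eq_of_subset_of_card_le himg (by rw [hinj]; exact hcard)
    have hy : y ∈ P2 := by
      rw [mem_erase, mem_sdiff, mem_filter, mem_filter]
      exact ⟨hy0, ⟨mem_univ _, hwy⟩, fun h => hyT h.1⟩
    rw [← heq, mem_image] at hy
    obtain ⟨x, hx, rfl⟩ := hy
    rw [mem_erase, mem_filter] at hx
    have : w + (x + w) = x + (w + w) := by abel
    rw [this, add_self_W, add_zero]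
    exact hx.2.1
  -- the quadratic form
  let q : W → ZMod 2 := fun x => if x ∈ T then 1 else 0
  have hq1 : ∀ x, x ∈ T → q x = 1 := fun x hx => if_pos hx
  have hq0 : ∀ x, x ∉ T → q x = 0 := fun x hx => if_neg hx
  have hstep : ∀ w ∈ T, ∀ y, q (w + y) = q w + q y + f w y := by
    intro w hw y
    by_cases hy : y ∈ T
    · rcases zmod2_cases (f w y) with h | h
      · rw [hq1 w hw, hq1 y hy, h, hq0]
        · rfl
        · exact hnl y hy w hw h
      · rw [hq1 w hw, hq1 y hy, h, hq1 _ (hcl w hw y hy h)]; rfl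
    · by_cases hy0 : y = 0
      · subst hy0
        rw [add_zero, hq0 0 h0T, map_zero, add_zero, add_zero]
      · rcases zmod2_cases (f w y) with h | h
        · rw [hq1 w hw, hq0 y hy, h, hq1 _ (hcomp w hw y h hy0 hy)]; rfl
        · rw [hq1 w hw, hq0 y hy, h, hq0]
          · rfl
          · intro hwy
            apply hy
            have h1 : f w (w + y) = 1 := by rw [map_add, f_self hf, h]; rfl
            have h2 := hcl w hw _ hwy h1
            have : w + (w + y) = y := by rw [← add_assoc, add_self_W, zero_add]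
            rwa [this] at h2
  let G : Submodule (ZMod 2) W :=
    { carrier := {x | ∀ y, q (x + y) = q x + q y + f x y}
      zero_mem' := by
        intro y
        rw [zero_add, hq0 0 h0T, map_zero, LinearMap.zero_apply]; ring
      add_mem' := by
        intro x x' hx hx' y
        rw [add_assoc, hx, hx', hx, map_add, map_add, LinearMap.add_apply]
        ring
      smul_mem' := by
        intro a x hx
        rcases zmod2_cases a with rfl | rfl
        · intro y
          rw [zero_smul, zero_add, hq0 0 h0T, map_zero, LinearMap.zero_apply]; ring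
        · rw [one_smul]; exact hx }
  have hG : G = ⊤ := by
    rw [eq_top_iff, ← hspan]
    exact Submodule.span_le.2 fun w hw => hstep w hw
  have hpol : ∀ x y, q (x + y) = q x + q y + f x y := by
    intro x
    have : x ∈ G := by rw [hG]; trivial
    exact this
  obtain ⟨Q0, hQ0⟩ : ∃ Q0 : QuadraticForm (ZMod 2) W, ∀ x, Q0 x = q x := ⟨mkForm f q hpol, fun _ => rfl⟩
  have hQ0f : IsForm f Q0 := by
    intro x y
    rw [hQ0, hQ0, hQ0, hpol]
  have hS : S Q0 * S Q0 = s * s := by rw [S_sq hf hnd hQ0f, hnum.hW]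
  have hfix : ∀ g, Stab f A g → act g Q0 = Q0 := by
    intro g hg
    ext x
    rw [act_apply, hQ0, hQ0]
    have h1 := hg.symm.mem_TT_iff x
    by_cases hx : x ∈ T
    · rw [hq1 x hx, hq1 _ (h1.2 hx)]
    · rw [hq0 x hx, hq0 _ (fun h => hx (h1.1 h))]
  have hBne : ∃ R ∈ Om f s, R ∉ A := c.ne'
  rcases mul_self_eq_mul_self_iff.1 hS with h | h
  · have hmem : Q0 ∈ Om f s := mem_Om.2 ⟨hQ0f, h⟩
    by_cases hQA : Q0 ∈ A
    · have : A ⊆ {Q0} := by
        intro P hP
        obtain ⟨R, hR, hRA⟩ := c.ne'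
        obtain ⟨g, hg, h1, _⟩ := c.trans Q0 hQA R hR hRA P hP R hR hRA
        rw [hfix g hg] at h1
        rw [mem_singleton]; exact h1.symm
      have := Finset.card_le_card this
      rw [card_singleton] at this
      omega
    · have : Om f s \ A ⊆ {Q0} := by
        intro R hR
        rw [mem_sdiff] at hR
        obtain ⟨P, hP⟩ := c.ne
        obtain ⟨g, hg, _, h1⟩ := c.trans P hP Q0 hmem hQA P hP R hR.1 hR.2
        rw [hfix g hg] at h1
        rw [mem_singleton]; exact h1.symm
      have := Finset.card_le_card this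
      rw [card_singleton, Finset.card_sdiff_of_subset c.sub] at this
      omega
  · -- `Q0` has the other type
    have hval : ∀ P ∈ Om f s, ∃ a ∈ T, P = shift f Q0 a := by
      intro P hP
      have hfd : FiniteDimensional (ZMod 2) W := Module.Finite.of_finite
      obtain ⟨a, rfl⟩ := exists_shift hnd hQ0f (mem_Om.1 hP).1
      refine ⟨a, ?_, rfl⟩
      by_contra haT
      have h1 := (mem_Om.1 hP).2
      rw [S_shift hf hQ0f, hQ0, hq0 a haT, h, chi_zero, one_mul] at h1
      have := hnum.s_ne_zero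
      omega
    have hval' : ∀ a ∈ T, shift f Q0 a ∈ Om f s := by
      intro a ha
      rw [mem_Om]
      refine ⟨hQ0f.shift a, ?_⟩
      rw [S_shift hf hQ0f, hQ0, hq1 a ha, h, chi_one]; ring
    rcases hconn (fun a => shift f Q0 a ∈ A) (by
      intro a ha b hb haA hbA
      rw [← ne_one_iff]
      intro hab
      have h1 := hcl a ha b hb hab
      have h2 : shift f Q0 a (a + b) = 0 := by
        rw [shift_apply, hQ0, hq1 _ h1, map_add, f_self hf, hab]; rfl
      have h3 := (mem_TT.1 h1).2 _ haA h2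
      rw [shift_shift] at h3
      have : a + (a + b) = b := by rw [← add_assoc, add_self_W, zero_add]
      rw [this] at h3
      exact hbA h3) with h1 | h1
    · obtain ⟨R, hR, hRA⟩ := c.ne'
      obtain ⟨a, ha, rfl⟩ := hval R hR
      exact hRA (h1 a ha)
    · obtain ⟨P, hP⟩ := c.ne
      obtain ⟨a, ha, rfl⟩ := hval P (c.sub hP)
      exact h1 a ha hP

theorem E4_lemma (hf : f.IsAlt) (hnd : f.Nondegenerate) (hs : s ≠ 0) (hA : A ⊆ Om f s)
    {x y : ℤ} (hx : ∀ w ∈ TT f A, FF A w = x)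
    (hy : ∀ w, w ∉ TT f A → w ≠ 0 → FF A w = y) {w₀ : W} (hw₀ : w₀ ∈ TT f A) :
    2 * ((A.card * A.card - y * y) + (x * x - y * y) * hT f (TT f A) w₀)
      = (Fintype.card W : ℤ) * (A.card + x) := by
  classical
  have hne : w₀ ≠ 0 := (mem_TT.1 hw₀).1
  have h1 := sum_FF_sq hnd hA w₀ hf
  rw [sum_split (TT f A) zero_not_mem_TT (fun w => FF A w * FF A w) (fun w => chi (f w w₀))
    (x * x) (y * y)
      (fun w hw => by rw [hx w hw]) (fun w hw hw0 => by rw [hy w hw hw0]), FF_zero] at h1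
  have h2 : ∑ w, chi (f w w₀) = 0 := by
    have h3 : ∀ w, chi (f w w₀) = chi (f w₀ w) := fun w => by rw [f_symm hf]
    simp_rw [h3]
    rw [sum_chi_f hnd, if_neg hne]
  rw [h2] at h1
  simp only [map_zero, LinearMap.zero_apply, chi_zero, mul_one, mul_zero, add_zero] at h1
  have h3 : ∑ x ∈ TT f A, chi (f x w₀) = hT f (TT f A) w₀ := rfl
  rw [h3] at h1
  have h4 := two_mul_pairs hf hs hA hw₀
  rw [hx w₀ hw₀] at h4
  rw [h1, ← h4]
  ring

/-- The exceptional case. -/
theorem Ctx.exceptional (hf : f.IsAlt) (hnd : f.Nondegenerate) (hnum : Num W n ε s)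
    (c : Ctx f s A) (hconn : Conn f (TT f A)) {w₀ v₀ : W} (hw₀ : w₀ ∈ TT f A) (hv₀ : v₀ ≠ 0)
    (hv₀' : v₀ ∉ TT f A)
    (hnl : ∀ w ∈ TT f A, ∀ x ∈ TT f A, f x w = 0 → x + w ∉ TT f A)
    (hw : hT f (TT f A) w₀ = 2 ^ n - 3) (ht : ((TT f A).card : ℤ) = 3 * (2 ^ n - 1))
    (hk : 2 * A.card ≤ (Om f s).card) :
    n = 4 ∧ ε = 1 ∧ A.card = 10 ∧
    ∀ Q₁ ∈ A, ∀ Q₂ ∈ A, ∀ Q₃ ∈ A, Q₁ ≠ Q₂ → Q₁ ≠ Q₃ → Q₂ ≠ Q₃ → Q₁ + Q₂ + Q₃ ∉ Om f s := by
  classical
  have hne : ∀ w ∈ TT f A, w ≠ 0 := fun w hw => (mem_TT.1 hw).1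
  obtain ⟨x, hxdef⟩ : ∃ x, x = FF A w₀ := ⟨_, rfl⟩
  obtain ⟨y, hydef⟩ : ∃ y, y = FF A v₀ := ⟨_, rfl⟩
  have hx : ∀ w ∈ TT f A, FF A w = x := fun w hw => by
    rw [hxdef]; exact (c.const_T hf hconn hw hw₀).1
  have hy : ∀ w, w ∉ TT f A → w ≠ 0 → FF A w = y := fun w hw hw0 => by
    rw [hydef]; exact c.FF_const hf hnd hw0 hw hv₀ hv₀'
  have hs0 := hnum.s_ne_zero
  obtain ⟨P, hP⟩ := c.ne
  have hPO := c.sub hP
  obtain ⟨X, hX⟩ : ∃ X : ℤ, X = 2 ^ n := ⟨_, rfl⟩
  have hsX : s = ε * X := by rw [hX]; exact hnum.hs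
  have hW : (Fintype.card W : ℤ) = X * X := by
    rw [hnum.hW, hsX]
    rcases hnum.hε with h | h <;> rw [h] <;> ring
  rw [← hX] at hw ht
  -- `x ≠ y`
  have hxy : x ≠ y := by
    intro h
    apply c.not_const hf hnd hnum (y := y)
    intro w hw0
    by_cases hwT : w ∈ TT f A
    · rw [hx w hwT, h]
    · exact hy w hwT hw0
  have hk0 : (0 : ℤ) < A.card := by exact_mod_cast c.card_pos
  have hcardOm := card_Om hf hnd hs0 hPO
  -- `X > 2`
  have hX3 : 3 < X + 1 := by
    have h1 : (TT f A).card < Fintype.card W - 1 := by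
      have h2 : insert 0 (TT f A) ⊂ univ := by
        refine ⟨subset_univ _, fun h => ?_⟩
        have := h (mem_univ v₀)
        rw [mem_insert] at this
        rcases this with h | h
        · exact hv₀ h
        · exact hv₀' h
      have h3 := Finset.card_lt_card h2
      rw [Finset.card_insert_of_notMem zero_not_mem_TT, card_univ] at h3
      omega
    have h4 : ((TT f A).card : ℤ) < X * X - 1 := by
      have : 0 < Fintype.card W := Fintype.card_pos
      omega
    rw [ht] at h4
    have hX1 : 1 < X := by rw [hX]; have := two_le_pow hnum.hn; linarith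
    nlinarith
  obtain ⟨F1, F2⟩ := FF_eqs hf hnd c.sub zero_not_mem_TT hx hy
  rw [ht, hW] at F1 F2
  have E4 := E4_lemma hf hnd hs0 c.sub hx hy hw₀
  rw [hw, hW] at E4
  -- the complement
  have cB := c.compl hf
  have hTB : TT f (Om f s \ A) = TT f A := TT_compl hf hs0 c.sub
  have hFFB : ∀ w, w ≠ 0 → 2 * (FF A w + FF (Om f s \ A) w) = s := by
    intro w hw0
    have h1 := sum_Om_chi hf hnd hs0 hPO w hw0
    have h2 : FF (Om f s \ A) w + FF A w = ∑ Q ∈ Om f s, chi (Q w) :=
      Finset.sum_sdiff c.sub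
    rw [← h2] at h1
    linarith
  obtain ⟨x', hx'def⟩ : ∃ x', x' = FF (Om f s \ A) w₀ := ⟨_, rfl⟩
  obtain ⟨y', hy'def⟩ : ∃ y', y' = FF (Om f s \ A) v₀ := ⟨_, rfl⟩
  have hx' : ∀ w ∈ TT f (Om f s \ A), FF (Om f s \ A) w = x' := fun w hw => by
    rw [hTB] at hw
    have h1 := hFFB w (hne w hw)
    have h2 := hFFB w₀ (hne w₀ hw₀)
    rw [hx w hw] at h1
    rw [hx w₀ hw₀] at h2
    rw [hx'def]; linarith
  have hy' : ∀ w, w ∉ TT f (Om f s \ A) → w ≠ 0 → FF (Om f s \ A) w = y' := fun w hw hw0 => by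
    rw [hTB] at hw
    have h1 := hFFB w hw0
    have h2 := hFFB v₀ hv₀
    rw [hy w hw hw0] at h1
    rw [hy v₀ hv₀' hv₀] at h2
    rw [hy'def]; linarith
  have E4' := E4_lemma hf hnd hs0 (sdiff_subset) hx' hy' (by rw [hTB]; exact hw₀)
  rw [hTB, hw, hW] at E4'
  have hcB : ((Om f s \ A).card : ℤ) = (Om f s).card - A.card := by
    rw [Finset.card_sdiff_of_subset c.sub, Nat.cast_sub (Finset.card_le_card c.sub)]
  rw [hcB] at E4'
  have h2x : 2 * (x + x') = ε * X := by
    rw [← hsX, ← hFFB w₀ (hne w₀ hw₀), hx w₀ hw₀, hx'def]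
  have h2y : 2 * (y + y') = ε * X := by
    rw [← hsX, ← hFFB v₀ hv₀, hy v₀ hv₀' hv₀, hy'def]
  have hfin := alg_final hnum.hn hX hnum.hε hxy hk0
    (v := (Om f s).card) (by exact_mod_cast hk) hX3
    (by rw [hcardOm, hW, hsX]) (by rw [F1, hsX]) F2 E4 h2x h2y E4'
  obtain ⟨hn4, hε1, hk10, hx6, hy2⟩ := hfin
  have hk10' : A.card = 10 := by exact_mod_cast hk10
  refine ⟨hn4, hε1, hk10', ?_⟩
  have hX16 : X = 16 := by rw [hX, hn4]; norm_num
  have hs16 : s = 16 := by rw [hsX, hε1, hX16]; norm_num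
  -- any two different elements of `A` differ by an element of `T`
  have hdiff : ∀ Q ∈ A, ∀ Q' ∈ A, Q' ≠ Q → ∃ w ∈ TT f A, Q w = 0 ∧ Q' = shift f Q w := by
    intro Q hQ Q' hQ' hne'
    have h1 := sum_FF_chi hnd c.sub (mem_Om.1 (c.sub hQ)).1
    rw [if_pos hQ, sum_split (TT f A) zero_not_mem_TT (FF A) (fun w => chi (Q w)) x y hx hy,
      FF_zero, hk10, hx6, hy2, hW, hX16] at h1
    have h2 : ∑ w, chi (Q w) = 16 := by
      have := (mem_Om.1 (c.sub hQ)).2
      rw [hs16] at this
      exact this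
    rw [h2, IsForm.zero] at h1
    have h3 : ∑ w ∈ TT f A, chi (Q w) = -27 := by
      simp only [chi_zero] at h1
      linarith
    have h4 : 2 * (((TT f A).filter (fun w => Q w = 0)).card : ℤ) = (TT f A).card
        + ∑ w ∈ TT f A, chi (Q w) := by
      have h0 : (((TT f A).filter (fun w => Q w = 0)).card : ℤ)
        = ∑ u ∈ (TT f A).filter (fun w => Q w = 0), 1 := by simp
      rw [h0, Finset.sum_filter, Finset.mul_sum]
      have h2 : ∀ w : W,
          2 * (if Q w = 0 then (1 : ℤ) else 0) = 1 + chi (Q w) := by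
        intro u
        rcases zmod2_cases (Q u) with h | h
        · rw [if_pos h, h]; simp
        · have : ¬ (Q u = 0) := by rw [h]; decide
          rw [if_neg this, h]; simp
      rw [Finset.sum_congr rfl (fun u _ => h2 u), Finset.sum_add_distrib]
      simp
    rw [h3, ht, hX16] at h4
    have h5 : ((TT f A).filter (fun w => Q w = 0)).card = 9 := by omega
    have h6 : ((TT f A).filter (fun w => Q w = 0)).image (shift f Q) ⊆ A.erase Q := by
      intro R hR
      rw [mem_image] at hR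
      obtain ⟨w, hw', rfl⟩ := hR
      rw [mem_filter] at hw'
      rw [mem_erase]
      refine ⟨?_, (mem_TT.1 hw'.1).2 Q hQ hw'.2⟩
      intro h
      apply hne w hw'.1
      apply shift_inj hnd (Q := Q)
      rw [h, shift_zero]
    have h7 : (((TT f A).filter (fun w => Q w = 0)).image (shift f Q)).card = 9 := by
      rw [Finset.card_image_of_injective _ (fun a b h => shift_inj hnd h), h5]
    have h8 : ((TT f A).filter (fun w => Q w = 0)).image (shift f Q) = A.erase Q := by
      apply Finset.eq_of_subset_of_card_le h6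
      rw [h7, Finset.card_erase_of_mem hQ, hk10']
    have h9 : Q' ∈ A.erase Q := mem_erase.2 ⟨hne', hQ'⟩
    rw [← h8, mem_image] at h9
    obtain ⟨w, hw', rfl⟩ := h9
    rw [mem_filter] at hw'
    exact ⟨w, hw'.1, hw'.2, rfl⟩
  intro Q₁ h₁ Q₂ h₂ Q₃ h₃ h12 h13 h23 hcon
  obtain ⟨w, hw', hQw, rfl⟩ := hdiff Q₁ h₁ Q₂ h₂ (Ne.symm h12)
  obtain ⟨w', hw'', hQw', rfl⟩ := hdiff Q₁ h₁ Q₃ h₃ (Ne.symm h13)
  obtain ⟨u, hu, hQu, hu2⟩ := hdiff _ h₂ _ h₃ (Ne.symm h23)
  rw [shift_shift] at hu2
  have hw1 : w' = w + u := shift_inj hnd hu2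
  have hww : w + w' = u := by rw [hw1, ← add_assoc, add_self_W, zero_add]
  have hf1 : f w w' = 1 := by
    rw [← ne_zero_iff]
    intro h0
    exact hnl w' hw'' w hw' h0 (by rw [hww]; exact hu)
  have hsum : Q₁ + shift f Q₁ w + shift f Q₁ w' = shift f Q₁ (w + w') := by
    ext z
    rw [QuadraticMap.add_apply, QuadraticMap.add_apply, shift_apply, shift_apply, shift_apply,
      map_add, LinearMap.add_apply]
    have := add_self_zmod (Q₁ z)
    linear_combination this
  rw [hsum] at hcon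
  have h5 := eq_zero_of_shift_mem hf hs0 (c.sub h₁) hcon
  rw [(mem_Om.1 (c.sub h₁)).1, hQw, hQw', hf1] at h5
  exact absurd h5 (by decide)

end Pool.Agent.H66.SIT
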