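import Pool.Agent.H66.SIT.Count

/-!
# The classification, in terms of finite sets of forms
-/

open Finset

namespace Pool.Agent.H66.SIT

variable {W : Type*} [AddCommGroup W] [Module (ZMod 2) W]
variable {f : LinearMap.BilinForm (ZMod 2) W}
variable [Fintype W] {n : ℕ} {ε s : ℤ} {A : Finset (QuadraticForm (ZMod 2) W)}

theorem Ctx.classify (hf : f.IsAlt) (hnd : f.Nondegenerate) (hnum : Num W n ε s)
    (c : Ctx f s A) (hk3 : 3 ≤ A.card) (hk : 2 * A.card ≤ (Om f s).card) :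
    (∃ (r : ℕ) (Y : Submodule (ZMod 2) W),
      ((ε = 1 ∧ 2 ≤ r ∧ r ≤ n) ∨ (ε = -1 ∧ 1 ≤ r ∧ r + 1 ≤ n)) ∧
      (∀ x ∈ Y, ∀ y ∈ Y, f x y = 0) ∧
      Module.finrank (ZMod 2) Y = r ∧ ∀ Q ∈ Om f s, (Q ∈ A ↔ ∀ y ∈ Y, Q y = 0)) ∨
    (ε = 1 ∧ ∃ Y : Submodule (ZMod 2) W, (∀ x ∈ Y, ∀ y ∈ Y, f x y = 0) ∧
      Module.finrank (ZMod 2) Y = 1 ∧ ∀ Q ∈ Om f s, (Q ∉ A ↔ ∀ y ∈ Y, Q y = 0)) ∨
    (∃ (a : ℕ) (U : Submodule (ZMod 2) W), 1 ≤ a ∧ 2 * a ≤ n ∧ (f.restrict U).Nondegenerate ∧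
      Module.finrank (ZMod 2) U = 2 * a ∧
      ∀ Q ∈ Om f s, (Q ∈ A ↔ SS Q U = - 2 ^ a)) ∨
    (n = 4 ∧ ε = 1 ∧ A.card = 10 ∧
      ∀ Q₁ ∈ A, ∀ Q₂ ∈ A, ∀ Q₃ ∈ A, Q₁ ≠ Q₂ → Q₁ ≠ Q₃ → Q₂ ≠ Q₃ → Q₁ + Q₂ + Q₃ ∉ Om f s) := by
  classical
  by_cases hspan : Submodule.span (ZMod 2) (TT f A : Set W) = ⊤
  swap
  · obtain ⟨Y, hY0, hY, h⟩ := c.caseA hf hnd hnum hspan
    rcases c.caseA_concl hf hnd hnum hk hY0 hY h with ⟨r, h1, h2, h3⟩ | ⟨h1, h2, h3⟩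
    · left; exact ⟨r, Y, h1, hY, h2, h3⟩
    · right; left; exact ⟨h1, Y, hY, h2, h3⟩
  by_cases hconn : Conn f (TT f A)
  swap
  · obtain ⟨U₁, U₂, h1, h2, h3, h4, h5, h6⟩ := c.caseB hf hnd hnum hspan hconn
    right; right; left
    exact c.caseB_concl hf hnd hnum hk h1 h2 h3 h4 h5 h6
  obtain ⟨P, hP⟩ := c.ne
  obtain ⟨R, hR, hRA⟩ := c.ne'
  obtain ⟨w₀, hw₀⟩ := c.TT_nonempty hf hnd hnum
  obtain ⟨v₀, rfl⟩ := exists_shift_Om hnd (c.sub hP) hR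
  have hv₀ : v₀ ≠ 0 := by
    intro h
    rw [h, shift_zero] at hRA
    exact hRA hP
  have hv₀' : v₀ ∉ TT f A := by
    intro h
    exact hRA ((mem_TT.1 h).2 P hP (eq_zero_of_shift_mem hf hnum.s_ne_zero (c.sub hP) hR))
  obtain ⟨hnl, hpar⟩ := c.params hf hnd hnum hspan hconn hw₀ hv₀ hv₀'
  rcases hpar with hpar | ⟨_, hpar2, hpar3⟩
  · exfalso
    apply c.not_orth_type hf hnd hnum hspan hconn hnl
    · intro w hw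
      rw [(c.const_T hf hconn hw hw₀).2, hpar, hnum.hW2]
    · omega
    · omega
  · right; right; right
    exact c.exceptional hf hnd hnum hconn hw₀ hv₀ hv₀' hnl hpar2 hpar3 hk

end Pool.Agent.H66.SIT
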