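import Pool.Agent.H66.SIT.Sub
import Pool.Agent.H66.SIT.CaseAB

/-!
# Sizes of the codewords, and the conclusion in the reducible cases
-/

open Finset

namespace Pool.Agent.H66.SIT

variable {W : Type*} [AddCommGroup W] [Module (ZMod 2) W]
variable {f : LinearMap.BilinForm (ZMod 2) W}
variable [Fintype W] {n : ℕ} {ε s : ℤ} {A : Finset (QuadraticForm (ZMod 2) W)}

theorem Num.hW2 (hnum : Num W n ε s) : (Fintype.card W : ℤ) = 2 ^ n * 2 ^ n := by
  rw [hnum.hW, hnum.hs]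
  rcases hnum.hε with h | h <;> rw [h] <;> ring

theorem Num.finrank (hnum : Num W n ε s) : Module.finrank (ZMod 2) W = 2 * n := by
  have h1 := hnum.hW2
  rw [card_W, ← pow_add] at h1
  have h2 : (2 : ℕ) ^ Module.finrank (ZMod 2) W = 2 ^ (n + n) := by exact_mod_cast h1
  have h3 := Nat.pow_right_injective le_rfl h2
  omega

/-- size of the members of the second family -/
theorem card_nd (hf : f.IsAlt) (hnd : f.Nondegenerate) (hnum : Num W n ε s)
    (hA : A ⊆ Om f s) (hne : (Om f s).Nonempty) {U : Submodule (ZMod 2) W}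
    (hU : (f.restrict U).Nondegenerate) {a b : ℕ}
    (ha : Module.finrank (ZMod 2) U = 2 * a) (hab : a + b = n) {δ : ℤ} (hδ : δ = 1 ∨ δ = -1)
    (hAU : ∀ Q ∈ Om f s, (Q ∈ A ↔ SS Q U = δ * 2 ^ a)) :
    4 * (A.card : ℤ) = 2 ^ n * ((2 ^ a + δ) * (2 ^ b + ε * δ)) := by
  classical
  obtain ⟨P, hP⟩ := hne
  have hs0 := hnum.s_ne_zero
  have h1 := sum_Om_SS hf hnd hs0 hP U
  have h2 := card_Om hf hnd hs0 hP
  have hapos : (0 : ℤ) < 2 ^ a := by positivity
  have h3 : ∑ Q ∈ Om f s, (2 ^ a + δ * SS Q U) = 2 * 2 ^ a * A.card := by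
    have h4 : ∀ Q ∈ Om f s, 2 ^ a + δ * SS Q U = if Q ∈ A then 2 * 2 ^ a else 0 := by
      intro Q hQ
      rcases SS_pm hf hU (mem_Om.1 hQ).1 ha with h5 | h5
      · rcases hδ with rfl | rfl
        · rw [if_pos ((hAU Q hQ).2 (by rw [h5]; ring)), h5]; ring
        · rw [if_neg, h5]
          · ring
          · rw [hAU Q hQ, h5]; intro h6; linarith
      · rcases hδ with rfl | rfl
        · rw [if_neg, h5]
          · ring
          · rw [hAU Q hQ, h5]; intro h6; linarith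
        · rw [if_pos ((hAU Q hQ).2 (by rw [h5]; ring)), h5]; ring
    rw [Finset.sum_congr rfl h4, ← Finset.sum_filter, Finset.filter_mem_eq_inter,
      Finset.inter_eq_right.2 hA, Finset.sum_const, nsmul_eq_mul]
    ring
  rw [Finset.sum_add_distrib, ← Finset.mul_sum, Finset.sum_const, nsmul_eq_mul] at h3
  have h5 : (2 : ℤ) ^ Module.finrank (ZMod 2) U = 2 ^ a * 2 ^ a := by
    rw [ha, ← pow_add]; congr 1; omega
  have h6 : (2 : ℤ) ^ n = 2 ^ a * 2 ^ b := by rw [← pow_add, hab]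
  obtain ⟨M, hM⟩ : ∃ M : ℤ, M = (Om f s).card := ⟨_, rfl⟩
  obtain ⟨N, hN⟩ : ∃ N : ℤ, N = ∑ Q ∈ Om f s, SS Q U := ⟨_, rfl⟩
  rw [← hM, ← hN] at h3
  rw [h5, hnum.hW2, ← hN, hnum.hs, h6] at h1
  rw [hnum.hW2, ← hM, hnum.hs, h6] at h2
  apply mul_left_cancel₀ hapos.ne'
  rw [h6]
  have hδ2 : δ * δ = 1 := by rcases hδ with rfl | rfl <;> norm_num
  linear_combination (-2) * h3 + (2 ^ a) * h2 + δ * h1
    - (2 ^ a * 2 ^ a * 2 ^ b * ε) * hδ2

/-- size of the members of the first family -/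
theorem card_iso (hf : f.IsAlt) (hnd : f.Nondegenerate) (hnum : Num W n ε s)
    (hA : A ⊆ Om f s) (hne : (Om f s).Nonempty) {Y : Submodule (ZMod 2) W}
    (hY : ∀ x ∈ Y, ∀ y ∈ Y, f x y = 0) {r : ℕ} (hr : Module.finrank (ZMod 2) Y = r)
    (hAY : ∀ Q ∈ Om f s, (Q ∈ A ↔ ∀ y ∈ Y, Q y = 0)) :
    2 * 2 ^ r * (A.card : ℤ) = 2 ^ n * 2 ^ n + s * 2 ^ r := by
  classical
  obtain ⟨P, hP⟩ := hne
  have h1 := sum_Om_SS hf hnd hnum.s_ne_zero hP Y
  have h3 : ∑ Q ∈ Om f s, SS Q Y = 2 ^ r * A.card := by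
    have h4 : ∀ Q ∈ Om f s, SS Q Y = if Q ∈ A then 2 ^ r else 0 := by
      intro Q hQ
      have hQf := (mem_Om.1 hQ).1
      by_cases hQA : Q ∈ A
      · rw [if_pos hQA, SS_eq, Finset.sum_congr rfl (g := fun _ => (1 : ℤ))]
        · rw [Finset.sum_const, card_univ, card_sub, hr, nsmul_eq_mul, mul_one]
          norm_cast
        · intro u _
          rw [(hAY Q hQ).1 hQA u u.2]; rfl
      · rw [if_neg hQA, SS_eq]
        rw [hAY Q hQ] at hQA
        push Not at hQA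
        obtain ⟨y, hy, hyQ⟩ := hQA
        have hyQ1 : Q y = 1 := (ne_zero_iff _).1 hyQ
        have h5 : ∑ u : Y, chi (Q u) = ∑ u : Y, chi (Q ((u + ⟨y, hy⟩ : Y) : W)) :=
          (Equiv.sum_comp (Equiv.addRight (⟨y, hy⟩ : Y)) (fun u : Y => chi (Q u))).symm
        have h6 : ∑ u : Y, chi (Q ((u + ⟨y, hy⟩ : Y) : W)) = - ∑ u : Y, chi (Q u) := by
          rw [← Finset.sum_neg_distrib]
          refine Finset.sum_congr rfl fun u _ => ?_
          rw [Submodule.coe_add, hQf, hY u u.2 y hy, hyQ1, add_zero, chi_add]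
          simp
        omega
    rw [Finset.sum_congr rfl h4, ← Finset.sum_filter, Finset.filter_mem_eq_inter,
      Finset.inter_eq_right.2 hA, Finset.sum_const, nsmul_eq_mul]
    ring
  rw [h3, hr, hnum.hW2] at h1
  linarith

/-- a totally isotropic subspace has dimension at most `n` -/
theorem finrank_ti_le (hf : f.IsAlt) (hnd : f.Nondegenerate) (hnum : Num W n ε s)
    {Y : Submodule (ZMod 2) W} (hY : ∀ x ∈ Y, ∀ y ∈ Y, f x y = 0) :
    Module.finrank (ZMod 2) Y ≤ n := by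
  have hfd : FiniteDimensional (ZMod 2) W := Module.Finite.of_finite
  have h1 : Y ≤ f.orthogonal Y := fun x hx => (mem_orth hf).2 fun u hu => hY x hx u hu
  have h2 := Submodule.finrank_mono h1
  have h3 := finrank_orth hnd Y
  have h4 := hnum.finrank
  omega

/-- conclusion of case A -/
theorem Ctx.caseA_concl (hf : f.IsAlt) (hnd : f.Nondegenerate) (hnum : Num W n ε s)
    (c : Ctx f s A) (hk : 2 * A.card ≤ (Om f s).card)
    {Y : Submodule (ZMod 2) W} (hY0 : Y ≠ ⊥) (hY : ∀ x ∈ Y, ∀ y ∈ Y, f x y = 0)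
    (h : (∀ Q ∈ Om f s, (Q ∈ A ↔ ∀ y ∈ Y, Q y = 0)) ∨
       (∀ Q ∈ Om f s, (Q ∉ A ↔ ∀ y ∈ Y, Q y = 0))) :
    (∃ r, ((ε = 1 ∧ 2 ≤ r ∧ r ≤ n) ∨ (ε = -1 ∧ 1 ≤ r ∧ r + 1 ≤ n)) ∧
      Module.finrank (ZMod 2) Y = r ∧ ∀ Q ∈ Om f s, (Q ∈ A ↔ ∀ y ∈ Y, Q y = 0)) ∨
    (ε = 1 ∧ Module.finrank (ZMod 2) Y = 1 ∧ ∀ Q ∈ Om f s, (Q ∉ A ↔ ∀ y ∈ Y, Q y = 0)) := by
  classical
  have hfd : FiniteDimensional (ZMod 2) W := Module.Finite.of_finite
  obtain ⟨P, hP⟩ := c.ne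
  have hne : (Om f s).Nonempty := ⟨P, c.sub hP⟩
  have hc := card_Om hf hnd hnum.s_ne_zero (c.sub hP)
  have hrn := finrank_ti_le hf hnd hnum hY
  have hr1 : 1 ≤ Module.finrank (ZMod 2) Y := by
    rw [Nat.one_le_iff_ne_zero]
    intro h0
    exact hY0 (Submodule.finrank_eq_zero.1 h0)
  obtain ⟨r, hr⟩ : ∃ r, Module.finrank (ZMod 2) Y = r := ⟨_, rfl⟩
  rw [hr] at hrn hr1
  obtain ⟨X, hX⟩ : ∃ X : ℤ, X = 2 ^ n := ⟨_, rfl⟩
  obtain ⟨R, hR⟩ : ∃ R : ℤ, R = 2 ^ r := ⟨_, rfl⟩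
  have hX2 : 2 ≤ X := by rw [hX]; exact two_le_pow hnum.hn
  have hR2 : 2 ≤ R := by rw [hR]; exact two_le_pow hr1
  have hs := hnum.hs
  rw [hnum.hW2, ← hX] at hc
  rw [← hX] at hs
  have hkZ : 2 * (A.card : ℤ) ≤ (Om f s).card := by exact_mod_cast hk
  obtain ⟨M, hM⟩ : ∃ M : ℤ, M = (Om f s).card := ⟨_, rfl⟩
  rw [← hM] at hc hkZ
  rcases h with h | h
  · left
    have hcA := card_iso hf hnd hnum c.sub hne hY hr h
    rw [← hX, ← hR] at hcA
    refine ⟨r, ?_, hr, h⟩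
    rcases hnum.hε with hε | hε
    · left
      refine ⟨hε, ?_, hrn⟩
      by_contra hlt
      have hr1' : r = 1 := by omega
      rw [hε] at hs
      rw [hr1'] at hR
      rw [hR, hs] at hcA
      rw [hs] at hc
      nlinarith
    · right
      refine ⟨hε, hr1, ?_⟩
      by_contra hlt
      have hrn' : r = n := by omega
      rw [hrn', ← hX] at hR
      rw [hε] at hs
      rw [hR, hs] at hcA
      have : (A.card : ℤ) = 0 := by
        have h1 : X * (A.card : ℤ) = 0 := by linarith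
        rcases mul_eq_zero.1 h1 with h2 | h2
        · omega
        · exact h2
      have h3 := c.card_pos
      omega
  · right
    have h' : ∀ Q ∈ Om f s, (Q ∈ Om f s \ A ↔ ∀ y ∈ Y, Q y = 0) := by
      intro Q hQ
      rw [← h Q hQ, mem_sdiff]
      exact ⟨fun h1 => h1.2, fun h1 => ⟨hQ, h1⟩⟩
    have hcA := card_iso hf hnd hnum sdiff_subset hne hY hr h'
    have hcB : ((Om f s \ A).card : ℤ) = (Om f s).card - A.card := by
      rw [Finset.card_sdiff_of_subset c.sub, Nat.cast_sub (Finset.card_le_card c.sub)]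
    rw [hcB, ← hM, ← hX, ← hR] at hcA
    have hr1' : r = 1 := by
      by_contra hne1
      have hr2 : 2 ≤ r := by omega
      have hR4 : 4 ≤ R := by
        rw [hR]
        have := pow_le_pow_right₀ (show (1 : ℤ) ≤ 2 by norm_num) hr2
        simpa using this
      have hX4 : 4 ≤ X := by
        rw [hX]
        have := pow_le_pow_right₀ (show (1 : ℤ) ≤ 2 by norm_num) (hr2.trans hrn)
        simpa using this
      have hsX : s ≤ X := by
        rw [hs]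
        rcases hnum.hε with h1 | h1 <;> rw [h1] <;> linarith
      -- `R |Om| ≤ 2 R (|Om| - |A|)`
      have h1 : R * (X * X + s) ≤ 2 * (X * X + s * R) := by
        rw [← hcA, ← hc]
        nlinarith
      have h2 : R * s ≤ R * X := mul_le_mul_of_nonneg_left hsX (by linarith)
      have h3 : 0 ≤ X * (X - 4) * (R - 2) := by
        apply mul_nonneg (mul_nonneg _ _) <;> linarith
      have h4 : 0 ≤ X * (R - 4) := by
        apply mul_nonneg <;> linarith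
      nlinarith
    refine ⟨?_, by rw [hr, hr1'], h⟩
    rcases hnum.hε with h1 | h1
    · exact h1
    · exfalso
      rw [hr1'] at hR
      rw [h1] at hs
      rw [hR, hs] at hcA
      rw [hs] at hc
      nlinarith

/-- conclusion of case B, after a choice of the smaller summand -/
theorem Ctx.caseB_final (hf : f.IsAlt) (hnd : f.Nondegenerate) (hnum : Num W n ε s)
    (c : Ctx f s A) (hk : 2 * A.card ≤ (Om f s).card) {U₁ U₂ : Submodule (ZMod 2) W}
    (hU₁ : (f.restrict U₁).Nondegenerate) (hU₂ : (f.restrict U₂).Nondegenerate)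
    (hmul : ∀ Q ∈ Om f s, SS Q U₁ * SS Q U₂ = s)
    {a b : ℕ} (ha1 : 1 ≤ a)
    (ha : Module.finrank (ZMod 2) U₁ = 2 * a) (hb : Module.finrank (ZMod 2) U₂ = 2 * b)
    (hab : a + b = n) (hle : a ≤ b) {δ : ℤ} (hδ : δ = 1 ∨ δ = -1)
    (hAU : ∀ Q ∈ Om f s, (Q ∈ A ↔ SS Q U₁ = δ * 2 ^ a)) :
    ∃ (a : ℕ) (U : Submodule (ZMod 2) W), 1 ≤ a ∧ 2 * a ≤ n ∧ (f.restrict U).Nondegenerate ∧
      Module.finrank (ZMod 2) U = 2 * a ∧
      ∀ Q ∈ Om f s, (Q ∈ A ↔ SS Q U = - 2 ^ a) := by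
  obtain ⟨P, hP⟩ := c.ne
  have hne : (Om f s).Nonempty := ⟨P, c.sub hP⟩
  rcases hδ with hδ1 | hδ1
  · have hc := card_Om hf hnd hnum.s_ne_zero (c.sub hP)
    have hcA := card_nd hf hnd hnum c.sub hne hU₁ ha hab (Or.inl hδ1) hAU
    have hkZ : 2 * (A.card : ℤ) ≤ (Om f s).card := by exact_mod_cast hk
    obtain ⟨M, hM⟩ : ∃ M : ℤ, M = (Om f s).card := ⟨_, rfl⟩
    rw [← hM] at hc hkZ
    rw [hnum.hW2, hnum.hs] at hc
    have h6 : (2 : ℤ) ^ n = 2 ^ a * 2 ^ b := by rw [← pow_add, hab]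
    have hXpos : (0 : ℤ) < 2 ^ n := by positivity
    have h1 : (2 : ℤ) ^ n * ((2 ^ a + δ) * (2 ^ b + ε * δ)) ≤ 2 ^ n * (2 ^ n + ε) := by
      rw [← hcA]; linarith
    have h2 := le_of_mul_le_mul_left h1 hXpos
    rw [h6, hδ1] at h2
    have hapos : (0 : ℤ) < 2 ^ a := by positivity
    have hbpos : (0 : ℤ) < 2 ^ b := by positivity
    have h3 : ε * 2 ^ a + 2 ^ b ≤ 0 := by linarith
    have hε : ε = -1 := by
      rcases hnum.hε with h | h
      · rw [h] at h3; linarith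
      · exact h
    rw [hε] at h3
    have h4 : (2 : ℤ) ^ b ≤ 2 ^ a := by linarith
    have h5 : b ≤ a := by
      by_contra hlt
      have h7 : (2 : ℤ) ^ (a + 1) ≤ 2 ^ b :=
        pow_le_pow_right₀ (by norm_num) (by omega)
      rw [pow_succ] at h7
      linarith
    have hab' : a = b := le_antisymm hle h5
    refine ⟨b, U₂, by omega, by omega, hU₂, hb, ?_⟩
    intro Q hQ
    rw [hAU Q hQ, hδ1, one_mul]
    have h8 := hmul Q hQ
    rw [hnum.hs, h6, hε] at h8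
    constructor
    · intro h9
      rw [h9] at h8
      apply mul_left_cancel₀ hapos.ne'
      linarith
    · intro h9
      rw [h9] at h8
      apply mul_right_cancel₀ hbpos.ne'
      linarith
  · refine ⟨a, U₁, ha1, by omega, hU₁, ha, ?_⟩
    intro Q hQ
    rw [hAU Q hQ, hδ1]
    constructor
    · intro h; rw [h]; ring
    · intro h; rw [h]; ring

/-- conclusion of case B -/
theorem Ctx.caseB_concl (hf : f.IsAlt) (hnd : f.Nondegenerate) (hnum : Num W n ε s)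
    (c : Ctx f s A) (hk : 2 * A.card ≤ (Om f s).card) {U₁ U₂ : Submodule (ZMod 2) W}
    (h1 : U₁ ≠ ⊥) (h2 : U₂ ≠ ⊥) (hc : IsCompl U₁ U₂)
    (h12 : ∀ x ∈ U₁, ∀ y ∈ U₂, f x y = 0)
    (hT1 : ∀ w ∈ U₁, w ≠ 0 → w ∈ TT f A) (hT2 : ∀ w ∈ U₂, w ≠ 0 → w ∈ TT f A) :
    ∃ (a : ℕ) (U : Submodule (ZMod 2) W), 1 ≤ a ∧ 2 * a ≤ n ∧ (f.restrict U).Nondegenerate ∧
      Module.finrank (ZMod 2) U = 2 * a ∧
      ∀ Q ∈ Om f s, (Q ∈ A ↔ SS Q U = - 2 ^ a) := by
  have hfd : FiniteDimensional (ZMod 2) W := Module.Finite.of_finite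
  have hs0 := hnum.s_ne_zero
  have h21 : ∀ x ∈ U₂, ∀ y ∈ U₁, f x y = 0 := fun x hx y hy => by
    rw [f_symm hf]; exact h12 y hy x hx
  have hU₁ := nondeg_of_isCompl hf hnd hc h12
  have hU₂ := nondeg_of_isCompl hf hnd hc.symm h21
  obtain ⟨P, hP⟩ := c.ne
  obtain ⟨R, hR, hRA⟩ := c.ne'
  have hPf := (mem_Om.1 (c.sub hP)).1
  have hRf := (mem_Om.1 hR).1
  obtain ⟨a, ha⟩ := even_pow_aux (SS_sq hf hU₁ hPf)
  obtain ⟨b, hb⟩ := even_pow_aux (SS_sq hf hU₂ hPf)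
  have hab : a + b = n := by
    have h3 := Submodule.finrank_add_eq_of_isCompl hc
    have h4 := hnum.finrank
    omega
  have ha1 : 1 ≤ a := by
    rw [Nat.one_le_iff_ne_zero]
    intro h0
    exact h1 (Submodule.finrank_eq_zero.1 (by rw [ha, h0]))
  have hb1 : 1 ≤ b := by
    rw [Nat.one_le_iff_ne_zero]
    intro h0
    exact h2 (Submodule.finrank_eq_zero.1 (by rw [hb, h0]))
  have hmul : ∀ Q ∈ Om f s, SS Q U₁ * SS Q U₂ = s := by
    intro Q hQ
    rw [← SS_mul hc h12 (mem_Om.1 hQ).1]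
    exact (mem_Om.1 hQ).2
  -- same type on `U₁`
  have hsame : ∀ Q ∈ A, ∀ Q' ∈ Om f s, SS Q' U₁ = SS Q U₁ → Q' ∈ A := by
    intro Q hQ Q' hQ' hSS
    obtain ⟨w₁, hw₁, w₂, hw₂, rfl, h3, h4⟩ := same_type_decomp hf hnd hs0 hc h12 (c.sub hQ) hQ'
    rw [h4] at hSS
    have h5 : Q w₁ = 0 := by
      have h6 := SS_ne_zero hf hU₁ (mem_Om.1 (c.sub hQ)).1
      rcases chi_eq (Q w₁) with h7 | h7
      · exact (chi_eq_one_iff _).1 h7
      · rw [h7] at hSS
        exfalso; apply h6; omega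
    rw [← shift_shift]
    have h6 : shift f Q w₁ ∈ A := by
      by_cases h0 : w₁ = 0
      · rw [h0, shift_zero]; exact hQ
      · exact (mem_TT.1 (hT1 w₁ hw₁ h0)).2 Q hQ h5
    by_cases h0 : w₂ = 0
    · rw [h0, shift_zero]; exact h6
    · apply (mem_TT.1 (hT2 w₂ hw₂ h0)).2 _ h6
      rw [shift_apply, ← h3, h5, h12 w₁ hw₁ w₂ hw₂]; rfl
  have hPR : SS R U₁ ≠ SS P U₁ := fun h => hRA (hsame P hP R hR h)
  obtain ⟨δ, hδ, hPδ⟩ : ∃ δ : ℤ, (δ = 1 ∨ δ = -1) ∧ SS P U₁ = δ * 2 ^ a := by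
    rcases SS_pm hf hU₁ hPf ha with h | h
    · exact ⟨1, Or.inl rfl, by rw [h]; ring⟩
    · exact ⟨-1, Or.inr rfl, by rw [h]; ring⟩
  have hAU : ∀ Q ∈ Om f s, (Q ∈ A ↔ SS Q U₁ = δ * 2 ^ a) := by
    intro Q hQ
    rw [← hPδ]
    constructor
    · intro hQA
      by_contra hne
      apply hRA
      apply hsame Q hQA R hR
      rcases SS_pm hf hU₁ hPf ha with h | h <;>
      rcases SS_pm hf hU₁ hRf ha with h' | h' <;>
      rcases SS_pm hf hU₁ (mem_Om.1 hQ).1 ha with h'' | h'' <;>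
      rw [h, h'] at hPR <;> rw [h, h''] at hne <;> rw [h', h''] <;>
      first | exact absurd rfl hPR | exact absurd rfl hne
    · exact hsame P hP Q hQ
  rcases le_total a b with hle | hle
  · exact c.caseB_final hf hnd hnum hk hU₁ hU₂ hmul ha1 ha hb hab hle hδ hAU
  · have hδ' : ε * δ = 1 ∨ ε * δ = -1 := by
      rcases hnum.hε with h | h <;> rcases hδ with h' | h' <;> rw [h, h'] <;> norm_num
    apply c.caseB_final hf hnd hnum hk hU₂ hU₁ (fun Q hQ => by rw [mul_comm]; exact hmul Q hQ)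
      hb1 hb ha (by omega) hle hδ'
    intro Q hQ
    rw [hAU Q hQ]
    have h8 := hmul Q hQ
    have h6 : (2 : ℤ) ^ n = 2 ^ a * 2 ^ b := by rw [← pow_add, hab]
    rw [hnum.hs, h6] at h8
    have hapos : (0 : ℤ) < 2 ^ a := by positivity
    have hbpos : (0 : ℤ) < 2 ^ b := by positivity
    have hδ2 : δ * δ = 1 := by rcases hδ with rfl | rfl <;> norm_num
    have hε2 : ε * ε = 1 := by rcases hnum.hε with h | h <;> rw [h] <;> norm_num
    constructor
    · intro h9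
      rw [h9] at h8
      apply mul_left_cancel₀ hapos.ne'
      linear_combination δ * h8 - (2 ^ a * SS Q U₂) * hδ2
    · intro h9
      rw [h9] at h8
      apply mul_right_cancel₀ hbpos.ne'
      linear_combination (ε * δ) * h8 - (SS Q U₁ * 2 ^ b * ε * ε) * hδ2
        - (SS Q U₁ * 2 ^ b) * hε2 + (δ * 2 ^ a * 2 ^ b) * hε2

end Pool.Agent.H66.SIT
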