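import Pool.Agent.H66.SIT.Om

/-!
# The context: a set `A` of forms of one type whose stabiliser is transitive on
`A × (Om \ A)`; the associated set `T` of vectors.
-/

open Finset

namespace Pool.Agent.H66.SIT

variable {W : Type*} [AddCommGroup W] [Module (ZMod 2) W]
variable {f : LinearMap.BilinForm (ZMod 2) W}

/-- `g` stabilises `A` -/
def Stab (f : LinearMap.BilinForm (ZMod 2) W) (A : Finset (QuadraticForm (ZMod 2) W))
    (g : W ≃ₗ[ZMod 2] W) : Prop :=
  Isom f g ∧ ∀ Q, act g Q ∈ A ↔ Q ∈ A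

theorem Stab.symm {A : Finset (QuadraticForm (ZMod 2) W)} {g : W ≃ₗ[ZMod 2] W}
    (h : Stab f A g) : Stab f A g.symm := by
  refine ⟨h.1.symm, fun Q => ?_⟩
  rw [← h.2 (act g.symm Q), act_act_symm]

variable [Fintype W]

structure Ctx (f : LinearMap.BilinForm (ZMod 2) W) (s : ℤ)
    (A : Finset (QuadraticForm (ZMod 2) W)) : Prop where
  sub : A ⊆ Om f s
  trans : ∀ P ∈ A, ∀ R ∈ Om f s, R ∉ A → ∀ P' ∈ A, ∀ R' ∈ Om f s, R' ∉ A →
    ∃ g : W ≃ₗ[ZMod 2] W, Stab f A g ∧ act g P = P' ∧ act g R = R'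
  ne : A.Nonempty
  ne' : ∃ R ∈ Om f s, R ∉ A

open Classical in
/-- the vectors `w` such that the transvection along `w` stabilises `A` -/
noncomputable def TT (f : LinearMap.BilinForm (ZMod 2) W)
    (A : Finset (QuadraticForm (ZMod 2) W)) : Finset W :=
  univ.filter (fun w => w ≠ 0 ∧ ∀ Q ∈ A, Q w = 0 → shift f Q w ∈ A)

theorem mem_TT {A : Finset (QuadraticForm (ZMod 2) W)} {w : W} :
    w ∈ TT f A ↔ w ≠ 0 ∧ ∀ Q ∈ A, Q w = 0 → shift f Q w ∈ A := by
  unfold TT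
  simp

theorem zero_not_mem_TT {A : Finset (QuadraticForm (ZMod 2) W)} : (0 : W) ∉ TT f A := by
  intro h
  exact (mem_TT.1 h).1 rfl

theorem Ctx.compl (hf : f.IsAlt) {s : ℤ} {A : Finset (QuadraticForm (ZMod 2) W)}
    [DecidableEq (QuadraticForm (ZMod 2) W)]
    (c : Ctx f s A) : Ctx f s (Om f s \ A) := by
  have hnot : ∀ R, R ∈ Om f s → R ∉ Om f s \ A → R ∈ A := by
    intro R h1 h2
    by_contra h3
    exact h2 (mem_sdiff.2 ⟨h1, h3⟩)
  refine ⟨sdiff_subset, ?_, ?_, ?_⟩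
  · intro P hP R hR hRA P' hP' R' hR' hRA'
    rw [mem_sdiff] at hP hP'
    obtain ⟨g, hg, h1, h2⟩ := c.trans R (hnot R hR hRA) P hP.1 hP.2 R' (hnot R' hR' hRA')
      P' hP'.1 hP'.2
    refine ⟨g, ⟨hg.1, ?_⟩, h2, h1⟩
    intro Q
    rw [mem_sdiff, mem_sdiff, hg.2]
    constructor
    · rintro ⟨h3, h4⟩
      refine ⟨?_, h4⟩
      have := act_mem_Om h3 hg.1.symm
      rwa [act_symm_act] at this
    · rintro ⟨h3, h4⟩
      exact ⟨act_mem_Om h3 hg.1, h4⟩
  · obtain ⟨R, hR, hRA⟩ := c.ne'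
    exact ⟨R, mem_sdiff.2 ⟨hR, hRA⟩⟩
  · obtain ⟨P, hP⟩ := c.ne
    refine ⟨P, c.sub hP, ?_⟩
    rw [mem_sdiff]
    exact fun h => h.2 hP

theorem TT_compl (hf : f.IsAlt) {s : ℤ} (hs : s ≠ 0) {A : Finset (QuadraticForm (ZMod 2) W)}
    [DecidableEq (QuadraticForm (ZMod 2) W)] (hA : A ⊆ Om f s) :
    TT f (Om f s \ A) = TT f A := by
  ext w
  rw [mem_TT, mem_TT]
  have key : ∀ Q, Q ∈ Om f s → Q w = 0 → shift f (shift f Q w) w = Q := by
    intro Q _ _
    rw [shift_shift, add_self_W, shift_zero]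
  have key2 : ∀ Q : QuadraticForm (ZMod 2) W, Q w = 0 → shift f Q w w = 0 := by
    intro Q h
    rw [shift_apply, h, f_self hf, add_zero]
  constructor
  · rintro ⟨h0, h⟩
    refine ⟨h0, fun Q hQ hQw => ?_⟩
    by_contra hn
    have h1 : shift f Q w ∈ Om f s \ A := mem_sdiff.2 ⟨shift_mem_Om hf (hA hQ) hQw, hn⟩
    have h2 := h _ h1 (key2 Q hQw)
    rw [key Q (hA hQ) hQw, mem_sdiff] at h2
    exact h2.2 hQ
  · rintro ⟨h0, h⟩
    refine ⟨h0, fun Q hQ hQw => ?_⟩
    rw [mem_sdiff] at hQ ⊢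
    refine ⟨shift_mem_Om hf hQ.1 hQw, fun hn => ?_⟩
    have h2 := h _ hn (key2 Q hQw)
    rw [key Q hQ.1 hQw] at h2
    exact hQ.2 h2

section
variable {s : ℤ} {A : Finset (QuadraticForm (ZMod 2) W)}

theorem Ctx.closed (hf : f.IsAlt) (c : Ctx f s A) {x y : W} (hx : x ∈ TT f A)
    (hy : y ∈ TT f A) (hxy : f x y = 1) : x + y ∈ TT f A := by
  rw [mem_TT] at hx hy ⊢
  constructor
  · intro h
    rw [add_eq_zero_W] at h
    rw [h, f_self hf] at hxy
    exact absurd hxy (by decide)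
  · intro Q hQ h
    have hQf := (mem_Om.1 (c.sub hQ)).1
    rw [hQf, hxy] at h
    rcases zmod2_cases (Q x) with h1 | h1
    · have h2 : Q y = 1 := by
        rw [h1] at h
        have := add_self_zmod (1 : ZMod 2)
        linear_combination h - this
      have h3 := hx.2 Q hQ h1
      have h4 : shift f Q x y = 0 := by rw [shift_apply, h2, hxy]; rfl
      have h5 := hy.2 _ h3 h4
      rwa [shift_shift] at h5
    · have h2 : Q y = 0 := by
        rw [h1] at h
        have := add_self_zmod (1 : ZMod 2)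
        linear_combination h - this
      have h3 := hy.2 Q hQ h2
      have h4 : shift f Q y x = 0 := by rw [shift_apply, h1, f_symm hf, hxy]; rfl
      have h5 := hx.2 _ h3 h4
      rwa [shift_shift, add_comm] at h5

theorem Ctx.exists_split (hf : f.IsAlt) (c : Ctx f s A) {w : W} (h0 : w ≠ 0)
    (hw : w ∉ TT f A) : ∃ Q ∈ A, Q w = 0 ∧ shift f Q w ∈ Om f s ∧ shift f Q w ∉ A := by
  rw [mem_TT] at hw
  push Not at hw
  obtain ⟨Q, hQ, h1, h2⟩ := hw h0
  exact ⟨Q, hQ, h1, shift_mem_Om hf (c.sub hQ) h1, h2⟩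

theorem Stab.mem_TT_of {g : W ≃ₗ[ZMod 2] W} (hg : Stab f A g) {w : W} (hw : w ∈ TT f A) :
    g w ∈ TT f A := by
  rw [mem_TT] at hw ⊢
  refine ⟨by rw [Ne, LinearEquiv.map_eq_zero_iff]; exact hw.1, fun Q hQ h => ?_⟩
  have h1 : act g.symm Q ∈ A := (hg.symm.2 Q).2 hQ
  have h2 : act g.symm Q w = 0 := by
    rw [act_apply, LinearEquiv.symm_symm]; exact h
  have h3 := hw.2 _ h1 h2
  have h4 := (hg.2 _).2 h3
  rwa [act_shift hg.1, act_act_symm] at h4

theorem Stab.mem_TT_iff {g : W ≃ₗ[ZMod 2] W} (hg : Stab f A g) (w : W) :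
    g w ∈ TT f A ↔ w ∈ TT f A := by
  constructor
  · intro h
    have := hg.symm.mem_TT_of h
    rwa [LinearEquiv.symm_apply_apply] at this
  · exact hg.mem_TT_of

theorem Ctx.trans_compl (hf : f.IsAlt) (hnd : f.Nondegenerate) (c : Ctx f s A) {w w' : W}
    (h0 : w ≠ 0) (hw : w ∉ TT f A) (h0' : w' ≠ 0) (hw' : w' ∉ TT f A) :
    ∃ g, Stab f A g ∧ g w = w' := by
  obtain ⟨Q, hQ, h1, h2, h3⟩ := c.exists_split hf h0 hw
  obtain ⟨Q', hQ', h1', h2', h3'⟩ := c.exists_split hf h0' hw'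
  obtain ⟨g, hg, h4, h5⟩ := c.trans Q hQ _ h2 h3 Q' hQ' _ h2' h3'
  refine ⟨g, hg, ?_⟩
  rw [act_shift hg.1, h4] at h5
  exact shift_inj hnd h5

theorem Ctx.transv_stab (hf : f.IsAlt) (hA : A ⊆ Om f s) {w : W} (hw : w ∈ TT f A) :
    Stab f A (transv hf w) := by
  refine ⟨transv_isom hf w, ?_⟩
  have h1 : ∀ Q ∈ A, act (transv hf w) Q ∈ A := by
    intro Q hQ
    rw [act_transv hf (mem_Om.1 (hA hQ)).1]
    split_ifs with h
    · exact (mem_TT.1 hw).2 Q hQ h
    · exact hQ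
  have h2 : ∀ Q : QuadraticForm (ZMod 2) W, act (transv hf w) (act (transv hf w) Q) = Q := by
    intro Q
    ext x
    rw [act_apply, act_apply, transv_symm_apply, transv_symm_apply]
    congr 1
    rw [map_add, LinearMap.add_apply, map_smul, LinearMap.smul_apply, f_self hf, smul_zero,
        add_zero, add_add_cancel_W]
  intro Q
  constructor
  · intro h
    rw [← h2 Q]
    exact h1 _ h
  · exact h1 Q

theorem Stab.FF_eq {g : W ≃ₗ[ZMod 2] W} (hg : Stab f A g) (w : W) :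
    FF A (g w) = FF A w := by
  unfold FF
  symm
  apply Finset.sum_bij (fun Q _ => act g Q)
  · intro Q hQ; exact (hg.2 Q).2 hQ
  · intro Q _ Q' _ h; exact act_injective g h
  · intro Q hQ
    exact ⟨act g.symm Q, (hg.symm.2 Q).2 hQ, act_act_symm g Q⟩
  · intro Q _
    rw [act_apply, LinearEquiv.symm_apply_apply]

theorem Stab.hT_eq {g : W ≃ₗ[ZMod 2] W} (hg : Stab f A g) (w : W) :
    hT f (TT f A) (g w) = hT f (TT f A) w := by
  unfold hT
  symm
  apply Finset.sum_bij (fun x _ => g x)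
  · intro x hx; exact (hg.mem_TT_iff x).2 hx
  · intro x _ y _ h; exact g.injective h
  · intro x hx
    refine ⟨g.symm x, ?_, g.apply_symm_apply x⟩
    rw [← hg.mem_TT_iff, g.apply_symm_apply]; exact hx
  · intro x _
    rw [hg.1]

theorem Ctx.FF_const (hf : f.IsAlt) (hnd : f.Nondegenerate) (c : Ctx f s A) {w w' : W}
    (h0 : w ≠ 0) (hw : w ∉ TT f A) (h0' : w' ≠ 0) (hw' : w' ∉ TT f A) :
    FF A w = FF A w' := by
  obtain ⟨g, hg, rfl⟩ := c.trans_compl hf hnd h0 hw h0' hw'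
  exact (hg.FF_eq w).symm

theorem Ctx.hT_const (hf : f.IsAlt) (hnd : f.Nondegenerate) (c : Ctx f s A) {w w' : W}
    (h0 : w ≠ 0) (hw : w ∉ TT f A) (h0' : w' ≠ 0) (hw' : w' ∉ TT f A) :
    hT f (TT f A) w = hT f (TT f A) w' := by
  obtain ⟨g, hg, rfl⟩ := c.trans_compl hf hnd h0 hw h0' hw'
  exact (hg.hT_eq w).symm

/-- adjacent vectors of `T` are conjugate under the stabiliser -/
theorem Ctx.conj (hf : f.IsAlt) (hA : A ⊆ Om f s) {x y : W} (hx : x ∈ TT f A)
    (hy : y ∈ TT f A) (hxy : f x y = 1) : ∃ g, Stab f A g ∧ g x = y := by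
  have h1 := Ctx.transv_stab hf hA hx
  have h2 := Ctx.transv_stab hf hA hy
  refine ⟨(transv hf y).trans (transv hf x), ⟨h2.1.trans h1.1, fun Q => ?_⟩, ?_⟩
  · rw [act_trans, h1.2, h2.2]
  · rw [LinearEquiv.trans_apply, transv_of_eq_one hf hxy, transv_of_eq_one hf]
    · rw [add_comm, ← add_assoc, add_self_W, zero_add]
    · rw [map_add, LinearMap.add_apply, f_self hf, zero_add, f_symm hf, hxy]

theorem FF_const_adj (hf : f.IsAlt) (hA : A ⊆ Om f s) {x y : W} (hx : x ∈ TT f A)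
    (hy : y ∈ TT f A) (hxy : f x y = 1) : FF A x = FF A y := by
  obtain ⟨g, hg, rfl⟩ := Ctx.conj hf hA hx hy hxy
  exact (hg.FF_eq x).symm

theorem hT_const_adj (hf : f.IsAlt) (hA : A ⊆ Om f s) {x y : W} (hx : x ∈ TT f A)
    (hy : y ∈ TT f A) (hxy : f x y = 1) : hT f (TT f A) x = hT f (TT f A) y := by
  obtain ⟨g, hg, rfl⟩ := Ctx.conj hf hA hx hy hxy
  exact (hg.hT_eq x).symm

/-- for `w ∈ T`, the pairs in `A` with difference `w` -/
theorem two_mul_pairs (hf : f.IsAlt) (hs : s ≠ 0) (hA : A ⊆ Om f s) {w : W}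
    (hw : w ∈ TT f A) [DecidableEq (QuadraticForm (ZMod 2) W)] :
    2 * ((A.filter (fun Q => shift f Q w ∈ A)).card : ℤ) = A.card + FF A w := by
  have h1 : A.filter (fun Q => shift f Q w ∈ A) = A.filter (fun Q => Q w = 0) := by
    apply Finset.filter_congr
    intro Q hQ
    constructor
    · intro h; exact eq_zero_of_shift_mem hf hs (hA hQ) (hA h)
    · intro h; exact (mem_TT.1 hw).2 Q hQ h
  rw [h1]
  have h0 : ((A.filter (fun Q => Q w = 0)).card : ℤ)
      = ∑ u ∈ A.filter (fun Q => Q w = 0), 1 := by simp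
  rw [h0, Finset.sum_filter, Finset.mul_sum]
  have h2 : ∀ Q : QuadraticForm (ZMod 2) W,
      2 * (if Q w = 0 then (1 : ℤ) else 0) = 1 + chi (Q w) := by
    intro u
    rcases zmod2_cases (u w) with h | h
    · rw [if_pos h, h]; simp
    · have : ¬ (u w = 0) := by rw [h]; decide
      rw [if_neg this, h]; simp
  rw [Finset.sum_congr rfl (fun u _ => h2 u), Finset.sum_add_distrib]
  simp [FF]

theorem two_mul_nonorth (T : Finset W) (w : W) :
    2 * ((T.filter (fun x => f x w = 1)).card : ℤ) = T.card - hT f T w := by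
  have h0 : ((T.filter (fun x => f x w = 1)).card : ℤ)
      = ∑ u ∈ T.filter (fun x => f x w = 1), 1 := by simp
  rw [h0, Finset.sum_filter, Finset.mul_sum]
  have h2 : ∀ x : W, 2 * (if f x w = 1 then (1 : ℤ) else 0) = 1 - chi (f x w) := by
    intro u
    rcases zmod2_cases (f u w) with h | h
    · rw [h]; simp
    · rw [if_pos h, h]; simp
  rw [Finset.sum_congr rfl (fun u _ => h2 u), Finset.sum_sub_distrib]
  simp [hT]

theorem two_mul_orth (T : Finset W) (w : W) :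
    2 * ((T.filter (fun x => f x w = 0)).card : ℤ) = T.card + hT f T w := by
  have h0 : ((T.filter (fun x => f x w = 0)).card : ℤ)
      = ∑ u ∈ T.filter (fun x => f x w = 0), 1 := by simp
  rw [h0, Finset.sum_filter, Finset.mul_sum]
  have h2 : ∀ x : W, 2 * (if f x w = 0 then (1 : ℤ) else 0) = 1 + chi (f x w) := by
    intro u
    rcases zmod2_cases (f u w) with h | h
    · rw [if_pos h, h]; simp
    · have : ¬ (f u w = 0) := by rw [h]; decide
      rw [if_neg this, h]; simp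
  rw [Finset.sum_congr rfl (fun u _ => h2 u), Finset.sum_add_distrib]
  simp [hT]

end

end Pool.Agent.H66.SIT
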