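import Mathlib

/-!
# Definitions for the classification of strongly incidence-transitive codes
under the Jordan-Steiner actions of the symplectic groups over the field with two elements.
-/

namespace Pool.Agent.H66.SIT

/-- `C` is a code in the Johnson graph `J(V, k)`: all members of `C` are `k`-subsets of `V`,
and `C` has at least two members. -/
def IsCode {V : Type*} (k : ℕ) (C : Set (Set V)) : Prop :=
  (∀ γ ∈ C, γ.ncard = k) ∧ C.Nontrivial

/-- `C` is a `G`-strongly incidence-transitive code in the Johnson graph `J(V, k)`: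
it is a code, the permutation group `G` of `V` leaves `C` invariant, and `G` is transitive on the
triples `(u, u', γ)` with `γ ∈ C`, `u ∈ γ`, `u' ∉ γ`. -/
structure IsSIT {V : Type*} (G : Subgroup (Equiv.Perm V)) (k : ℕ) (C : Set (Set V)) : Prop where
  isCode : IsCode k C
  le_aut : ∀ g ∈ G, ∀ γ ∈ C, g '' γ ∈ C
  trans : ∀ γ ∈ C, ∀ u ∈ γ, ∀ u' ∉ γ, ∀ δ ∈ C, ∀ w ∈ δ, ∀ w' ∉ δ,
    ∃ g ∈ G, g '' γ = δ ∧ g u = w ∧ g u' = w'

variable {W : Type*} [AddCommGroup W] [Module (ZMod 2) W]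

/-- The quadratic form `Q` has Witt index `m`: the largest dimension of a subspace on which `Q`
vanishes is `m`. -/
def HasWittIndex (Q : QuadraticForm (ZMod 2) W) (m : ℕ) : Prop :=
  IsGreatest {d : ℕ | ∃ U : Submodule (ZMod 2) W,
    Module.finrank (ZMod 2) U = d ∧ ∀ u ∈ U, Q u = 0} m

/-- The set `Ω^ε` of quadratic forms `Q` on `W` that polarise to `f`, i.e.
`Q (x + y) = Q x + Q y + f x y`, and have type `ε`: Witt index `n` for `ε = 1` and
Witt index `n - 1` for `ε = -1` (here `2 n` is the dimension of `W`). -/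
def Omega (f : LinearMap.BilinForm (ZMod 2) W) (n : ℕ) (ε : ℤˣ) :
    Set (QuadraticForm (ZMod 2) W) :=
  {Q | (∀ x y, Q (x + y) = Q x + Q y + f x y) ∧ HasWittIndex Q (if ε = 1 then n else n - 1)}

/-- The permutation `p` of `Ω^ε` is the one induced by some isometry `g` of `f`:
`(p Q) (g x) = Q x`, that is, `(p Q) x = Q (g⁻¹ x)`. -/
def IsInduced (f : LinearMap.BilinForm (ZMod 2) W) (n : ℕ) (ε : ℤˣ)
    (p : Equiv.Perm (Omega f n ε)) : Prop :=
  ∃ g : W ≃ₗ[ZMod 2] W, (∀ x y, f (g x) (g y) = f x y) ∧ ∀ Q x, (p Q).1 (g x) = Q.1 x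

theorem IsInduced.one (f : LinearMap.BilinForm (ZMod 2) W) (n : ℕ) (ε : ℤˣ) :
    IsInduced f n ε 1 :=
  ⟨LinearEquiv.refl (ZMod 2) W, fun _ _ => rfl, fun _ _ => rfl⟩

theorem IsInduced.mul {f : LinearMap.BilinForm (ZMod 2) W} {n : ℕ} {ε : ℤˣ}
    {p q : Equiv.Perm (Omega f n ε)} (hp : IsInduced f n ε p) (hq : IsInduced f n ε q) :
    IsInduced f n ε (p * q) := by
  obtain ⟨g, h1, h2⟩ := hp
  obtain ⟨g', h1', h2'⟩ := hq
  refine ⟨g'.trans g, ?_, ?_⟩
  · intro x y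
    rw [LinearEquiv.trans_apply, LinearEquiv.trans_apply, h1, h1']
  · intro Q x
    rw [LinearEquiv.trans_apply, Equiv.Perm.mul_apply, h2, h2']

theorem IsInduced.inv {f : LinearMap.BilinForm (ZMod 2) W} {n : ℕ} {ε : ℤˣ}
    {p : Equiv.Perm (Omega f n ε)} (hp : IsInduced f n ε p) : IsInduced f n ε p⁻¹ := by
  obtain ⟨g, h1, h2⟩ := hp
  refine ⟨g.symm, ?_, ?_⟩
  · intro x y
    have h := h1 (g.symm x) (g.symm y)
    rw [g.apply_symm_apply, g.apply_symm_apply] at h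
    exact h.symm
  · intro Q x
    have h := h2 (p⁻¹ Q) (g.symm x)
    have hp : p (p⁻¹ Q) = Q := p.apply_symm_apply Q
    rw [g.apply_symm_apply, hp] at h
    exact h.symm

/-- The group `Sp(W, f)` in its Jordan-Steiner action on `Ω^ε`, as a permutation group. -/
def jordanSteiner (f : LinearMap.BilinForm (ZMod 2) W) (n : ℕ) (ε : ℤˣ) :
    Subgroup (Equiv.Perm (Omega f n ε)) where
  carrier := {p | IsInduced f n ε p}
  mul_mem' := IsInduced.mul
  one_mem' := IsInduced.one f n ε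
  inv_mem' := IsInduced.inv

/-- First family. The codewords are the sets of all `Q ∈ Ω^ε` that vanish on a totally isotropic
subspace `Y` of dimension `r`. -/
def isoFamily (f : LinearMap.BilinForm (ZMod 2) W) (n : ℕ) (ε : ℤˣ) (r : ℕ) :
    Set (Set (Omega f n ε)) :=
  {γ | ∃ Y : Submodule (ZMod 2) W, (∀ x ∈ Y, ∀ y ∈ Y, f x y = 0) ∧
    Module.finrank (ZMod 2) Y = r ∧ γ = {Q | ∀ y ∈ Y, Q.1 y = 0}}

/-- Second family. The codewords are the sets of all `Q ∈ Ω^ε` whose restriction to a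
nondegenerate subspace `Y` of dimension `2 a` is of type minus (Witt index `a - 1`). -/
def ndFamily (f : LinearMap.BilinForm (ZMod 2) W) (n : ℕ) (ε : ℤˣ) (a : ℕ) :
    Set (Set (Omega f n ε)) :=
  {γ | ∃ Y : Submodule (ZMod 2) W, (f.restrict Y).Nondegenerate ∧
    Module.finrank (ZMod 2) Y = 2 * a ∧ γ = {Q | HasWittIndex (Q.1.comp Y.subtype) (a - 1)}}

/-- The azygetic `10`-sets: the sets of ten forms in `Ω^ε` such that the sum of any three different
members is not in `Ω^ε`. -/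
def azFamily (f : LinearMap.BilinForm (ZMod 2) W) (n : ℕ) (ε : ℤˣ) :
    Set (Set (Omega f n ε)) :=
  {γ | γ.ncard = 10 ∧ ∀ Q₁ ∈ γ, ∀ Q₂ ∈ γ, ∀ Q₃ ∈ γ, Q₁ ≠ Q₂ → Q₁ ≠ Q₃ → Q₂ ≠ Q₃ →
    Q₁.1 + Q₂.1 + Q₃.1 ∉ Omega f n ε}

end Pool.Agent.H66.SIT
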