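import Pool.Agent.H66.SIT.WittExt

/-!
# Eichler maps and the transitivity statements for the first two families
-/

open Finset

namespace Pool.Agent.H66.SIT

variable {W : Type*} [AddCommGroup W] [Module (ZMod 2) W]
variable {f : LinearMap.BilinForm (ZMod 2) W}

theorem Q_of_act {g : W ≃ₗ[ZMod 2] W} {Q : QuadraticForm (ZMod 2) W} (h : act g Q = Q) (x : W) :
    Q (g x) = Q x := by
  have h1 : act g Q (g x) = Q (g x) := by rw [h]
  rw [act_apply, g.symm_apply_apply] at h1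
  exact h1.symm

theorem add_add_add_self (a b : W) : a + (b + a) = b := by
  rw [add_comm b a, ← add_assoc, add_self_W, zero_add]

/-- Eichler maps -/
theorem exists_eichler (hf : f.IsAlt) {Q : QuadraticForm (ZMod 2) W} (hQ : IsForm f Q)
    {y s : W} (hy : Q y = 0) (hys : f y s = 0) :
    ∃ E : W ≃ₗ[ZMod 2] W, Isom f E ∧ act E Q = Q ∧
      ∀ x, E x = x + f x s • y + f x y • s + (Q s * f x y) • y := by
  have hsy : f s y = 0 := by rw [f_symm hf]; exact hys
  rcases zmod2_cases (Q s) with h | h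
  · refine ⟨(transv hf y).trans ((transv hf (s + y)).trans (transv hf s)),
      (transv_isom hf _).trans ((transv_isom hf _).trans (transv_isom hf _)), ?_, ?_⟩
    · have h1 : act (transv hf y) Q = shift f Q y := act_transv_zero hf hQ hy
      have h2 : act (transv hf (s + y)) (shift f Q y) = shift f (shift f Q y) (s + y) := by
        apply act_transv_zero hf (hQ.shift y)
        rw [shift_apply, hQ, h, hy, hsy, map_add, hys, f_self hf]
        rfl
      have h3 : act (transv hf s) (shift f Q s) = shift f (shift f Q s) s := by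
        apply act_transv_zero hf (hQ.shift s)
        rw [shift_apply, h, f_self hf]; rfl
      rw [act_trans, act_trans, h1, h2, shift_shift, add_add_add_self, h3, shift_shift,
        add_self_W, shift_zero]
    · intro x
      have e1 : transv hf (s + y) (x + f x y • y) = x + f x y • y + f x (s + y) • (s + y) := by
        rw [transv_apply]
        congr 2
        rw [map_add f, LinearMap.add_apply, map_smul, LinearMap.smul_apply, map_add (f y),
          hys, f_self hf, add_zero, smul_zero, add_zero]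
      have e2 : transv hf s (x + f x y • y + f x (s + y) • (s + y))
          = x + f x y • y + f x (s + y) • (s + y) + f x s • s := by
        rw [transv_apply]
        congr 2
        rw [map_add f, LinearMap.add_apply, map_add f, LinearMap.add_apply, map_smul,
          LinearMap.smul_apply, map_smul, LinearMap.smul_apply, map_add f s y,
          LinearMap.add_apply, hys, f_self hf, add_zero, smul_zero, smul_zero, add_zero,
          add_zero]
      rw [LinearEquiv.trans_apply, LinearEquiv.trans_apply, transv_apply hf y x, e1, e2, h,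
        zero_mul,
        zero_smul, add_zero, map_add (f x), smul_add, add_smul, add_smul]
      have e3 : x + f x y • y + (f x s • s + f x y • s + (f x s • y + f x y • y)) + f x s • s
        = x + f x s • y + f x y • s + (f x y • y + f x y • y) + (f x s • s + f x s • s) := by
        abel
      rw [e3, add_self_W, add_self_W, add_zero, add_zero]
  · refine ⟨(transv hf (s + y)).trans (transv hf s),
      (transv_isom hf _).trans (transv_isom hf _), ?_, ?_⟩
    · have h1 : act (transv hf (s + y)) Q = Q := by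
        apply act_transv_one hf hQ
        rw [hQ, h, hy, hsy]; rfl
      have h2 : act (transv hf s) Q = Q := act_transv_one hf hQ h
      rw [act_trans, h1, h2]
    · intro x
      have e2 : transv hf s (x + f x (s + y) • (s + y))
          = x + f x (s + y) • (s + y) + f x s • s := by
        rw [transv_apply]
        congr 2
        rw [map_add f, LinearMap.add_apply, map_smul,
          LinearMap.smul_apply, map_add f s y,
          LinearMap.add_apply, hys, f_self hf, add_zero, smul_zero, add_zero]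
      rw [LinearEquiv.trans_apply, transv_apply hf (s + y) x, e2, h, one_mul, map_add (f x),
        smul_add,
        add_smul, add_smul]
      have e3 : x + (f x s • s + f x y • s + (f x s • y + f x y • y)) + f x s • s
        = x + f x s • y + f x y • s + f x y • y + (f x s • s + f x s • s) := by
        abel
      rw [e3, add_self_W, add_zero]

theorem two_func {Y : Submodule (ZMod 2) W} {u u' : W} (h : ∃ y ∈ Y, f u y = 1)
    (h' : ∃ y ∈ Y, f u' y = 1) : ∃ y ∈ Y, f u y = 1 ∧ f u' y = 1 := by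
  obtain ⟨y, hy, h1⟩ := h
  obtain ⟨y', hy', h2⟩ := h'
  rcases zmod2_cases (f u' y) with h3 | h3
  · rcases zmod2_cases (f u y') with h4 | h4
    · refine ⟨y + y', Y.add_mem hy hy', ?_, ?_⟩
      · rw [map_add, h1, h4]; rfl
      · rw [map_add, h2, h3]; rfl
    · exact ⟨y', hy', h4, h2⟩
  · exact ⟨y, hy, h1, h3⟩

/-- stabilising a subspace -/
theorem stab_iff [FiniteDimensional (ZMod 2) W] {g : W ≃ₗ[ZMod 2] W}
    {Y : Submodule (ZMod 2) W} (h : ∀ x ∈ Y, g x ∈ Y) (x : W) : g x ∈ Y ↔ x ∈ Y := by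
  refine ⟨fun hx => ?_, h x⟩
  have h1 : Y.map (g : W →ₗ[ZMod 2] W) ≤ Y := by
    intro z hz
    obtain ⟨m, hm, rfl⟩ := Submodule.mem_map.1 hz
    exact h m hm
  have h2 : Y.map (g : W →ₗ[ZMod 2] W) = Y :=
    Submodule.eq_of_le_of_finrank_eq h1 (LinearEquiv.finrank_map_eq g Y)
  rw [← h2] at hx
  obtain ⟨m, hm, hmx⟩ := Submodule.mem_map.1 hx
  exact g.injective hmx ▸ hm

theorem iso_trans_aux (hf : f.IsAlt) {Q : QuadraticForm (ZMod 2) W} (hQ : IsForm f Q)
    {Y : Submodule (ZMod 2) W} (hY : ∀ x ∈ Y, ∀ y ∈ Y, f x y = 0) (hQY : ∀ y ∈ Y, Q y = 0)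
    {u u' : W} (hu : Q u = 0) (hu' : Q u' = 0) (h : ∃ y ∈ Y, f u y = 1)
    (h' : ∃ y ∈ Y, f u' y = 1) :
    ∃ g : W ≃ₗ[ZMod 2] W, Isom f g ∧ act g Q = Q ∧ (∀ x ∈ Y, g x ∈ Y) ∧ g u = u' := by
  obtain ⟨y, hy, huy, huy'⟩ := two_func h h'
  have hyu : f y u = 1 := by rw [f_symm hf]; exact huy
  have hyu' : f y u' = 1 := by rw [f_symm hf]; exact huy'
  obtain ⟨E, hE, hEQ, hEx⟩ := exists_eichler hf hQ (hQY y hy) (s := u + u')
    (by rw [map_add, hyu, hyu']; rfl)
  have hEY : ∀ x ∈ Y, E x ∈ Y := by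
    intro x hx
    rw [hEx, hY x hx y hy, zero_smul, add_zero, mul_zero, zero_smul, add_zero]
    exact Y.add_mem hx (Y.smul_mem _ hy)
  obtain ⟨v, hv⟩ : ∃ v, v = E u := ⟨_, rfl⟩
  have hQv : Q v = 0 := by rw [hv, Q_of_act hEQ, hu]
  have hfv : ∀ x ∈ Y, f v x = f u' x := by
    intro x hx
    rw [hv, hEx]
    simp only [map_add, LinearMap.add_apply, map_smul, LinearMap.smul_apply, hY y hy x hx,
      smul_zero, huy, one_smul, add_zero]
    have := add_self_zmod (f u x)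
    linear_combination this
  have hvy : f v y = 1 := by rw [hfv y hy, huy']
  rcases zmod2_cases (f v u') with h1 | h1
  · obtain ⟨E', hE', hEQ', hEx'⟩ := exists_eichler hf hQ (hQY y hy) (s := v + u')
      (by rw [map_add, hyu', f_symm hf, hvy]; rfl)
    refine ⟨E.trans E', hE.trans hE', by rw [act_trans, hEQ, hEQ'], ?_, ?_⟩
    · intro x hx
      rw [LinearEquiv.trans_apply]
      have hz := hEY x hx
      rw [hEx', hY _ hz y hy, zero_smul, add_zero, mul_zero, zero_smul, add_zero]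
      exact Y.add_mem hz (Y.smul_mem _ hy)
    · rw [LinearEquiv.trans_apply, ← hv, hEx', map_add (f v), f_self hf, h1, add_zero,
        zero_smul, add_zero, hvy, one_smul, mul_one, hQ, hQv, hu', h1, add_zero, add_zero,
        zero_smul, add_zero, ← add_assoc, add_self_W, zero_add]
  · refine ⟨E.trans (transv hf (v + u')), hE.trans (transv_isom hf _), ?_, ?_, ?_⟩
    · rw [act_trans, hEQ]
      apply act_transv_one hf hQ
      rw [hQ, hQv, hu', h1]; rfl
    · intro x hx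
      rw [LinearEquiv.trans_apply, transv_of_eq_zero hf]
      · exact hEY x hx
      · rw [f_symm hf, map_add, LinearMap.add_apply, hfv _ (hEY x hx), add_self_zmod]
    · rw [LinearEquiv.trans_apply, ← hv, transv_of_eq_one hf]
      · rw [← add_assoc, add_self_W, zero_add]
      · rw [map_add, f_self hf, h1]; rfl

section
variable [Fintype W]

/-- transitivity for the first family -/
theorem iso_trans (hf : f.IsAlt) (hnd : f.Nondegenerate) {s : ℤ} (hs : s ≠ 0)
    {Y : Submodule (ZMod 2) W} (hY : ∀ x ∈ Y, ∀ y ∈ Y, f x y = 0)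
    {Q₁ Q₂ Q₁' Q₂' : QuadraticForm (ZMod 2) W} (h₁ : Q₁ ∈ Om f s) (h₂ : Q₂ ∈ Om f s)
    (h₁' : Q₁' ∈ Om f s) (h₂' : Q₂' ∈ Om f s) (k₁ : ∀ y ∈ Y, Q₁ y = 0)
    (k₁' : ∀ y ∈ Y, Q₁' y = 0) (k₂ : ¬ ∀ y ∈ Y, Q₂ y = 0) (k₂' : ¬ ∀ y ∈ Y, Q₂' y = 0) :
    ∃ g : W ≃ₗ[ZMod 2] W, Isom f g ∧ (∀ x ∈ Y, g x ∈ Y) ∧ act g Q₁ = Q₁' ∧
      act g Q₂ = Q₂' := by
  have hfd : FiniteDimensional (ZMod 2) W := Module.Finite.of_finite
  -- move `Q₁` to `Q₁'`
  obtain ⟨g₀, hg₀, hg₀Y, hg₀Q⟩ : ∃ g : W ≃ₗ[ZMod 2] W, Isom f g ∧ (∀ x ∈ Y, g x ∈ Y) ∧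
      act g Q₁ = Q₁' := by
    obtain ⟨w, rfl⟩ := exists_shift_Om hnd h₁ h₁'
    refine ⟨transv hf w, transv_isom hf w, ?_, ?_⟩
    · intro x hx
      rw [transv_of_eq_zero hf]
      · exact hx
      · have h3 := k₁' x hx
        rw [shift_apply, k₁ x hx, zero_add] at h3
        rw [f_symm hf]; exact h3
    · exact act_transv_zero hf (mem_Om.1 h₁).1 (eq_zero_of_shift_mem hf hs h₁ h₁')
  have h₃ : act g₀ Q₂ ∈ Om f s := act_mem_Om h₂ hg₀
  have k₃ : ¬ ∀ y ∈ Y, act g₀ Q₂ y = 0 := by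
    intro h
    apply k₂
    intro y hy
    have := h _ (hg₀Y y hy)
    rwa [act_apply, g₀.symm_apply_apply] at this
  obtain ⟨u, hu⟩ := exists_shift_Om hnd h₁' h₃
  obtain ⟨u', hu'⟩ := exists_shift_Om hnd h₁' h₂'
  have hQf := (mem_Om.1 h₁').1
  rw [hu] at h₃ k₃
  rw [hu'] at h₂' k₂'
  have hex : ∀ u : W, (¬ ∀ y ∈ Y, shift f Q₁' u y = 0) → ∃ y ∈ Y, f u y = 1 := by
    intro u h
    push Not at h
    obtain ⟨y, hy, hyne⟩ := h
    rw [shift_apply, k₁' y hy, zero_add] at hyne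
    exact ⟨y, hy, (ne_zero_iff _).1 hyne⟩
  obtain ⟨g₁, hg₁, hg₁Q, hg₁Y, hg₁u⟩ := iso_trans_aux hf hQf hY k₁'
    (eq_zero_of_shift_mem hf hs h₁' h₃) (eq_zero_of_shift_mem hf hs h₁' h₂')
    (hex u k₃) (hex u' k₂')
  refine ⟨g₀.trans g₁, hg₀.trans hg₁, ?_, ?_, ?_⟩
  · intro x hx
    exact hg₁Y _ (hg₀Y x hx)
  · rw [act_trans, hg₀Q, hg₁Q]
  · rw [act_trans, hu, act_shift hg₁, hg₁Q, hg₁u, hu']

/-- transitivity on nonsingular vectors of a nondegenerate subspace -/
theorem ns_trans (hf : f.IsAlt) {Q : QuadraticForm (ZMod 2) W}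
    (hQ : IsForm f Q) {U : Submodule (ZMod 2) W} (hU : (f.restrict U).Nondegenerate)
    {v v' : W} (hv : v ∈ U) (hv' : v' ∈ U) (hQv : Q v = 1) (hQv' : Q v' = 1) :
    ∃ g : W ≃ₗ[ZMod 2] W, Isom f g ∧ act g Q = Q ∧ g v = v' ∧ (∀ x ∈ U, g x ∈ U) ∧
      (∀ x, (∀ u ∈ U, f x u = 0) → g x = x) := by
  have hstep : ∀ v v', v ∈ U → v' ∈ U → Q v = 1 → Q v' = 1 → f v v' = 1 →
    ∃ g : W ≃ₗ[ZMod 2] W, Isom f g ∧ act g Q = Q ∧ g v = v' ∧ (∀ x ∈ U, g x ∈ U) ∧
      (∀ x, (∀ u ∈ U, f x u = 0) → g x = x) := by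
    intro v v' hv hv' hQv hQv' h
    refine ⟨transv hf (v + v'), transv_isom hf _, ?_, ?_, ?_, ?_⟩
    · apply act_transv_one hf hQ
      rw [hQ, hQv, hQv', h]; rfl
    · rw [transv_of_eq_one hf]
      · rw [← add_assoc, add_self_W, zero_add]
      · rw [map_add, f_self hf, h]; rfl
    · intro x hx
      rw [transv_apply]
      exact U.add_mem hx (U.smul_mem _ (U.add_mem hv hv'))
    · intro x hx
      exact transv_of_eq_zero hf (hx _ (U.add_mem hv hv'))
  have hv0 : ∀ v ∈ U, Q v = 1 → ∃ y ∈ U, f v y = 1 := by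
    intro v hv hQv
    have hne : (⟨v, hv⟩ : U) ≠ 0 := by
      intro h
      have h0 : v = 0 := congrArg Subtype.val h
      rw [h0, IsForm.zero] at hQv
      exact absurd hQv (by decide)
    obtain ⟨y, hy⟩ := exists_f_eq_one hU hne
    exact ⟨y, y.2, hy⟩
  by_cases hvv : v = v'
  · refine ⟨LinearEquiv.refl _ _, Isom.refl, act_refl Q, hvv, fun x hx => hx, fun x _ => rfl⟩
  rcases zmod2_cases (f v v') with h | h
  swap
  · exact hstep v v' hv hv' hQv hQv' h
  obtain ⟨z, hz, hvz, hvz'⟩ := two_func (hv0 v hv hQv) (hv0 v' hv' hQv')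
  have hzv : f z v = 1 := by rw [f_symm hf]; exact hvz
  have hzv' : f z v' = 1 := by rw [f_symm hf]; exact hvz'
  rcases zmod2_cases (Q z) with hQz | hQz
  · obtain ⟨E, hE, hEQ, hEx⟩ := exists_eichler hf hQ hQz (s := v + v')
      (by rw [map_add, hzv, hzv']; rfl)
    refine ⟨E, hE, hEQ, ?_, ?_, ?_⟩
    · rw [hEx, map_add (f v), f_self hf, h, add_zero, zero_smul, add_zero, hvz, one_smul,
        hQ, hQv, hQv', h]
      have : ((1 : ZMod 2) + 1 + 0) * 1 = 0 := rfl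
      rw [this, zero_smul, add_zero, ← add_assoc, add_self_W, zero_add]
    · intro x hx
      rw [hEx]
      exact U.add_mem (U.add_mem (U.add_mem hx (U.smul_mem _ hz))
        (U.smul_mem _ (U.add_mem hv hv'))) (U.smul_mem _ hz)
    · intro x hx
      rw [hEx, hx _ (U.add_mem hv hv'), hx _ hz]
      simp
  · obtain ⟨g, hg, hgQ, hgv, hgU, hgU'⟩ := hstep v z hv hz hQv hQz hvz
    obtain ⟨g', hg', hgQ', hgv', hgU1, hgU1'⟩ := hstep z v' hz hv' hQz hQv' hzv'
    refine ⟨g.trans g', hg.trans hg', by rw [act_trans, hgQ, hgQ'], ?_, ?_, ?_⟩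
    · rw [LinearEquiv.trans_apply, hgv, hgv']
    · intro x hx
      exact hgU1 _ (hgU x hx)
    · intro x hx
      rw [LinearEquiv.trans_apply, hgU' x hx, hgU1' x hx]

/-- transitivity for the second family -/
theorem nd_trans (hf : f.IsAlt) (hnd : f.Nondegenerate) {s : ℤ} (hs : s ≠ 0)
    {U : Submodule (ZMod 2) W} (hU : (f.restrict U).Nondegenerate)
    {Q₁ Q₂ Q₁' Q₂' : QuadraticForm (ZMod 2) W} (h₁ : Q₁ ∈ Om f s) (h₂ : Q₂ ∈ Om f s)
    (h₁' : Q₁' ∈ Om f s) (h₂' : Q₂' ∈ Om f s) (k₁ : SS Q₁' U = SS Q₁ U)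
    (k₂ : SS Q₂ U = - SS Q₁ U) (k₂' : SS Q₂' U = - SS Q₁' U) :
    ∃ g : W ≃ₗ[ZMod 2] W, Isom f g ∧ (∀ x ∈ U, g x ∈ U) ∧ act g Q₁ = Q₁' ∧
      act g Q₂ = Q₂' := by
  have hfd : FiniteDimensional (ZMod 2) W := Module.Finite.of_finite
  have hc := isCompl_orth hf hU
  have h12 : ∀ x ∈ U, ∀ y ∈ f.orthogonal U, f x y = 0 := fun x hx y hy => orth_apply hf hx hy
  have h21 : ∀ y ∈ f.orthogonal U, ∀ x ∈ U, f y x = 0 := fun y hy x hx => by
    rw [f_symm hf]; exact h12 x hx y hy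
  have hU' := nondeg_of_isCompl hf hnd hc.symm h21
  -- move `Q₁` to `Q₁'`
  obtain ⟨g₀, hg₀, hg₀Y, hg₀Q⟩ : ∃ g : W ≃ₗ[ZMod 2] W, Isom f g ∧ (∀ x ∈ U, g x ∈ U) ∧
      act g Q₁ = Q₁' := by
    obtain ⟨w₁, hw₁, w₂, hw₂, rfl, h3, h4⟩ := same_type_decomp hf hnd hs hc h12 h₁ h₁'
    have hQf := (mem_Om.1 h₁).1
    have h5 : Q₁ w₁ = 0 := by
      have h6 := SS_ne_zero hf hU hQf
      rw [h4] at k₁
      rcases chi_eq (Q₁ w₁) with h7 | h7
      · exact (chi_eq_one_iff _).1 h7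
      · rw [h7] at k₁
        exfalso; apply h6; omega
    refine ⟨(transv hf w₁).trans (transv hf w₂), (transv_isom hf _).trans (transv_isom hf _),
      ?_, ?_⟩
    · intro x hx
      rw [LinearEquiv.trans_apply, transv_of_eq_zero hf]
      · rw [transv_apply]
        exact U.add_mem hx (U.smul_mem _ hw₁)
      · rw [transv_apply]
        exact h12 _ (U.add_mem hx (U.smul_mem _ hw₁)) _ hw₂
    · rw [act_trans, act_transv_zero hf hQf h5, act_transv_zero hf (hQf.shift w₁), shift_shift]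
      rw [shift_apply, ← h3, h5, h12 w₁ hw₁ w₂ hw₂]; rfl
  have h₃ : act g₀ Q₂ ∈ Om f s := act_mem_Om h₂ hg₀
  have hSSact : ∀ Q : QuadraticForm (ZMod 2) W, SS (act g₀ Q) U = SS Q U := by
    intro Q
    have hsymm : ∀ x ∈ U, g₀.symm x ∈ U := fun x hx => by
      rw [← stab_iff hg₀Y, g₀.apply_symm_apply]; exact hx
    rw [SS_eq, SS_eq]
    let e : U ≃ U :=
      { toFun := fun x => ⟨g₀ x, hg₀Y x x.2⟩
        invFun := fun x => ⟨g₀.symm x, hsymm x x.2⟩
        left_inv := fun x => Subtype.ext (g₀.symm_apply_apply x)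
        right_inv := fun x => Subtype.ext (g₀.apply_symm_apply x) }
    rw [← Equiv.sum_comp e (fun u : U => chi (act g₀ Q u))]
    refine Finset.sum_congr rfl fun u _ => ?_
    change chi (Q (g₀.symm (g₀ u))) = chi (Q u)
    rw [g₀.symm_apply_apply]
  have k₃ : SS (act g₀ Q₂) U = - SS Q₁' U := by rw [hSSact, k₂, k₁]
  have hQf := (mem_Om.1 h₁').1
  obtain ⟨u₁, hu₁, u₂, hu₂, hu, h3, h4⟩ := same_type_decomp hf hnd hs hc h12 h₁' h₃
  obtain ⟨v₁, hv₁, v₂, hv₂, hv, h3', h4'⟩ := same_type_decomp hf hnd hs hc h12 h₁' h₂'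
  have hone : ∀ x : W, chi (Q₁' x) * SS Q₁' U = - SS Q₁' U → Q₁' x = 1 := by
    intro x hx
    have h6 := SS_ne_zero hf hU hQf
    rcases chi_eq (Q₁' x) with h7 | h7
    · rw [h7] at hx
      exfalso; apply h6; omega
    · exact (chi_eq_neg_one_iff _).1 h7
  have a1 : Q₁' u₁ = 1 := hone u₁ (by rw [← h4, k₃])
  have a2 : Q₁' u₂ = 1 := by rw [← h3, a1]
  have b1 : Q₁' v₁ = 1 := hone v₁ (by rw [← h4', k₂'])
  have b2 : Q₁' v₂ = 1 := by rw [← h3', b1]
  obtain ⟨g₁, hg₁, hg₁Q, hg₁u, hg₁U, hg₁U'⟩ := ns_trans hf hQf hU hu₁ hv₁ a1 b1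
  obtain ⟨g₂, hg₂, hg₂Q, hg₂u, hg₂U, hg₂U'⟩ := ns_trans hf hQf hU' hu₂ hv₂ a2 b2
  have hg₂fix : ∀ x ∈ U, g₂ x = x := fun x hx => hg₂U' x fun u hu => h12 x hx u hu
  refine ⟨g₀.trans (g₁.trans g₂), hg₀.trans (hg₁.trans hg₂), ?_, ?_, ?_⟩
  · intro x hx
    rw [LinearEquiv.trans_apply, LinearEquiv.trans_apply, hg₂fix _ (hg₁U _ (hg₀Y x hx))]
    exact hg₁U _ (hg₀Y x hx)
  · rw [act_trans, act_trans, hg₀Q, hg₁Q, hg₂Q]
  · rw [act_trans, act_trans, hu, act_shift hg₁, hg₁Q, act_shift hg₂, hg₂Q, map_add g₁, hg₁u,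
      hg₁U' u₂ (fun x hx => h21 u₂ hu₂ x hx), map_add g₂, hg₂u, hg₂fix v₁ hv₁, ← hv]

end

end Pool.Agent.H66.SIT
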