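import Pool.Agent.H66.SIT.SetLevel

/-!
# The families are strongly incidence-transitive codes
-/

open Finset
open scoped Pointwise

namespace Pool.Agent.H66.SIT

variable {W : Type*} [AddCommGroup W] [Module (ZMod 2) W]
variable {f : LinearMap.BilinForm (ZMod 2) W} {n : ℕ} {ε : ℤˣ}

/-- subspaces of smaller dimension -/
theorem exists_sub_finrank [FiniteDimensional (ZMod 2) W] (U : Submodule (ZMod 2) W) {r : ℕ}
    (hr : r ≤ Module.finrank (ZMod 2) U) :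
    ∃ Y : Submodule (ZMod 2) W, Y ≤ U ∧ Module.finrank (ZMod 2) Y = r := by
  let b := Module.finBasis (ZMod 2) U
  let e : Fin r → W := fun i => (b (Fin.castLE hr i) : W)
  have he : LinearIndependent (ZMod 2) e := by
    have h1 : LinearIndependent (ZMod 2) (fun i => ((b i : U) : W)) :=
      b.linearIndependent.map' U.subtype (Submodule.ker_subtype U)
    exact h1.comp (Fin.castLE hr) (Fin.castLE_injective hr)
  refine ⟨Submodule.span (ZMod 2) (Set.range e), ?_, ?_⟩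
  · rw [Submodule.span_le]
    rintro _ ⟨i, rfl⟩
    exact (b (Fin.castLE hr i)).2
  · rw [finrank_span_eq_card he, Fintype.card_fin]

theorem map_mem_iff (g : W ≃ₗ[ZMod 2] W) (Y : Submodule (ZMod 2) W) (x : W) :
    g x ∈ Y.map (g : W →ₗ[ZMod 2] W) ↔ x ∈ Y := by
  constructor
  · intro h
    obtain ⟨m, hm, hmx⟩ := Submodule.mem_map.1 h
    exact g.injective hmx ▸ hm
  · intro h
    exact Submodule.mem_map_of_mem h

theorem symm_mem {g : W ≃ₗ[ZMod 2] W} {Y Y' : Submodule (ZMod 2) W}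
    (h : ∀ x, g x ∈ Y' ↔ x ∈ Y) {x : W} (hx : x ∈ Y') : g.symm x ∈ Y := by
  rw [← h, g.apply_symm_apply]; exact hx

theorem ti_of_map {g : W ≃ₗ[ZMod 2] W} (hg : Isom f g) {Y Y' : Submodule (ZMod 2) W}
    (h : ∀ x, g x ∈ Y' ↔ x ∈ Y) (hY : ∀ x ∈ Y, ∀ y ∈ Y, f x y = 0) :
    ∀ x ∈ Y', ∀ y ∈ Y', f x y = 0 := by
  intro x hx y hy
  rw [← hg.symm x y]
  exact hY _ (symm_mem h hx) _ (symm_mem h hy)

theorem zero_act_iff {g : W ≃ₗ[ZMod 2] W} {Y Y' : Submodule (ZMod 2) W}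
    (h : ∀ x, g x ∈ Y' ↔ x ∈ Y) (Q : QuadraticForm (ZMod 2) W) :
    (∀ y ∈ Y', act g Q y = 0) ↔ ∀ y ∈ Y, Q y = 0 := by
  constructor
  · intro h1 y hy
    have := h1 (g y) ((h y).2 hy)
    rwa [act_apply, g.symm_apply_apply] at this
  · intro h1 y hy
    rw [act_apply]
    exact h1 _ (symm_mem h hy)

theorem nondeg_map (hf : f.IsAlt) {g : W ≃ₗ[ZMod 2] W} (hg : Isom f g)
    {Y Y' : Submodule (ZMod 2) W}
    (h : ∀ x, g x ∈ Y' ↔ x ∈ Y) (hY : (f.restrict Y).Nondegenerate) :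
    (f.restrict Y').Nondegenerate := by
  apply nondeg_of_left (restrict_isAlt hf Y')
  intro x hx
  have h1 : (⟨g.symm x, symm_mem h x.2⟩ : Y) = 0 := by
    apply hY.1
    intro y
    have h2 : f x (g y) = 0 := hx ⟨g y, (h y).2 y.2⟩
    rw [← hg.symm, g.symm_apply_apply] at h2
    exact h2
  have h3 : g.symm x = 0 := congrArg Subtype.val h1
  apply Subtype.ext
  exact (LinearEquiv.map_eq_zero_iff g.symm).1 h3

theorem finrank_of_map {g : W ≃ₗ[ZMod 2] W} {Y Y' : Submodule (ZMod 2) W}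
    (h : ∀ x, g x ∈ Y' ↔ x ∈ Y) :
    Module.finrank (ZMod 2) Y' = Module.finrank (ZMod 2) Y := by
  have h1 : Y' = Y.map (g : W →ₗ[ZMod 2] W) := by
    ext x
    rw [← g.apply_symm_apply x, h, map_mem_iff]
  rw [h1]
  exact LinearEquiv.finrank_map_eq g Y

section fin
variable [Fintype W]

theorem SS_act {g : W ≃ₗ[ZMod 2] W} {Y Y' : Submodule (ZMod 2) W}
    (h : ∀ x, g x ∈ Y' ↔ x ∈ Y) (Q : QuadraticForm (ZMod 2) W) :
    SS (act g Q) Y' = SS Q Y := by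
  rw [SS_eq, SS_eq]
  let e : Y ≃ Y' :=
    { toFun := fun x => ⟨g x, (h x).2 x.2⟩
      invFun := fun x => ⟨g.symm x, symm_mem h x.2⟩
      left_inv := fun x => Subtype.ext (g.symm_apply_apply x)
      right_inv := fun x => Subtype.ext (g.apply_symm_apply x) }
  rw [← Equiv.sum_comp e (fun u : Y' => chi (act g Q u))]
  refine Finset.sum_congr rfl fun u _ => ?_
  change chi (Q (g.symm (g u))) = chi (Q u)
  rw [g.symm_apply_apply]

/-- the codeword attached to a subspace, first family -/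
def isoWord (f : LinearMap.BilinForm (ZMod 2) W) (n : ℕ) (ε : ℤˣ)
    (Y : Submodule (ZMod 2) W) : Set (Omega f n ε) := {Q | ∀ y ∈ Y, Q.1 y = 0}

theorem mem_isoWord {Y : Submodule (ZMod 2) W} {Q : QuadraticForm (ZMod 2) W}
    (hQ : Q ∈ Omega f n ε) : Q ∈ toFin (isoWord f n ε Y) ↔ ∀ y ∈ Y, Q y = 0 := by
  rw [mem_toFin]
  exact ⟨fun ⟨_, h⟩ => h, fun h => ⟨hQ, h⟩⟩

theorem iso_card (hf : f.IsAlt) (hnd : f.Nondegenerate) (hn : 1 ≤ n)
    (hdim : Module.finrank (ZMod 2) W = 2 * n) (hne : (Om f ((ε : ℤ) * 2 ^ n)).Nonempty)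
    {Y : Submodule (ZMod 2) W}
    (hY : ∀ x ∈ Y, ∀ y ∈ Y, f x y = 0) {r : ℕ} (hr : Module.finrank (ZMod 2) Y = r) :
    ((isoWord f n ε Y).ncard : ℤ) = 2 ^ (n - 1) * (2 ^ (n - r) + (ε : ℤ)) := by
  have hnum := mkNum hn hdim ε
  have h1 := card_iso hf hnd hnum (toFin_sub hf hnd hn hdim (isoWord f n ε Y)) hne hY hr
    (fun Q hQ => mem_isoWord ((mem_Omega_iff hf hnd hn hdim).2 hQ))
  rw [card_toFin] at h1
  have hrn : r ≤ n := hr ▸ finrank_ti_le hf hnd hnum hY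
  have h2 : (2 : ℤ) ^ n = 2 * 2 ^ (n - 1) := by
    rw [← pow_succ']; congr 1; omega
  have h3 : (2 : ℤ) ^ n = 2 ^ r * 2 ^ (n - r) := by
    rw [← pow_add]; congr 1; omega
  have h4 : (2 * 2 ^ r : ℤ) ≠ 0 := by positivity
  apply mul_left_cancel₀ h4
  rw [h1]
  have h5 : (2 : ℤ) ^ n * 2 ^ n = 2 * 2 ^ (n - 1) * (2 ^ r * 2 ^ (n - r)) := by
    rw [← h2, ← h3]
  rw [h5]
  rw [h2]
  ring

theorem iso_sit (hf : f.IsAlt) (hnd : f.Nondegenerate) (hn : 1 ≤ n)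
    (hdim : Module.finrank (ZMod 2) W = 2 * n) {k r : ℕ}
    (hr : (ε = 1 ∧ r ≤ n) ∨ (ε = -1 ∧ r + 1 ≤ n))
    (hk : (k : ℤ) = 2 ^ (n - 1) * (2 ^ (n - r) + (ε : ℤ))) (hk0 : 0 < k)
    (hkv : k < Nat.card (Omega f n ε)) : IsSITA (Sp f) k (isoFamily f n ε r) := by
  have hfd : FiniteDimensional (ZMod 2) W := Module.Finite.of_finite
  have hcard : 0 < Nat.card (Omega f n ε) := by omega
  obtain ⟨Q₀⟩ := (Nat.card_pos_iff.1 hcard).1
  have hs := (mkNum hn hdim ε).s_ne_zero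
  have hne : (Om f ((ε : ℤ) * 2 ^ n)).Nonempty :=
    ⟨Q₀.1, (mem_Omega_iff hf hnd hn hdim).1 Q₀.2⟩
  apply isSIT_of (Omega_trans hf hnd hn hdim) hk0 hkv
  · obtain ⟨h1, h2⟩ := Q₀.2
    obtain ⟨⟨U, hU, hQU⟩, _⟩ := h2
    have hrU : r ≤ Module.finrank (ZMod 2) U := by
      rw [hU]
      rcases hr with ⟨h, h'⟩ | ⟨h, h'⟩
      · rw [if_pos h]; exact h'
      · rw [if_neg (by rw [h]; decide)]; omega
    obtain ⟨Y, hYU, hYr⟩ := exists_sub_finrank U hrU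
    refine ⟨isoWord f n ε Y, Y, ?_, hYr, rfl⟩
    intro x hx y hy
    exact (mem_orth hf).1 (ts_le_orth hf h1 hQU (hYU hx)) y (hYU hy)
  · rintro γ ⟨Y, hY, hYr, rfl⟩
    have := iso_card (ε := ε) hf hnd hn hdim hne hY hYr
    rw [← hk] at this
    exact_mod_cast this
  · rintro g γ ⟨Y, hY, hYr, rfl⟩
    have hg : Isom f g.1 := g.2
    refine ⟨Y.map (g.1 : W →ₗ[ZMod 2] W), ti_of_map hg (map_mem_iff g.1 Y) hY, ?_, ?_⟩
    · rw [finrank_of_map (map_mem_iff g.1 Y), hYr]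
    · apply smul_eq_of hf hnd hn hdim
      intro Q hQ
      have hQ' : act g.1 Q ∈ Omega f n ε := (g • (⟨Q, hQ⟩ : Omega f n ε)).2
      change act g.1 Q ∈ toFin (isoWord f n ε _) ↔ Q ∈ toFin (isoWord f n ε Y)
      rw [mem_isoWord hQ, mem_isoWord hQ', zero_act_iff (map_mem_iff g.1 Y)]
  · rintro γ ⟨Y, hY, hYr, rfl⟩ u hu u' hu' δ ⟨Y', hY', hYr', rfl⟩ w hw w' hw'
    obtain ⟨g₀, hg₀, hg₀Y⟩ := exists_isom_ti hf hnd hY hY' (by rw [hYr, hYr'])
    have hmem : ∀ Q : Omega f n ε, Q.1 ∈ Om f ((ε : ℤ) * 2 ^ n) := fun Q =>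
      (mem_Omega_iff hf hnd hn hdim).1 Q.2
    obtain ⟨g₁, hg₁, hg₁Y, h1, h2⟩ := iso_trans hf hnd hs hY'
      (act_mem_Om (hmem u) hg₀) (act_mem_Om (hmem u') hg₀) (hmem w) (hmem w')
      ((zero_act_iff hg₀Y u.1).2 hu) hw (fun h => hu' ((zero_act_iff hg₀Y u'.1).1 h)) hw'
    have hiff : ∀ x, (g₀.trans g₁) x ∈ Y' ↔ x ∈ Y := by
      intro x
      rw [LinearEquiv.trans_apply, stab_iff hg₁Y, hg₀Y]
    refine ⟨toSp (hg₀.trans hg₁), ?_, toSp_smul _ ?_, toSp_smul _ ?_⟩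
    · apply smul_eq_of hf hnd hn hdim
      intro Q hQ
      have hQ' : act (g₀.trans g₁) Q ∈ Omega f n ε :=
        (toSp (hg₀.trans hg₁) • (⟨Q, hQ⟩ : Omega f n ε)).2
      change act (g₀.trans g₁) Q ∈ toFin (isoWord f n ε _) ↔ Q ∈ toFin (isoWord f n ε Y)
      rw [mem_isoWord hQ, mem_isoWord hQ', zero_act_iff hiff]
    · rw [act_trans, h1]
    · rw [act_trans, h2]

/-- the codeword attached to a subspace, second family -/
def ndWord (f : LinearMap.BilinForm (ZMod 2) W) (n : ℕ) (ε : ℤˣ) (a : ℕ)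
    (Y : Submodule (ZMod 2) W) : Set (Omega f n ε) :=
  {Q | HasWittIndex (Q.1.comp Y.subtype) (a - 1)}

theorem mem_ndWord (hf : f.IsAlt) {a : ℕ} (ha : 1 ≤ a) {Y : Submodule (ZMod 2) W}
    (hY : (f.restrict Y).Nondegenerate) (hYa : Module.finrank (ZMod 2) Y = 2 * a)
    {Q : QuadraticForm (ZMod 2) W}
    (hQ : Q ∈ Omega f n ε) : Q ∈ toFin (ndWord f n ε a Y) ↔ SS Q Y = - 2 ^ a := by
  have h1 := hasWittIndex_iff (restrict_isAlt hf Y) hY (IsForm.restrict (f := f) hQ.1 Y) ha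
    hYa (-1)
  rw [if_neg (by decide : ¬ ((-1 : ℤˣ) = 1))] at h1
  have h2 : (((-1 : ℤˣ) : ℤ) * 2 ^ a) = - 2 ^ a := by
    rw [Units.val_neg, Units.val_one]; ring
  rw [h2] at h1
  rw [mem_toFin]
  exact ⟨fun ⟨_, h⟩ => h1.1 h, fun h => ⟨hQ, h1.2 h⟩⟩

theorem nd_card (hf : f.IsAlt) (hnd : f.Nondegenerate) (hn : 1 ≤ n)
    (hdim : Module.finrank (ZMod 2) W = 2 * n) (hne : (Om f ((ε : ℤ) * 2 ^ n)).Nonempty)
    {a : ℕ} (ha : 1 ≤ a) (han : 2 * a ≤ n) {Y : Submodule (ZMod 2) W}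
    (hY : (f.restrict Y).Nondegenerate) (hYa : Module.finrank (ZMod 2) Y = 2 * a) :
    ((ndWord f n ε a Y).ncard : ℤ) = 2 ^ (n - 2) * ((2 ^ a - 1) * (2 ^ (n - a) - (ε : ℤ))) := by
  have hnum := mkNum hn hdim ε
  have h1 := card_nd hf hnd hnum (toFin_sub hf hnd hn hdim (ndWord f n ε a Y)) hne hY hYa
    (b := n - a) (by omega) (δ := -1) (Or.inr rfl)
    (fun Q hQ => by
      rw [mem_ndWord hf ha hY hYa ((mem_Omega_iff hf hnd hn hdim).2 hQ)]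
      constructor
      · intro h; rw [h]; ring
      · intro h; rw [h]; ring)
  rw [card_toFin] at h1
  have h2 : (2 : ℤ) ^ n = 4 * 2 ^ (n - 2) := by
    have : (4 : ℤ) = 2 ^ 2 := by norm_num
    rw [this, ← pow_add]; congr 1; omega
  have h4 : (4 : ℤ) ≠ 0 := by norm_num
  apply mul_left_cancel₀ h4
  rw [h1, h2]
  ring

theorem exists_nd_sub (hf : f.IsAlt) (hnd : f.Nondegenerate) {a : ℕ}
    (ha : 2 * a ≤ Module.finrank (ZMod 2) W) :
    ∃ Y : Submodule (ZMod 2) W, (f.restrict Y).Nondegenerate ∧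
      Module.finrank (ZMod 2) Y = 2 * a := by
  obtain ⟨e, he, hij⟩ := exists_simplex hf hnd (2 * a) ha
  refine ⟨Submodule.span (ZMod 2) (Set.range e), ?_, ?_⟩
  · apply nondeg_of_left (restrict_isAlt hf _)
    intro x hx
    obtain ⟨c, hc⟩ := (Submodule.mem_span_range_iff_exists_fun _).1 x.2
    have h1 : ∀ j, ∑ i, c i + c j = 0 := by
      intro j
      have h2 : f x (e j) = 0 := hx ⟨e j, Submodule.subset_span ⟨j, rfl⟩⟩
      rw [← hc, f_symm hf, map_sum] at h2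
      have h3 : ∀ i, f (e j) (c i • e i) = c i + if i = j then c i else 0 := by
        intro i
        rw [map_smul, smul_eq_mul]
        by_cases hi : i = j
        · rw [if_pos hi, hi, f_self hf, mul_zero, add_self_zmod]
        · rw [if_neg hi, hij j i (Ne.symm hi), mul_one, add_zero]
      rw [Finset.sum_congr rfl fun i _ => h3 i, Finset.sum_add_distrib,
        Finset.sum_ite_eq' univ j, if_pos (mem_univ _)] at h2
      exact h2
    have h4 : ∀ j, c j = ∑ i, c i := by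
      intro j
      have h5 := h1 j
      have := add_self_zmod (∑ i, c i)
      linear_combination h5 - this
    have h6 : ∑ i, c i = 0 := by
      have h7 : ∑ j, c j = ∑ _j : Fin (2 * a), ∑ i, c i := Finset.sum_congr rfl fun j _ => h4 j
      rw [Finset.sum_const, card_univ, Fintype.card_fin, mul_smul, two_smul, add_self_zmod] at h7
      exact h7
    apply Subtype.ext
    rw [← hc]
    apply Finset.sum_eq_zero
    intro i _
    rw [h4 i, h6, zero_smul]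
  · rw [finrank_span_eq_card he, Fintype.card_fin]

theorem nd_sit (hf : f.IsAlt) (hnd : f.Nondegenerate) (hn : 1 ≤ n)
    (hdim : Module.finrank (ZMod 2) W = 2 * n) {k a : ℕ} (ha : 1 ≤ a) (han : 2 * a ≤ n)
    (hk : (k : ℤ) = 2 ^ (n - 2) * ((2 ^ a - 1) * (2 ^ (n - a) - (ε : ℤ)))) (hk0 : 0 < k)
    (hkv : k < Nat.card (Omega f n ε)) : IsSITA (Sp f) k (ndFamily f n ε a) := by
  have hfd : FiniteDimensional (ZMod 2) W := Module.Finite.of_finite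
  have hcard : 0 < Nat.card (Omega f n ε) := by omega
  obtain ⟨Q₀⟩ := (Nat.card_pos_iff.1 hcard).1
  have hs := (mkNum hn hdim ε).s_ne_zero
  have hne : (Om f ((ε : ℤ) * 2 ^ n)).Nonempty :=
    ⟨Q₀.1, (mem_Omega_iff hf hnd hn hdim).1 Q₀.2⟩
  apply isSIT_of (Omega_trans hf hnd hn hdim) hk0 hkv
  · obtain ⟨Y, hY, hYa⟩ := exists_nd_sub hf hnd (a := a) (by omega)
    exact ⟨ndWord f n ε a Y, Y, hY, hYa, rfl⟩
  · rintro γ ⟨Y, hY, hYa, rfl⟩
    have := nd_card (ε := ε) hf hnd hn hdim hne ha han hY hYa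
    rw [← hk] at this
    exact_mod_cast this
  · rintro g γ ⟨Y, hY, hYa, rfl⟩
    have hg : Isom f g.1 := g.2
    have hYa' : Module.finrank (ZMod 2) (Y.map (g.1 : W →ₗ[ZMod 2] W)) = 2 * a := by
      rw [finrank_of_map (map_mem_iff g.1 Y), hYa]
    have hY' := nondeg_map hf hg (map_mem_iff g.1 Y) hY
    refine ⟨Y.map (g.1 : W →ₗ[ZMod 2] W), hY', hYa', ?_⟩
    apply smul_eq_of hf hnd hn hdim
    intro Q hQ
    have hQ' : act g.1 Q ∈ Omega f n ε := (g • (⟨Q, hQ⟩ : Omega f n ε)).2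
    change act g.1 Q ∈ toFin (ndWord f n ε a _) ↔ Q ∈ toFin (ndWord f n ε a Y)
    rw [mem_ndWord hf ha hY hYa hQ, mem_ndWord hf ha hY' hYa' hQ', SS_act (map_mem_iff g.1 Y)]
  · rintro γ ⟨Y, hY, hYa, rfl⟩ u hu u' hu' δ ⟨Y', hY', hYa', rfl⟩ w hw w' hw'
    obtain ⟨g₀, hg₀, hg₀Y⟩ := exists_isom_nd hf hnd hY hY' (by rw [hYa, hYa'])
    have hmem : ∀ Q : Omega f n ε, Q.1 ∈ Om f ((ε : ℤ) * 2 ^ n) := fun Q =>
      (mem_Omega_iff hf hnd hn hdim).1 Q.2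
    have hval : ∀ (Z : Submodule (ZMod 2) W) (hZ : (f.restrict Z).Nondegenerate)
        (hZa : Module.finrank (ZMod 2) Z = 2 * a) (Q : Omega f n ε),
        (Q ∈ ndWord f n ε a Z → SS Q.1 Z = - 2 ^ a) ∧
        (Q ∉ ndWord f n ε a Z → SS Q.1 Z = 2 ^ a) := by
      intro Z hZ hZa Q
      have h1 := mem_ndWord (ε := ε) (n := n) hf ha hZ hZa Q.2
      rw [mem_toFin_val] at h1
      refine ⟨fun h => h1.1 h, fun h => ?_⟩
      rcases SS_pm hf hZ Q.2.1 hZa with h2 | h2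
      · exact h2
      · exact absurd (h1.2 h2) h
    have e1 := (hval Y hY hYa u).1 hu
    have e2 := (hval Y hY hYa u').2 hu'
    have e3 := (hval Y' hY' hYa' w).1 hw
    have e4 := (hval Y' hY' hYa' w').2 hw'
    have e5 : SS (act g₀ u.1) Y' = - 2 ^ a := by rw [SS_act hg₀Y, e1]
    have e6 : SS (act g₀ u'.1) Y' = 2 ^ a := by rw [SS_act hg₀Y, e2]
    obtain ⟨g₁, hg₁, hg₁Y, h1, h2⟩ := nd_trans hf hnd hs hY'
      (act_mem_Om (hmem u) hg₀) (act_mem_Om (hmem u') hg₀) (hmem w) (hmem w')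
      (by rw [e3, e5]) (by rw [e5, e6]; ring) (by rw [e3, e4]; ring)
    have hiff : ∀ x, (g₀.trans g₁) x ∈ Y' ↔ x ∈ Y := by
      intro x
      rw [LinearEquiv.trans_apply, stab_iff hg₁Y, hg₀Y]
    refine ⟨toSp (hg₀.trans hg₁), ?_, toSp_smul _ ?_, toSp_smul _ ?_⟩
    · apply smul_eq_of hf hnd hn hdim
      intro Q hQ
      have hQ' : act (g₀.trans g₁) Q ∈ Omega f n ε :=
        (toSp (hg₀.trans hg₁) • (⟨Q, hQ⟩ : Omega f n ε)).2
      change act (g₀.trans g₁) Q ∈ toFin (ndWord f n ε a _) ↔ Q ∈ toFin (ndWord f n ε a Y)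
      rw [mem_ndWord hf ha hY hYa hQ, mem_ndWord hf ha hY' hYa' hQ', SS_act hiff]
    · rw [act_trans, h1]
    · rw [act_trans, h2]

theorem mem_azFamily_iff (hf : f.IsAlt) (hnd : f.Nondegenerate)
    (hdim : Module.finrank (ZMod 2) W = 2 * 4) {γ : Set (Omega f 4 1)} :
    γ ∈ azFamily f 4 1 ↔ Azy f (toFin γ) := by
  have h16 : ((1 : ℤˣ) : ℤ) * 2 ^ 4 = 16 := by norm_num
  have hO : ∀ Q : QuadraticForm (ZMod 2) W, Q ∈ Omega f 4 1 ↔ Q ∈ Om f 16 := by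
    intro Q
    rw [mem_Omega_iff hf hnd (by norm_num) hdim, h16]
  constructor
  · rintro ⟨h1, h2⟩
    refine ⟨?_, by rw [card_toFin, h1], ?_⟩
    · have := toFin_sub hf hnd (by norm_num) hdim γ
      rwa [h16] at this
    · intro Q₁ k₁ Q₂ k₂ Q₃ k₃ h12 h13 h23 hcon
      obtain ⟨l₁, m₁⟩ := mem_toFin.1 k₁
      obtain ⟨l₂, m₂⟩ := mem_toFin.1 k₂
      obtain ⟨l₃, m₃⟩ := mem_toFin.1 k₃
      exact h2 _ m₁ _ m₂ _ m₃ (fun h => h12 (congrArg Subtype.val h))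
        (fun h => h13 (congrArg Subtype.val h)) (fun h => h23 (congrArg Subtype.val h))
        ((hO _).2 hcon)
  · rintro ⟨_, h1, h2⟩
    refine ⟨by rw [← card_toFin, h1], ?_⟩
    intro Q₁ k₁ Q₂ k₂ Q₃ k₃ h12 h13 h23 hcon
    exact h2 Q₁.1 (mem_toFin_val.2 k₁) Q₂.1 (mem_toFin_val.2 k₂) Q₃.1 (mem_toFin_val.2 k₃)
      (fun h => h12 (Subtype.ext h)) (fun h => h13 (Subtype.ext h))
      (fun h => h23 (Subtype.ext h)) ((hO _).1 hcon)

theorem az_sit (hf : f.IsAlt) (hnd : f.Nondegenerate)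
    (hdim : Module.finrank (ZMod 2) W = 2 * 4)
    (hkv : 10 < Nat.card (Omega f 4 1)) : IsSITA (Sp f) 10 (azFamily f 4 1) := by
  classical
  have h16 : ((1 : ℤˣ) : ℤ) * 2 ^ 4 = 16 := by norm_num
  have hd : Module.finrank (ZMod 2) W = 8 := by rw [hdim]
  have hO : ∀ Q : QuadraticForm (ZMod 2) W, Q ∈ Omega f 4 1 ↔ Q ∈ Om f 16 := by
    intro Q
    rw [mem_Omega_iff hf hnd (by norm_num) hdim, h16]
  have hcard : 0 < Nat.card (Omega f 4 1) := by omega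
  obtain ⟨Q₀⟩ := (Nat.card_pos_iff.1 hcard).1
  apply isSIT_of (Omega_trans hf hnd (by norm_num) hdim) (by norm_num) hkv
  · obtain ⟨A, hA⟩ := exists_azy hf hnd hd (Q₀ := Q₀.1) Q₀.2.1
    refine ⟨{Q | Q.1 ∈ A}, (mem_azFamily_iff hf hnd hdim).2 ?_⟩
    have : toFin {Q : Omega f 4 1 | Q.1 ∈ A} = A := by
      ext Q
      rw [mem_toFin]
      constructor
      · rintro ⟨_, h⟩; exact h
      · intro h; exact ⟨(hO Q).2 (hA.1 h), h⟩
    rw [this]; exact hA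
  · intro γ hγ
    exact hγ.1
  · intro g γ hγ
    refine ⟨by rw [Set.ncard_smul_set]; exact hγ.1, ?_⟩
    intro Q₁ k₁ Q₂ k₂ Q₃ k₃ h12 h13 h23 hcon
    rw [Set.mem_smul_set_iff_inv_smul_mem] at k₁ k₂ k₃
    apply hγ.2 _ k₁ _ k₂ _ k₃ (fun h => h12 (smul_left_cancel _ h))
      (fun h => h13 (smul_left_cancel _ h)) (fun h => h23 (smul_left_cancel _ h))
    have h1 : (g⁻¹ • Q₁).1 + (g⁻¹ • Q₂).1 + (g⁻¹ • Q₃).1
        = (g⁻¹ • (⟨Q₁.1 + Q₂.1 + Q₃.1, hcon⟩ : Omega f 4 1)).1 := by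
      ext x
      rfl
    rw [h1]
    exact (g⁻¹ • (⟨Q₁.1 + Q₂.1 + Q₃.1, hcon⟩ : Omega f 4 1)).2
  · intro γ hγ u hu u' hu' δ hδ w hw w' hw'
    rw [mem_azFamily_iff hf hnd hdim] at hγ hδ
    obtain ⟨g, hg, h1, h2, h3⟩ := az_trans hf hnd hd hγ hδ (mem_toFin_val.2 hu)
      ((hO _).1 u'.2) (fun h => hu' (mem_toFin_val.1 h)) (mem_toFin_val.2 hw)
      ((hO _).1 w'.2) (fun h => hw' (mem_toFin_val.1 h))
    refine ⟨toSp hg, ?_, toSp_smul _ h2, toSp_smul _ h3⟩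
    apply smul_eq_of hf hnd (by norm_num) hdim
    intro Q _
    exact h1 Q

end fin

end Pool.Agent.H66.SIT
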