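import Pool.Agent.H66.SIT.Ctx

/-!
# Orthogonal lines in a connected set closed under transvections
-/

open Finset

namespace Pool.Agent.H66.SIT

variable {W : Type*} [AddCommGroup W] [Module (ZMod 2) W]
variable {f : LinearMap.BilinForm (ZMod 2) W}

theorem one_add_one_Z : (1 : ZMod 2) + 1 = 0 := rfl

/-- `T` is connected with respect to non-orthogonality -/
def Conn (f : LinearMap.BilinForm (ZMod 2) W) (T : Finset W) : Prop :=
  ∀ P : W → Prop, (∀ x ∈ T, ∀ y ∈ T, P x → ¬ P y → f x y = 0) →
    (∀ x ∈ T, P x) ∨ (∀ x ∈ T, ¬ P x)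

section
variable (hf : f.IsAlt) {T : Finset W}
  (hcl : ∀ x ∈ T, ∀ y ∈ T, f x y = 1 → x + y ∈ T)
include hf hcl

theorem line_claim1 {x y z : W} (hx : x ∈ T) (hz : z ∈ T)
    (hxy : f x y = 0) (hxyT : x + y ∈ T) (hzy : f z y = 0) (hzx : f z x = 1) : z + y ∈ T := by
  have h1 : f z (x + y) = 1 := by rw [map_add, hzx, hzy]; rfl
  have h2 := hcl z hz _ hxyT h1
  have h3 : f (z + (x + y)) x = 1 := by
    simp only [map_add, LinearMap.add_apply]
    rw [hzx, f_self hf, f_symm hf y x, hxy]; rfl
  have h4 := hcl _ h2 x hx h3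
  have h5 : z + (x + y) + x = z + y := by
    have : z + (x + y) + x = z + y + (x + x) := by abel
    rw [this, add_self_W, add_zero]
  rwa [h5] at h4

theorem line_claim2 {x y k : W} (hx : x ∈ T) (hk : k ∈ T)
    (hxy : f x y = 0) (hxyT : x + y ∈ T) (hky : f k y = 0) (hkyT : k + y ∉ T) : f k x = 0 := by
  rcases zmod2_cases (f k x) with h | h
  · exact h
  · exact absurd (line_claim1 hf hcl hx hk hxy hxyT hky h) hkyT

theorem line_claim3 {x y k z : W} (hx : x ∈ T) (hk : k ∈ T) (hz : z ∈ T)
    (hxy : f x y = 0) (hxyT : x + y ∈ T) (hky : f k y = 0) (hkyT : k + y ∉ T)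
    (hzx : f z x = 1) (hzk : f z k = 1) : f z y = 1 := by
  rcases zmod2_cases (f z y) with h | h
  · have h1 := line_claim1 hf hcl hx hz hxy hxyT h hzx
    have h2 := line_claim2 hf hcl hz hk h h1 hky hkyT
    rw [f_symm hf, hzk] at h2
    exact absurd h2 (by decide)
  · exact h

variable (hspan : ∀ u, (∀ x ∈ T, f x u = 0) → u = 0) (hconn : Conn f T)
  {a : ℕ} (ha : a ≠ 0) (hcard : ∀ w ∈ T, (T.filter (fun x => f x w = 1)).card = a)
include hspan hconn ha hcard

theorem line_claim4 {k u : W} (hk : k ∈ T) (hu : ∀ z ∈ T, f z k = 1 → f z u = 0) : u = 0 := by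
  set U : Submodule (ZMod 2) W := Submodule.span (ZMod 2) {z | z ∈ T ∧ f z k = 1} with hU
  have hne : (T.filter (fun x => f x k = 1)).Nonempty := by
    rw [← Finset.card_pos, hcard k hk]; omega
  obtain ⟨z0, hz0⟩ := hne
  rw [mem_filter] at hz0
  have hz0U : z0 ∈ U := Submodule.subset_span hz0
  have key : ∀ y ∈ T, y ∉ U → ∀ x ∈ U, f x y = 0 := by
    intro y hy hyU x hx
    have h1 : f y k = 0 := by
      rw [← ne_one_iff]
      intro h
      exact hyU (Submodule.subset_span ⟨hy, h⟩)
    have h2 : ∀ z, z ∈ T ∧ f z k = 1 → f z y = 0 := by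
      rintro z ⟨hz, hzk⟩
      rw [← ne_one_iff]
      intro h
      have h3 := hcl z hz y hy h
      have h4 : f (z + y) k = 1 := by rw [map_add, LinearMap.add_apply, hzk, h1]; rfl
      have h5 : z + y ∈ U := Submodule.subset_span ⟨h3, h4⟩
      have h6 : z ∈ U := Submodule.subset_span ⟨hz, hzk⟩
      have h7 : y = (z + y) + z := by
        have : z + y + z = y + (z + z) := by abel
        rw [this, add_self_W, add_zero]
      apply hyU
      rw [h7]
      exact U.add_mem h5 h6
    induction hx using Submodule.span_induction with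
    | mem z hz => exact h2 z hz
    | zero => simp
    | add x x' _ _ h h' => rw [map_add, LinearMap.add_apply, h, h']; rfl
    | smul c x _ h => rw [map_smul, LinearMap.smul_apply, h, smul_zero]
  rcases hconn (fun z => z ∈ U) (fun x hx y hy hxU hyU => key y hy hyU x hxU) with h | h
  · apply hspan
    intro x hx
    have hxU := h x hx
    clear hx
    induction hxU using Submodule.span_induction with
    | mem z hz => exact hu z hz.1 hz.2
    | zero => simp
    | add x x' _ _ h h' => rw [map_add, LinearMap.add_apply, h, h']; rfl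
    | smul c x _ h => rw [map_smul, LinearMap.smul_apply, h, smul_zero]
  · exact absurd hz0U (h z0 hz0.1)

theorem no_mixed {x y k : W} (hx : x ∈ T) (hy : y ∈ T) (hk : k ∈ T)
    (hxy : f x y = 0) (hxyT : x + y ∈ T) (hky : f k y = 0) (hkyT : k + y ∉ T) (hne : k ≠ y)
    (h0 : (0 : W) ∉ T) : False := by
  have c1 := @line_claim1 _ _ _ f hf T hcl
  have c2 := @line_claim2 _ _ _ f hf T hcl
  have c3 := @line_claim3 _ _ _ f hf T hcl
  have c4 := @line_claim4 _ _ _ f hf T hcl hspan hconn a ha hcard
  have hkx : f k x = 0 := c2 hx hk hxy hxyT hky hkyT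
  have e1 : ∀ p q : W, p + q + p = q := by
    intro p q
    have : p + q + p = q + (p + p) := by abel
    rw [this, add_self_W, add_zero]
  have hnotboth : ¬ (x + k ∈ T ∧ x + y + k ∈ T) := by
    rintro ⟨h1, h2⟩
    have hxk_y : f (x + k) y = 0 := by rw [map_add, LinearMap.add_apply, hxy, hky]; rfl
    have hxk_yT : x + k + y ∈ T := by
      have : x + k + y = x + y + k := by abel
      rw [this]; exact h2
    have h5 : ∀ z ∈ T, f z k = 1 → f z (k + y) = 0 := by
      intro z hz hzk
      have hzy : f z y = 1 := by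
        rcases zmod2_cases (f z x) with h | h
        · have h3 : f z (x + k) = 1 := by rw [map_add, h, hzk]; rfl
          exact c3 h1 hk hz hxk_y hxk_yT hky hkyT h3 hzk
        · exact c3 hx hk hz hxy hxyT hky hkyT h hzk
      rw [map_add, hzk, hzy]; rfl
    have h6 := c4 hk h5
    exact hne (add_eq_zero_W.1 h6)
  -- if both are not in `T`
  have hnotneither : x + k ∈ T ∨ x + y + k ∈ T := by
    by_contra hcon
    push Not at hcon
    obtain ⟨h1, h2⟩ := hcon
    have hx0 : x = 0 := by
      apply c4 hk
      intro z hz hzk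
      rw [← ne_one_iff]
      intro hzx
      have hzy := c3 hx hk hz hxy hxyT hky hkyT hzx hzk
      -- centre `x + y` with line element `x`
      have hx_xy : f x (x + y) = 0 := by rw [map_add, f_self hf, hxy]; rfl
      have hx_xyT : x + (x + y) ∈ T := by
        have : x + (x + y) = y := by rw [← add_assoc, add_self_W, zero_add]
        rw [this]; exact hy
      have hk_xy : f k (x + y) = 0 := by rw [map_add, hkx, hky]; rfl
      have hk_xyT : k + (x + y) ∉ T := by
        rw [add_comm]; exact h2
      have := c3 hx hk hz hx_xy hx_xyT hk_xy hk_xyT hzx hzk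
      rw [map_add, hzx, hzy] at this
      exact absurd this (by decide)
    rw [hx0] at hx
    exact h0 hx
  -- general contradiction when `x + k ∈ T` and `x + y + k ∉ T`
  have final : ∀ x : W, x ∈ T → f x y = 0 → x + y ∈ T → x + k ∈ T → x + y + k ∉ T → False := by
    intro x hx hxy hxyT h1 h2
    have hkx : f k x = 0 := c2 hx hk hxy hxyT hky hkyT
    have hdisj : ∀ z ∈ T, f z x = 1 → f z k = 1 → False := by
      intro z hz hzx hzk
      have hzy := c3 hx hk hz hxy hxyT hky hkyT hzx hzk
      have hx_xy : f x (x + y) = 0 := by rw [map_add, f_self hf, hxy]; rfl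
      have hx_xyT : x + (x + y) ∈ T := by
        have : x + (x + y) = y := by rw [← add_assoc, add_self_W, zero_add]
        rw [this]; exact hy
      have hk_xy : f k (x + y) = 0 := by rw [map_add, hkx, hky]; rfl
      have hk_xyT : k + (x + y) ∉ T := by
        rw [add_comm]; exact h2
      have := c3 hx hk hz hx_xy hx_xyT hk_xy hk_xyT hzx hzk
      rw [map_add, hzx, hzy] at this
      exact absurd this (by decide)
    classical
    have hU : T.filter (fun z => f z (x + k) = 1)
        = T.filter (fun z => f z x = 1) ∪ T.filter (fun z => f z k = 1) := by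
      ext z
      simp only [mem_union, mem_filter]
      constructor
      · rintro ⟨hz, h⟩
        rw [map_add] at h
        rcases zmod2_cases (f z x) with h3 | h3
        · right
          refine ⟨hz, ?_⟩
          rw [h3, zero_add] at h; exact h
        · left; exact ⟨hz, h3⟩
      · rintro (⟨hz, h⟩ | ⟨hz, h⟩)
        · refine ⟨hz, ?_⟩
          have h4 : f z k = 0 := by
            rw [← ne_one_iff]; exact fun h5 => hdisj z hz h h5
          rw [map_add, h, h4]; rfl
        · refine ⟨hz, ?_⟩
          have h4 : f z x = 0 := by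
            rw [← ne_one_iff]; exact fun h5 => hdisj z hz h5 h
          rw [map_add, h, h4]; rfl
    have hD : Disjoint (T.filter (fun z => f z x = 1)) (T.filter (fun z => f z k = 1)) := by
      rw [Finset.disjoint_left]
      intro z h3 h4
      rw [mem_filter] at h3 h4
      exact hdisj z h3.1 h3.2 h4.2
    have h7 := hcard _ h1
    rw [hU, Finset.card_union_of_disjoint hD, hcard x hx, hcard k hk] at h7
    omega
  rcases hnotneither with h1 | h1
  · have h2 : x + y + k ∉ T := fun h => hnotboth ⟨h1, h⟩
    exact final x hx hxy hxyT h1 h2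
  · have h2 : x + k ∉ T := fun h => hnotboth ⟨h, h1⟩
    have h3 : x + y + y ∈ T := by rw [add_add_cancel_W]; exact hx
    have h4 : f (x + y) y = 0 := by rw [map_add, LinearMap.add_apply, hxy, f_self hf]; rfl
    refine final (x + y) hxyT h4 h3 h1 ?_
    rw [add_add_cancel_W]; exact h2

/-- If every vector of `T` is on an orthogonal line contained in `T` then `T ∪ {0}` is
closed under addition. -/
theorem closed_of_lines (h0 : (0 : W) ∉ T)
    (hline : ∀ y ∈ T, ∃ x ∈ T, f x y = 0 ∧ x + y ∈ T) :
    ∀ x ∈ T, ∀ y ∈ T, x ≠ y → x + y ∈ T := by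
  intro k hk y hy hne
  rcases zmod2_cases (f k y) with h | h
  · by_contra hcon
    obtain ⟨x, hx, hxy, hxyT⟩ := hline y hy
    exact no_mixed hf hcl hspan hconn ha hcard hx hy hk hxy hxyT h hcon hne h0
  · exact hcl k hk y hy h

end

end Pool.Agent.H66.SIT
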