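import Pool.Agent.H66.SIT.Families

/-!
# The classification theorem
-/

open Finset
open scoped Pointwise

namespace Pool.Agent.H66.SIT

variable {W : Type*} [AddCommGroup W] [Module (ZMod 2) W]
variable {f : LinearMap.BilinForm (ZMod 2) W} {n : ℕ} {ε : ℤˣ}

/-- the family of complements -/
def complFamily (f : LinearMap.BilinForm (ZMod 2) W) (n : ℕ) (ε : ℤˣ) :
    Set (Set (Omega f n ε)) := {γ | γᶜ ∈ isoFamily f n ε 1}

theorem compl_sit [Fintype W] (hf : f.IsAlt) (hnd : f.Nondegenerate) (hn : 1 ≤ n)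
    (hdim : Module.finrank (ZMod 2) W = 2 * n) {k : ℕ}
    (hk : (k : ℤ) = 2 ^ (2 * n - 2)) (hk0 : 0 < k)
    (hkv : k < Nat.card (Omega f n 1)) : IsSITA (Sp f) k (complFamily f n 1) := by
  have hcard : 0 < Nat.card (Omega f n 1) := by omega
  obtain ⟨Q₀⟩ := (Nat.card_pos_iff.1 hcard).1
  have hs := (mkNum hn hdim 1).s_ne_zero
  have h1 := card_Om hf hnd hs ((mem_Omega_iff hf hnd hn hdim).1 Q₀.2)
  rw [(mkNum hn hdim 1).hW2] at h1
  have h2 := card_Omega (ε := 1) hf hnd hn hdim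
  have h3 : (2 : ℤ) ^ n = 2 * 2 ^ (n - 1) := by
    rw [← pow_succ']; congr 1; omega
  have h4 : (k : ℤ) = 2 ^ (n - 1) * 2 ^ (n - 1) := by
    rw [hk, ← pow_add]; congr 1; omega
  have h5 : ((Nat.card (Omega f n 1) - k : ℕ) : ℤ)
      = 2 ^ (n - 1) * (2 ^ (n - 1) + ((1 : ℤˣ) : ℤ)) := by
    rw [Nat.cast_sub hkv.le, h4, Units.val_one]
    rw [← h2, Units.val_one, h3] at h1
    linarith
  have h6 := iso_sit (ε := 1) (r := 1) hf hnd hn hdim (Or.inl ⟨rfl, hn⟩) h5 (by omega) (by omega)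
  have h7 := h6.compl (by omega)
  have h8 : Nat.card (Omega f n 1) - (Nat.card (Omega f n 1) - k) = k := by omega
  rw [h8] at h7
  exact h7

theorem main (hf : f.IsAlt) (hnd : f.Nondegenerate) (hn : 1 ≤ n)
    (hdim : Module.finrank (ZMod 2) W = 2 * n) {k : ℕ} (hk3 : 3 ≤ k)
    (hkv : 2 * k ≤ Nat.card (Omega f n ε)) (C : Set (Set (Omega f n ε))) :
    IsSITA (Sp f) k C ↔
      (∃ r : ℕ, ((ε = 1 ∧ 2 ≤ r ∧ r ≤ n) ∨ (ε = -1 ∧ 1 ≤ r ∧ r ≤ n - 1)) ∧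
        (k : ℤ) = 2 ^ (n - 1) * (2 ^ (n - r) + (ε : ℤ)) ∧ C = isoFamily f n ε r) ∨
      (ε = 1 ∧ (k : ℤ) = 2 ^ (2 * n - 2) ∧ C = {γ | γᶜ ∈ isoFamily f n ε 1}) ∨
      (∃ a : ℕ, 1 ≤ a ∧ 2 * a ≤ n ∧
        (k : ℤ) = 2 ^ (n - 2) * ((2 ^ a - 1) * (2 ^ (n - a) - (ε : ℤ))) ∧
        C = ndFamily f n ε a) ∨
      (n = 4 ∧ ε = 1 ∧ k = 10 ∧ C = azFamily f n ε) := by
  have hfd : FiniteDimensional (ZMod 2) W := Module.finite_of_finrank_pos (by omega)
  have hfin : Finite W := Module.finite_of_finite (ZMod 2)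
  haveI : Fintype W := Fintype.ofFinite W
  have hk0 : 0 < k := by omega
  have hkv' : k < Nat.card (Omega f n ε) := by omega
  have hcard : 0 < Nat.card (Omega f n ε) := by omega
  obtain ⟨Q₀⟩ := (Nat.card_pos_iff.1 hcard).1
  have hne : (Om f ((ε : ℤ) * 2 ^ n)).Nonempty :=
    ⟨Q₀.1, (mem_Omega_iff hf hnd hn hdim).1 Q₀.2⟩
  have hcO := card_Omega (ε := ε) hf hnd hn hdim
  constructor
  · intro hC
    obtain ⟨γ, hγ⟩ := hC.isCode.2.nonempty
    have hγk := hC.isCode.1 γ hγ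
    have c := hC.ctx hf hnd hn hdim hk0 hkv' hγ
    have hct := card_toFin γ
    have hcl := c.classify hf hnd (mkNum hn hdim ε) (by rw [hct, hγk]; exact hk3)
      (by rw [hct, hγk, ← hcO]; exact hkv)
    rcases hcl with ⟨r, Y, hr, hY, hYr, hQ⟩ | ⟨hε, Y, hY, hY1, hQ⟩ | ⟨a, U, ha, han, hU, hUa, hQ⟩ |
      ⟨hn4, hε, hc10, hQ⟩
    · left
      have hγY : γ = isoWord f n ε Y := by
        ext Q
        rw [← mem_toFin_val, hQ Q.1 ((mem_Omega_iff hf hnd hn hdim).1 Q.2)]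
        rfl
      have hkr : (k : ℤ) = 2 ^ (n - 1) * (2 ^ (n - r) + (ε : ℤ)) := by
        rw [← iso_card (ε := ε) hf hnd hn hdim hne hY hYr, ← hγY, hγk]
      have hr' : (ε = 1 ∧ 2 ≤ r ∧ r ≤ n) ∨ (ε = -1 ∧ 1 ≤ r ∧ r ≤ n - 1) := by
        rcases hr with ⟨h1, h2, h3⟩ | ⟨h1, h2, h3⟩
        · exact Or.inl ⟨(units_eq_one_iff ε).1 h1, h2, h3⟩
        · exact Or.inr ⟨(units_eq_neg_one_iff ε).1 h1, h2, by omega⟩
      refine ⟨r, hr', hkr, ?_⟩
      apply hC.eq_of_mem (iso_sit (r := r) hf hnd hn hdim ?_ hkr hk0 hkv') hγ ?_ hk0 hkv'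
      · rcases hr' with ⟨h1, h2, h3⟩ | ⟨h1, h2, h3⟩
        · exact Or.inl ⟨h1, h3⟩
        · exact Or.inr ⟨h1, by omega⟩
      · exact ⟨Y, hY, hYr, hγY⟩
    · right; left
      rw [units_eq_one_iff] at hε
      subst hε
      have hγY : γᶜ = isoWord f n 1 Y := by
        ext Q
        rw [Set.mem_compl_iff, ← mem_toFin_val, hQ Q.1 ((mem_Omega_iff hf hnd hn hdim).1 Q.2)]
        rfl
      have hs := (mkNum hn hdim 1).s_ne_zero
      have h1 := card_Om hf hnd hs ((mem_Omega_iff hf hnd hn hdim).1 Q₀.2)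
      rw [(mkNum hn hdim 1).hW2, ← hcO] at h1
      have h2 := iso_card (ε := 1) hf hnd hn hdim hne hY hY1
      rw [← hγY] at h2
      have h3 := Set.ncard_add_ncard_compl γ
      rw [hγk] at h3
      have h4 : (2 : ℤ) ^ n = 2 * 2 ^ (n - 1) := by
        rw [← pow_succ']; congr 1; omega
      have h5 : (k : ℤ) = 2 ^ (2 * n - 2) := by
        have h6 : (2 : ℤ) ^ (2 * n - 2) = 2 ^ (n - 1) * 2 ^ (n - 1) := by
          rw [← pow_add]; congr 1; omega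
        have h7 : (k : ℤ) + ((γᶜ).ncard : ℤ) = Nat.card (Omega f n 1) := by exact_mod_cast h3
        rw [h2] at h7
        rw [h6]
        rw [Units.val_one, h4] at h1
        rw [Units.val_one] at h7
        linarith
      refine ⟨rfl, h5, ?_⟩
      exact hC.eq_of_mem (compl_sit hf hnd hn hdim h5 hk0 hkv') hγ ⟨Y, hY, hY1, hγY⟩ hk0 hkv'
    · right; right; left
      have hγY : γ = ndWord f n ε a U := by
        ext Q
        rw [← mem_toFin_val, hQ Q.1 ((mem_Omega_iff hf hnd hn hdim).1 Q.2),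
          ← mem_ndWord (ε := ε) (n := n) hf ha hU hUa Q.2, mem_toFin_val]
      have hkr : (k : ℤ) = 2 ^ (n - 2) * ((2 ^ a - 1) * (2 ^ (n - a) - (ε : ℤ))) := by
        rw [← nd_card (ε := ε) hf hnd hn hdim hne ha han hU hUa, ← hγY, hγk]
      refine ⟨a, ha, han, hkr, ?_⟩
      exact hC.eq_of_mem (nd_sit hf hnd hn hdim ha han hkr hk0 hkv') hγ ⟨U, hU, hUa, hγY⟩
        hk0 hkv'
    · right; right; right
      rw [units_eq_one_iff] at hε
      subst hε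
      subst hn4
      have hk10 : k = 10 := by rw [← hγk, ← hct, hc10]
      subst hk10
      refine ⟨rfl, rfl, rfl, ?_⟩
      apply hC.eq_of_mem (az_sit hf hnd hdim hkv') hγ ?_ hk0 hkv'
      have h16 : ((1 : ℤˣ) : ℤ) * 2 ^ 4 = 16 := by norm_num
      rw [mem_azFamily_iff hf hnd hdim]
      rw [h16] at hQ
      refine ⟨?_, hc10, hQ⟩
      have := toFin_sub hf hnd hn hdim γ
      rwa [h16] at this
  · rintro (⟨r, hr, hkr, rfl⟩ | ⟨rfl, hkr, rfl⟩ | ⟨a, ha, han, hkr, rfl⟩ | ⟨rfl, rfl, rfl, rfl⟩)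
    · apply iso_sit hf hnd hn hdim ?_ hkr hk0 hkv'
      rcases hr with ⟨h1, h2, h3⟩ | ⟨h1, h2, h3⟩
      · exact Or.inl ⟨h1, h3⟩
      · exact Or.inr ⟨h1, by omega⟩
    · exact compl_sit hf hnd hn hdim hkr hk0 hkv'
    · exact nd_sit hf hnd hn hdim ha han hkr hk0 hkv'
    · exact az_sit hf hnd hdim hkv'

end Pool.Agent.H66.SIT
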