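import Pool.Agent.H66.SIT.Trans

/-!
# The set of all forms of a given type, as a `Finset`; Fourier sums
-/

open Finset

namespace Pool.Agent.H66.SIT

variable {W : Type*} [AddCommGroup W] [Module (ZMod 2) W]
variable {f : LinearMap.BilinForm (ZMod 2) W}

instance finiteForms [Finite W] : Finite (QuadraticForm (ZMod 2) W) :=
  DFunLike.finite _

noncomputable instance fintypeForms [Finite W] : Fintype (QuadraticForm (ZMod 2) W) :=
  Fintype.ofFinite _

variable [Fintype W]

open Classical in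
/-- all forms polarising to `f` with character sum `s` -/
noncomputable def Om (f : LinearMap.BilinForm (ZMod 2) W) (s : ℤ) :
    Finset (QuadraticForm (ZMod 2) W) :=
  univ.filter (fun Q => IsForm f Q ∧ S Q = s)

theorem mem_Om {s : ℤ} {Q : QuadraticForm (ZMod 2) W} : Q ∈ Om f s ↔ IsForm f Q ∧ S Q = s := by
  unfold Om
  simp

/-- shifting within the same type -/
theorem shift_mem_Om (hf : f.IsAlt) {s : ℤ} {Q : QuadraticForm (ZMod 2) W} (h : Q ∈ Om f s)
    {w : W} (hw : Q w = 0) : shift f Q w ∈ Om f s := by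
  rw [mem_Om] at h ⊢
  refine ⟨h.1.shift w, ?_⟩
  rw [S_shift hf h.1, hw, h.2]; simp

theorem eq_zero_of_shift_mem (hf : f.IsAlt) {s : ℤ} (hs : s ≠ 0)
    {Q : QuadraticForm (ZMod 2) W} (h : Q ∈ Om f s)
    {w : W} (h' : shift f Q w ∈ Om f s) : Q w = 0 := by
  rw [mem_Om] at h h'
  have h1 := h'.2
  rw [S_shift hf h.1, h.2] at h1
  rcases chi_eq (Q w) with h2 | h2
  · exact (chi_eq_one_iff _).1 h2
  · rw [h2] at h1
    exfalso; apply hs; omega

theorem act_mem_Om {s : ℤ} {Q : QuadraticForm (ZMod 2) W} (h : Q ∈ Om f s)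
    {g : W ≃ₗ[ZMod 2] W} (hg : Isom f g) : act g Q ∈ Om f s := by
  rw [mem_Om] at h ⊢
  exact ⟨h.1.act hg, by rw [S_act, h.2]⟩

theorem exists_shift_Om (hnd : f.Nondegenerate) {s : ℤ}
    {Q Q' : QuadraticForm (ZMod 2) W} (h : Q ∈ Om f s) (h' : Q' ∈ Om f s) :
    ∃ u, Q' = shift f Q u := by
  have : FiniteDimensional (ZMod 2) W := Module.Finite.of_finite
  exact exists_shift hnd (mem_Om.1 h).1 (mem_Om.1 h').1

/-- `Om` in terms of a base form -/
theorem sum_Om_base (hf : f.IsAlt) (hnd : f.Nondegenerate) {s : ℤ} (hs : s ≠ 0)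
    {P : QuadraticForm (ZMod 2) W} (hP : P ∈ Om f s) (g : QuadraticForm (ZMod 2) W → ℤ) :
    ∑ Q ∈ Om f s, g Q = ∑ u ∈ univ.filter (fun u => P u = 0), g (shift f P u) := by
  classical
  symm
  apply Finset.sum_bij (fun u _ => shift f P u)
  · intro u hu
    simp only [mem_filter, mem_univ, true_and] at hu
    exact shift_mem_Om hf hP hu
  · intro u _ v _ h
    exact shift_inj hnd h
  · intro Q hQ
    obtain ⟨u, rfl⟩ := exists_shift_Om hnd hP hQ
    refine ⟨u, ?_, rfl⟩
    simp only [mem_filter, mem_univ, true_and]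
    exact eq_zero_of_shift_mem hf hs hP hQ
  · intro u _; rfl

theorem sum_Om_chi (hf : f.IsAlt) (hnd : f.Nondegenerate) {s : ℤ} (hs : s ≠ 0)
    {P : QuadraticForm (ZMod 2) W} (hP : P ∈ Om f s) (w : W) (hw : w ≠ 0) :
    2 * ∑ Q ∈ Om f s, chi (Q w) = s := by
  classical
  rw [sum_Om_base hf hnd hs hP]
  have hPf := (mem_Om.1 hP).1
  have hPs := (mem_Om.1 hP).2
  rw [Finset.sum_filter, Finset.mul_sum]
  have h1 : ∀ u : W, 2 * (if P u = 0 then chi (shift f P u w) else 0)
      = chi (P w) * chi (f w u) + chi (P (u + w)) := by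
    intro u
    rw [hPf, chi_add, chi_add, shift_apply, chi_add, f_symm hf u w]
    rcases zmod2_cases (P u) with h | h
    · rw [if_pos h, h]; simp; ring
    · have : ¬ (P u = 0) := by rw [h]; decide
      rw [if_neg this, h]; simp
  rw [Finset.sum_congr rfl (fun u _ => h1 u), Finset.sum_add_distrib, ← Finset.mul_sum,
    sum_chi_f hnd, if_neg hw]
  have h2 : ∑ u, chi (P (u + w)) = S P := Equiv.sum_comp (Equiv.addRight w) (fun w => chi (P w))
  rw [h2, hPs]; ring

theorem card_Om (hf : f.IsAlt) (hnd : f.Nondegenerate) {s : ℤ} (hs : s ≠ 0)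
    {P : QuadraticForm (ZMod 2) W} (hP : P ∈ Om f s) :
    2 * ((Om f s).card : ℤ) = Fintype.card W + s := by
  classical
  have h0 : ((Om f s).card : ℤ) = ∑ Q ∈ Om f s, 1 := by simp
  rw [h0, sum_Om_base hf hnd hs hP, Finset.sum_filter, Finset.mul_sum]
  have hPs := (mem_Om.1 hP).2
  have h1 : ∀ u : W, 2 * (if P u = 0 then (1 : ℤ) else 0) = 1 + chi (P u) := by
    intro u
    rcases zmod2_cases (P u) with h | h
    · rw [if_pos h, h]; simp
    · have : ¬ (P u = 0) := by rw [h]; decide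
      rw [if_neg this, h]; simp
  rw [Finset.sum_congr rfl (fun u _ => h1 u), Finset.sum_add_distrib, ← hPs]
  simp [S]

/-- a value is zero for half of the vectors -/
theorem card_perp (hnd : f.Nondegenerate) (w : W) (hw : w ≠ 0) [DecidableEq W] :
    2 * ((univ.filter (fun u => f w u = 0)).card : ℤ) = Fintype.card W := by
  have h0 : ((univ.filter (fun u => f w u = 0)).card : ℤ)
      = ∑ u ∈ univ.filter (fun u => f w u = 0), 1 := by simp
  rw [h0, Finset.sum_filter, Finset.mul_sum]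
  have h1 : ∀ u : W, 2 * (if f w u = 0 then (1 : ℤ) else 0) = 1 + chi (f w u) := by
    intro u
    rcases zmod2_cases (f w u) with h | h
    · rw [if_pos h, h]; simp
    · have : ¬ (f w u = 0) := by rw [h]; decide
      rw [if_neg this, h]; simp
  rw [Finset.sum_congr rfl (fun u _ => h1 u), Finset.sum_add_distrib, sum_chi_f hnd, if_neg hw]
  simp

/-- the Fourier transform of a set of vectors -/
def hT (f : LinearMap.BilinForm (ZMod 2) W) (T : Finset W) (w : W) : ℤ := ∑ x ∈ T, chi (f x w)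

/-- the character sum over a set of forms -/
def FF (A : Finset (QuadraticForm (ZMod 2) W)) (w : W) : ℤ := ∑ Q ∈ A, chi (Q w)

theorem hT_zero (T : Finset W) : hT f T 0 = T.card := by
  simp [hT]

theorem FF_zero (A : Finset (QuadraticForm (ZMod 2) W)) : FF A 0 = A.card := by
  simp [FF]

/-- `∑_w hT(w) χ(f(w,y)) = |W| 1_T(y)` -/
theorem sum_hT (hf : f.IsAlt) (hnd : f.Nondegenerate) (T : Finset W) (y : W) [DecidableEq W] :
    ∑ w, hT f T w * chi (f w y) = if y ∈ T then (Fintype.card W : ℤ) else 0 := by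
  unfold hT
  simp_rw [Finset.sum_mul]
  rw [Finset.sum_comm]
  have h1 : ∀ x ∈ T, ∑ w, chi (f x w) * chi (f w y) = if y = x then (Fintype.card W : ℤ) else 0 := by
    intro x _
    have h2 : ∀ w, chi (f x w) * chi (f w y) = chi (f (x + y) w) := by
      intro w
      rw [← chi_add, map_add, LinearMap.add_apply, f_symm hf w y]
    simp_rw [h2]
    rw [sum_chi_f hnd]
    have h3 : (x + y = 0) ↔ (y = x) := by rw [add_eq_zero_W]; exact eq_comm
    simp_rw [h3]
  rw [Finset.sum_congr rfl h1, Finset.sum_ite_eq]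

/-- `∑_w hT(w)^2 χ(f(w,y)) = |W| #{x ∈ T : x + y ∈ T}` -/
theorem sum_hT_sq (hf : f.IsAlt) (hnd : f.Nondegenerate) (T : Finset W) (y : W) [DecidableEq W] :
    ∑ w, hT f T w * hT f T w * chi (f w y)
      = (Fintype.card W : ℤ) * (T.filter (fun x => x + y ∈ T)).card := by
  have h0 : ∀ w, hT f T w * hT f T w * chi (f w y)
      = ∑ x ∈ T, ∑ x' ∈ T, chi (f (x + x' + y) w) := by
    intro w
    unfold hT
    rw [Finset.sum_mul_sum, Finset.sum_mul]
    refine Finset.sum_congr rfl fun x _ => ?_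
    rw [Finset.sum_mul]
    refine Finset.sum_congr rfl fun x' _ => ?_
    rw [← chi_add, ← chi_add, map_add, LinearMap.add_apply, map_add, LinearMap.add_apply,
      f_symm hf w y]
  simp_rw [h0]
  rw [Finset.sum_comm]
  have h1 : ∀ x ∈ T, ∑ w, ∑ x' ∈ T, chi (f (x + x' + y) w)
      = if x + y ∈ T then (Fintype.card W : ℤ) else 0 := by
    intro x _
    rw [Finset.sum_comm]
    have h2 : ∀ x' ∈ T, ∑ w, chi (f (x + x' + y) w)
        = if x + y = x' then (Fintype.card W : ℤ) else 0 := by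
      intro x' _
      rw [sum_chi_f hnd]
      have h3 : (x + x' + y = 0) ↔ (x + y = x') := by
        rw [add_right_comm, add_eq_zero_W]
      simp_rw [h3]
    rw [Finset.sum_congr rfl h2, Finset.sum_ite_eq]
  rw [Finset.sum_congr rfl h1, ← Finset.sum_filter, Finset.sum_const, nsmul_eq_mul, mul_comm]

/-- `∑_w F(w) = |A| s` -/
theorem sum_FF {A : Finset (QuadraticForm (ZMod 2) W)} {s : ℤ} (hA : A ⊆ Om f s) :
    ∑ w, FF A w = A.card * s := by
  unfold FF
  rw [Finset.sum_comm]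
  have h1 : ∀ Q ∈ A, ∑ w, chi (Q w) = s := by
    intro Q hQ
    exact (mem_Om.1 (hA hQ)).2
  rw [Finset.sum_congr rfl h1, Finset.sum_const, nsmul_eq_mul]

/-- `∑_w F(w)^2 χ(f(w,y)) = |W| #{Q ∈ A : Q + y ∈ A}` -/
theorem sum_FF_sq (hnd : f.Nondegenerate)
    {A : Finset (QuadraticForm (ZMod 2) W)} {s : ℤ} (hA : A ⊆ Om f s) (y : W)
    (hf : f.IsAlt) [DecidableEq (QuadraticForm (ZMod 2) W)] :
    ∑ w, FF A w * FF A w * chi (f w y)
      = (Fintype.card W : ℤ) * (A.filter (fun Q => shift f Q y ∈ A)).card := by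
  have h0 : ∀ w, FF A w * FF A w * chi (f w y)
      = ∑ Q ∈ A, ∑ Q' ∈ A, chi (shift f Q y w) * chi (Q' w) := by
    intro w
    unfold FF
    rw [Finset.sum_mul_sum, Finset.sum_mul]
    refine Finset.sum_congr rfl fun x _ => ?_
    rw [Finset.sum_mul]
    refine Finset.sum_congr rfl fun x' _ => ?_
    rw [shift_apply, chi_add, f_symm hf w y]
    ring
  simp_rw [h0]
  rw [Finset.sum_comm]
  have h1 : ∀ Q ∈ A, ∑ w, ∑ Q' ∈ A, chi (shift f Q y w) * chi (Q' w)
      = if shift f Q y ∈ A then (Fintype.card W : ℤ) else 0 := by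
    intro Q hQ
    rw [Finset.sum_comm]
    have h2 : ∀ Q' ∈ A, ∑ w, chi (shift f Q y w) * chi (Q' w)
        = if shift f Q y = Q' then (Fintype.card W : ℤ) else 0 := by
      intro Q' hQ'
      by_cases h : shift f Q y = Q'
      · rw [if_pos h, ← h, sum_chi_forms_self]
      · rw [if_neg h]
        exact sum_chi_forms_ne hnd ((mem_Om.1 (hA hQ)).1.shift y) (mem_Om.1 (hA hQ')).1 h
    rw [Finset.sum_congr rfl h2, Finset.sum_ite_eq]
  rw [Finset.sum_congr rfl h1, ← Finset.sum_filter, Finset.sum_const, nsmul_eq_mul, mul_comm]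

/-- `∑_w F(w) χ(Q w) = |W| 1_A(Q)` -/
theorem sum_FF_chi (hnd : f.Nondegenerate)
    {A : Finset (QuadraticForm (ZMod 2) W)} {s : ℤ} (hA : A ⊆ Om f s)
    {Q : QuadraticForm (ZMod 2) W} (hQ : IsForm f Q)
    [DecidableEq (QuadraticForm (ZMod 2) W)] :
    ∑ w, FF A w * chi (Q w) = if Q ∈ A then (Fintype.card W : ℤ) else 0 := by
  unfold FF
  simp_rw [Finset.sum_mul]
  rw [Finset.sum_comm]
  have h2 : ∀ Q' ∈ A, ∑ w, chi (Q' w) * chi (Q w)
      = if Q = Q' then (Fintype.card W : ℤ) else 0 := by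
    intro Q' hQ'
    by_cases h : Q = Q'
    · rw [if_pos h, ← h, sum_chi_forms_self]
    · rw [if_neg h]
      exact sum_chi_forms_ne hnd (mem_Om.1 (hA hQ')).1 hQ (Ne.symm h)
  rw [Finset.sum_congr rfl h2, Finset.sum_ite_eq]

/-- splitting a sum of a function that is constant on `T` and on the complement of `T ∪ {0}` -/
theorem sum_split [DecidableEq W] (T : Finset W) (h0T : (0 : W) ∉ T) (φ ψ : W → ℤ) (a b : ℤ)
    (ha : ∀ x ∈ T, φ x = a) (hb : ∀ x, x ∉ T → x ≠ 0 → φ x = b) :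
    ∑ w, φ w * ψ w = (φ 0 - b) * ψ 0 + (a - b) * ∑ x ∈ T, ψ x + b * ∑ w, ψ w := by
  have h1 : ∀ w, φ w * ψ w = (if w = 0 then (φ 0 - b) * ψ w else 0)
      + (if w ∈ T then (a - b) * ψ w else 0) + b * ψ w := by
    intro w
    by_cases hw : w = 0
    · subst hw
      rw [if_pos rfl, if_neg h0T]; ring
    · rw [if_neg hw]
      by_cases hT : w ∈ T
      · rw [if_pos hT, ha w hT]; ring
      · rw [if_neg hT, hb w hT hw]; ring
  rw [Finset.sum_congr rfl (fun w _ => h1 w), Finset.sum_add_distrib, Finset.sum_add_distrib,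
    Finset.sum_ite_eq' univ 0 (fun w => (φ 0 - b) * ψ w), if_pos (mem_univ _), ← Finset.sum_filter,
    ← Finset.mul_sum, ← Finset.mul_sum]
  congr 3
  simp

end Pool.Agent.H66.SIT
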