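import Pool.Agent.H66.SIT.AzEx
import Pool.Agent.H66.SIT.Classify

/-!
# Translation between sets of points of the action and finite sets of forms
-/

open Finset
open scoped Pointwise

namespace Pool.Agent.H66.SIT

section general
variable {G V : Type*} [Group G] [MulAction G V]

/-- two strongly incidence-transitive codes with a common codeword are equal -/
theorem IsSITA.subset_of_mem {k k' : ℕ} {C D : Set (Set V)} (hC : IsSITA G k C)
    (hD : IsSITA G k' D) {γ : Set V} (h1 : γ ∈ C) (h2 : γ ∈ D) (hk : 0 < k)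
    (hkv : k < Nat.card V) [Finite V] : C ⊆ D := by
  have hne : ∀ δ ∈ C, (∃ u, u ∈ δ) ∧ (∃ u, u ∉ δ) := by
    intro δ hδ
    have h3 := hC.isCode.1 δ hδ
    constructor
    · by_contra hcon
      push Not at hcon
      have : δ = ∅ := Set.eq_empty_of_forall_notMem hcon
      rw [this, Set.ncard_empty] at h3
      omega
    · by_contra hcon
      push Not at hcon
      have : δ = Set.univ := Set.eq_univ_of_forall hcon
      rw [this, Set.ncard_univ] at h3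
      omega
  intro δ hδ
  obtain ⟨⟨u, hu⟩, ⟨u', hu'⟩⟩ := hne γ h1
  obtain ⟨⟨w, hw⟩, ⟨w', hw'⟩⟩ := hne δ hδ
  obtain ⟨g, hg, _, _⟩ := hC.trans γ h1 u hu u' hu' δ hδ w hw w' hw'
  rw [← hg]
  exact hD.le_aut g γ h2

theorem IsSITA.eq_of_mem {k : ℕ} {C D : Set (Set V)} (hC : IsSITA G k C)
    (hD : IsSITA G k D) {γ : Set V} (h1 : γ ∈ C) (h2 : γ ∈ D) (hk : 0 < k)
    (hkv : k < Nat.card V) [Finite V] : C = D :=
  Set.Subset.antisymm (hC.subset_of_mem hD h1 h2 hk hkv)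
    (hD.subset_of_mem hC h2 h1 hk hkv)

/-- criterion for strong incidence-transitivity when the group is transitive on points -/
theorem isSIT_of {k : ℕ} {C : Set (Set V)} [Finite V]
    (htr : ∀ u u' : V, ∃ g : G, g • u = u') (hk : 0 < k) (hkv : k < Nat.card V)
    (hne : C.Nonempty) (hcard : ∀ γ ∈ C, γ.ncard = k)
    (hinv : ∀ g : G, ∀ γ ∈ C, g • γ ∈ C)
    (htrans : ∀ γ ∈ C, ∀ u ∈ γ, ∀ u' ∉ γ, ∀ δ ∈ C, ∀ w ∈ δ, ∀ w' ∉ δ,
      ∃ g : G, g • γ = δ ∧ g • u = w ∧ g • u' = w') : IsSITA G k C := by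
  refine ⟨⟨hcard, ?_⟩, hinv, htrans⟩
  obtain ⟨γ, hγ⟩ := hne
  have h3 := hcard γ hγ
  obtain ⟨u, hu⟩ : ∃ u, u ∈ γ := by
    by_contra hcon
    push Not at hcon
    have : γ = ∅ := Set.eq_empty_of_forall_notMem hcon
    rw [this, Set.ncard_empty] at h3
    omega
  obtain ⟨u', hu'⟩ : ∃ u, u ∉ γ := by
    by_contra hcon
    push Not at hcon
    have : γ = Set.univ := Set.eq_univ_of_forall hcon
    rw [this, Set.ncard_univ] at h3
    omega
  obtain ⟨g, hg⟩ := htr u u'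
  refine ⟨γ, hγ, g • γ, hinv g γ hγ, ?_⟩
  intro h
  apply hu'
  rw [h, ← hg]
  exact Set.smul_mem_smul_set hu

/-- complements -/
theorem IsSITA.compl {k : ℕ} {C : Set (Set V)} [Finite V] (hC : IsSITA G k C)
    (hkv : k ≤ Nat.card V) : IsSITA G (Nat.card V - k) {γ | γᶜ ∈ C} := by
  refine ⟨⟨?_, ?_⟩, ?_, ?_⟩
  · intro γ hγ
    have h1 := hC.isCode.1 _ hγ
    have h2 := Set.ncard_add_ncard_compl γ
    omega
  · obtain ⟨γ, hγ, δ, hδ, hne⟩ := hC.isCode.2
    refine ⟨γᶜ, ?_, δᶜ, ?_, ?_⟩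
    · change γᶜᶜ ∈ C
      rw [compl_compl]; exact hγ
    · change δᶜᶜ ∈ C
      rw [compl_compl]; exact hδ
    · intro h
      exact hne (compl_injective h)
  · intro g γ hγ
    change (g • γ)ᶜ ∈ C
    rw [← Set.smul_set_compl]
    exact hC.le_aut g _ hγ
  · intro γ hγ u hu u' hu' δ hδ w hw w' hw'
    obtain ⟨g, h1, h2, h3⟩ := hC.trans γᶜ hγ u' hu' u (fun h => h hu) δᶜ hδ w' hw' w
      (fun h => h hw)
    refine ⟨g, ?_, h3, h2⟩
    rw [Set.smul_set_compl] at h1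
    exact compl_injective h1

end general

variable {W : Type*} [AddCommGroup W] [Module (ZMod 2) W]
variable {f : LinearMap.BilinForm (ZMod 2) W} {n : ℕ} {ε : ℤˣ}

theorem smul_val (g : Sp f) (Q : Omega f n ε) : (g • Q).1 = act g.1 Q.1 := rfl

/-- an isometry as an element of the group -/
def toSp {g : W ≃ₗ[ZMod 2] W} (hg : Isom f g) : Sp f := ⟨g, hg⟩

theorem toSp_val {g : W ≃ₗ[ZMod 2] W} (hg : Isom f g) : (toSp hg).1 = g := rfl

theorem toSp_smul {g : W ≃ₗ[ZMod 2] W} (hg : Isom f g) {Q Q' : Omega f n ε}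
    (h : act g Q.1 = Q'.1) : toSp hg • Q = Q' := Subtype.ext h

section fin
variable [Fintype W]

theorem mem_Omega_iff (hf : f.IsAlt) (hnd : f.Nondegenerate) (hn : 1 ≤ n)
    (hdim : Module.finrank (ZMod 2) W = 2 * n) {Q : QuadraticForm (ZMod 2) W} :
    Q ∈ Omega f n ε ↔ Q ∈ Om f (ε * 2 ^ n) := by
  rw [mem_Om]
  constructor
  · rintro ⟨h1, h2⟩
    exact ⟨h1, (hasWittIndex_iff hf hnd h1 hn hdim ε).1 h2⟩
  · rintro ⟨h1, h2⟩
    exact ⟨h1, (hasWittIndex_iff hf hnd h1 hn hdim ε).2 h2⟩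

theorem units_cast (ε : ℤˣ) : (ε : ℤ) = 1 ∨ (ε : ℤ) = -1 := by
  rcases Int.units_eq_one_or ε with rfl | rfl
  · left; rfl
  · right; rfl

theorem units_eq_one_iff (ε : ℤˣ) : (ε : ℤ) = 1 ↔ ε = 1 := by
  rcases Int.units_eq_one_or ε with rfl | rfl
  · simp
  · constructor
    · intro h; exact absurd h (by decide)
    · intro h; exact absurd h (by decide)

theorem units_eq_neg_one_iff (ε : ℤˣ) : (ε : ℤ) = -1 ↔ ε = -1 := by
  rcases Int.units_eq_one_or ε with rfl | rfl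
  · constructor
    · intro h; exact absurd h (by decide)
    · intro h; exact absurd h (by decide)
  · simp

theorem mkNum (hn : 1 ≤ n) (hdim : Module.finrank (ZMod 2) W = 2 * n) (ε : ℤˣ) :
    Num W n (ε : ℤ) (ε * 2 ^ n) := by
  refine ⟨hn, units_cast ε, rfl, ?_⟩
  rw [card_W, hdim]
  push_cast
  rcases units_cast ε with h | h <;> rw [h] <;> ring

open Classical in
/-- the finite set of forms belonging to a set of points -/
noncomputable def toFin (γ : Set (Omega f n ε)) : Finset (QuadraticForm (ZMod 2) W) :=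
  univ.filter (fun Q => ∃ h : Q ∈ Omega f n ε, (⟨Q, h⟩ : Omega f n ε) ∈ γ)

theorem mem_toFin {γ : Set (Omega f n ε)} {Q : QuadraticForm (ZMod 2) W} :
    Q ∈ toFin γ ↔ ∃ h : Q ∈ Omega f n ε, (⟨Q, h⟩ : Omega f n ε) ∈ γ := by
  unfold toFin
  simp

theorem mem_toFin_val {γ : Set (Omega f n ε)} {Q : Omega f n ε} :
    Q.1 ∈ toFin γ ↔ Q ∈ γ := by
  rw [mem_toFin]
  exact ⟨fun ⟨_, h⟩ => h, fun h => ⟨Q.2, h⟩⟩

instance finiteOmega : Finite (Omega f n ε) := Subtype.finite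

theorem card_toFin (γ : Set (Omega f n ε)) : (toFin γ).card = γ.ncard := by
  have h1 : (Subtype.val '' γ : Set (QuadraticForm (ZMod 2) W)) = ↑(toFin γ) := by
    ext Q
    rw [Finset.mem_coe, mem_toFin]
    constructor
    · rintro ⟨Q', h, rfl⟩
      exact ⟨Q'.2, h⟩
    · rintro ⟨h, h'⟩
      exact ⟨_, h', rfl⟩
  rw [← Set.ncard_image_of_injective γ Subtype.val_injective, h1, Set.ncard_coe_finset]

theorem card_Omega (hf : f.IsAlt) (hnd : f.Nondegenerate) (hn : 1 ≤ n)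
    (hdim : Module.finrank (ZMod 2) W = 2 * n) :
    Nat.card (Omega f n ε) = (Om f (ε * 2 ^ n)).card := by
  have h1 : Nat.card (Omega f n ε) = (Omega f n ε).ncard := rfl
  rw [h1, ← Set.ncard_coe_finset]
  congr 1
  ext Q
  rw [Finset.mem_coe, mem_Omega_iff hf hnd hn hdim]

theorem toFin_sub (hf : f.IsAlt) (hnd : f.Nondegenerate) (hn : 1 ≤ n)
    (hdim : Module.finrank (ZMod 2) W = 2 * n) (γ : Set (Omega f n ε)) :
    toFin γ ⊆ Om f (ε * 2 ^ n) := by
  intro Q hQ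
  obtain ⟨h, _⟩ := mem_toFin.1 hQ
  exact (mem_Omega_iff hf hnd hn hdim).1 h

theorem toFin_injective : Function.Injective (toFin (f := f) (n := n) (ε := ε)) := by
  intro γ δ h
  ext Q
  rw [← mem_toFin_val, h, mem_toFin_val]

/-- membership in a translate -/
theorem act_mem_toFin {g : Sp f} {γ : Set (Omega f n ε)} {Q : QuadraticForm (ZMod 2) W}
    (hQ : Q ∈ Omega f n ε) : act g.1 Q ∈ toFin (g • γ) ↔ Q ∈ toFin γ := by
  have h1 : act g.1 Q = (g • (⟨Q, hQ⟩ : Omega f n ε)).1 := rfl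
  rw [h1, mem_toFin_val, Set.smul_mem_smul_set_iff]
  exact (mem_toFin_val (Q := (⟨Q, hQ⟩ : Omega f n ε))).symm

theorem smul_eq_of (hf : f.IsAlt) (hnd : f.Nondegenerate) (hn : 1 ≤ n)
    (hdim : Module.finrank (ZMod 2) W = 2 * n) {g : Sp f} {γ δ : Set (Omega f n ε)}
    (h : ∀ Q ∈ Omega f n ε, act g.1 Q ∈ toFin δ ↔ Q ∈ toFin γ) : g • γ = δ := by
  ext Q
  rw [Set.mem_smul_set_iff_inv_smul_mem]
  have h1 := h (g⁻¹ • Q).1 (g⁻¹ • Q).2
  rw [mem_toFin_val] at h1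
  rw [← h1]
  have h2 : act g.1 (g⁻¹ • Q).1 = Q.1 := by
    change (g • (g⁻¹ • Q)).1 = Q.1
    rw [smul_inv_smul]
  rw [h2, mem_toFin_val]

/-- transitivity on points -/
theorem Omega_trans (hf : f.IsAlt) (hnd : f.Nondegenerate) (hn : 1 ≤ n)
    (hdim : Module.finrank (ZMod 2) W = 2 * n) (Q Q' : Omega f n ε) :
    ∃ g : Sp f, g • Q = Q' := by
  have h1 := (mem_Omega_iff hf hnd hn hdim).1 Q.2
  have h2 := (mem_Omega_iff hf hnd hn hdim).1 Q'.2
  have hs := (mkNum hn hdim ε).s_ne_zero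
  obtain ⟨w, hw⟩ := exists_shift_Om hnd h1 h2
  refine ⟨toSp (transv_isom hf w), toSp_smul _ ?_⟩
  rw [hw]
  exact act_transv_zero hf (mem_Om.1 h1).1 (eq_zero_of_shift_mem hf hs h1 (hw ▸ h2))

/-- the context attached to a codeword -/
theorem IsSITA.ctx (hf : f.IsAlt) (hnd : f.Nondegenerate) (hn : 1 ≤ n)
    (hdim : Module.finrank (ZMod 2) W = 2 * n) {k : ℕ} {C : Set (Set (Omega f n ε))}
    (hC : IsSITA (Sp f) k C) (hk : 0 < k) (hkv : k < Nat.card (Omega f n ε))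
    {γ : Set (Omega f n ε)} (hγ : γ ∈ C) : Ctx f (ε * 2 ^ n) (toFin γ) := by
  have hcard := hC.isCode.1 γ hγ
  refine ⟨toFin_sub hf hnd hn hdim γ, ?_, ?_, ?_⟩
  · intro P hP R hR hRA P' hP' R' hR' hRA'
    rw [← mem_Omega_iff hf hnd hn hdim] at hR hR'
    obtain ⟨hPO, hPγ⟩ := mem_toFin.1 hP
    obtain ⟨hPO', hPγ'⟩ := mem_toFin.1 hP'
    have hRγ : (⟨R, hR⟩ : Omega f n ε) ∉ γ := fun h => hRA (mem_toFin.2 ⟨hR, h⟩)
    have hRγ' : (⟨R', hR'⟩ : Omega f n ε) ∉ γ := fun h => hRA' (mem_toFin.2 ⟨hR', h⟩)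
    obtain ⟨g, h1, h2, h3⟩ := hC.trans γ hγ _ hPγ _ hRγ γ hγ _ hPγ' _ hRγ'
    refine ⟨g.1, ⟨g.2, ?_⟩, congrArg Subtype.val h2, congrArg Subtype.val h3⟩
    intro Q
    by_cases hQ : Q ∈ Omega f n ε
    · have := act_mem_toFin (g := g) (γ := γ) hQ
      rwa [h1] at this
    · constructor
      · intro h
        exfalso
        apply hQ
        obtain ⟨h4, _⟩ := mem_toFin.1 h
        have h5 : Q = (g⁻¹ • (⟨act g.1 Q, h4⟩ : Omega f n ε)).1 := by
          change Q = act (g.1).symm (act g.1 Q)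
          rw [act_symm_act]
        rw [h5]
        exact (g⁻¹ • (⟨act g.1 Q, h4⟩ : Omega f n ε)).2
      · intro h
        exact absurd (mem_toFin.1 h).1 hQ
  · rw [← Finset.card_pos, card_toFin, hcard]; exact hk
  · by_contra hcon
    push Not at hcon
    have h1 : Om f (ε * 2 ^ n) ⊆ toFin γ := hcon
    have h2 := Finset.card_le_card h1
    rw [card_toFin, hcard, ← card_Omega hf hnd hn hdim] at h2
    omega

end fin

end Pool.Agent.H66.SIT
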