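import Pool.Agent.H66.SIT.Om

/-!
# Restriction of forms to subspaces
-/

open Finset

namespace Pool.Agent.H66.SIT

variable {W : Type*} [AddCommGroup W] [Module (ZMod 2) W]
variable {f : LinearMap.BilinForm (ZMod 2) W}

noncomputable instance fintypeSub [Finite W] (U : Submodule (ZMod 2) W) : Fintype U :=
  Fintype.ofFinite U

theorem restrict_isAlt (hf : f.IsAlt) (U : Submodule (ZMod 2) W) : (f.restrict U).IsAlt :=
  fun x => hf x

theorem IsForm.restrict {Q : QuadraticForm (ZMod 2) W} (h : IsForm f Q)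
    (U : Submodule (ZMod 2) W) : IsForm (f.restrict U) (Q.comp U.subtype) :=
  fun x y => h x y

theorem nondeg_of_left (hf : f.IsAlt) (h : ∀ x, (∀ y, f x y = 0) → x = 0) :
    f.Nondegenerate := by
  refine ⟨h, fun x hx => h x fun y => ?_⟩
  rw [f_symm hf]
  exact hx y

/-- a complementary orthogonal subspace is nondegenerate -/
theorem nondeg_of_isCompl (hf : f.IsAlt) (hnd : f.Nondegenerate) {U₁ U₂ : Submodule (ZMod 2) W}
    (h : IsCompl U₁ U₂) (h12 : ∀ x ∈ U₁, ∀ y ∈ U₂, f x y = 0) :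
    (f.restrict U₁).Nondegenerate := by
  apply nondeg_of_left (restrict_isAlt hf U₁)
  intro x hx
  apply Subtype.ext
  apply hnd.1
  intro y
  have hy : y ∈ U₁ ⊔ U₂ := by rw [h.sup_eq_top]; trivial
  obtain ⟨y1, hy1, y2, hy2, rfl⟩ := Submodule.mem_sup.1 hy
  have h1 : f x y1 = 0 := hx ⟨y1, hy1⟩
  rw [map_add, h12 x x.2 y2 hy2, h1]; rfl

/-- the orthogonal of a nondegenerate subspace is a complement -/
theorem isCompl_orth [FiniteDimensional (ZMod 2) W] (hf : f.IsAlt)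
    {U : Submodule (ZMod 2) W} (h : (f.restrict U).Nondegenerate) :
    IsCompl U (f.orthogonal U) := by
  have hrefl : f.IsRefl := by
    intro x y h
    rw [f_symm hf]; exact h
  exact LinearMap.BilinForm.isCompl_orthogonal_of_restrict_nondegenerate hrefl h

theorem orth_apply (hf : f.IsAlt) {U : Submodule (ZMod 2) W} {x y : W} (hx : x ∈ U)
    (hy : y ∈ f.orthogonal U) : f x y = 0 := by
  rw [f_symm hf]
  exact (mem_orth hf).1 hy x hx

/-- the restriction of a shifted form -/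
theorem comp_shift {Q : QuadraticForm (ZMod 2) W} {U : Submodule (ZMod 2) W}
    {w₁ w₂ : W} (h₁ : w₁ ∈ U) (h₂ : ∀ u ∈ U, f w₂ u = 0) :
    (shift f Q (w₁ + w₂)).comp U.subtype
      = shift (f.restrict U) (Q.comp U.subtype) ⟨w₁, h₁⟩ := by
  ext x
  change shift f Q (w₁ + w₂) x = shift (f.restrict U) (Q.comp U.subtype) ⟨w₁, h₁⟩ x
  rw [shift_apply, shift_apply, map_add, LinearMap.add_apply, h₂ x x.2, add_zero]
  rfl

section
variable [Fintype W]

/-- the character sum of a form over a subspace -/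
noncomputable def SS (Q : QuadraticForm (ZMod 2) W) (U : Submodule (ZMod 2) W) : ℤ :=
  S (Q.comp U.subtype)

theorem SS_eq (Q : QuadraticForm (ZMod 2) W) (U : Submodule (ZMod 2) W) :
    SS Q U = ∑ u : U, chi (Q u) := rfl

theorem SS_sq (hf : f.IsAlt) {U : Submodule (ZMod 2) W} (hU : (f.restrict U).Nondegenerate)
    {Q : QuadraticForm (ZMod 2) W} (h : IsForm f Q) :
    SS Q U * SS Q U = 2 ^ Module.finrank (ZMod 2) U := by
  unfold SS
  rw [S_sq (restrict_isAlt hf U) hU (h.restrict U), card_sub]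
  norm_cast

theorem SS_pm (hf : f.IsAlt) {U : Submodule (ZMod 2) W} (hU : (f.restrict U).Nondegenerate)
    {Q : QuadraticForm (ZMod 2) W} (h : IsForm f Q) {a : ℕ}
    (ha : Module.finrank (ZMod 2) U = 2 * a) : SS Q U = 2 ^ a ∨ SS Q U = - 2 ^ a := by
  have h1 := SS_sq hf hU h
  rw [ha, pow_mul'] at h1
  have h2 : SS Q U * SS Q U = (2 ^ a) * (2 ^ a) := by rw [h1]; ring
  exact mul_self_eq_mul_self_iff.1 h2

theorem SS_ne_zero (hf : f.IsAlt) {U : Submodule (ZMod 2) W}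
    (hU : (f.restrict U).Nondegenerate)
    {Q : QuadraticForm (ZMod 2) W} (h : IsForm f Q) : SS Q U ≠ 0 := by
  intro h0
  have h1 := SS_sq hf hU h
  rw [h0, mul_zero] at h1
  have : (0 : ℤ) < 2 ^ Module.finrank (ZMod 2) U := by positivity
  omega

theorem SS_shift (hf : f.IsAlt) {U : Submodule (ZMod 2) W}
    {Q : QuadraticForm (ZMod 2) W} (h : IsForm f Q) {w₁ w₂ : W} (h₁ : w₁ ∈ U)
    (h₂ : ∀ u ∈ U, f w₂ u = 0) :
    SS (shift f Q (w₁ + w₂)) U = chi (Q w₁) * SS Q U := by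
  unfold SS
  rw [comp_shift h₁ h₂, S_shift (restrict_isAlt hf U) (h.restrict U)]
  rfl

/-- the dimension of a nondegenerate subspace is even -/
theorem even_pow_aux {x : ℤ} {d : ℕ} (h : x * x = 2 ^ d) : ∃ a, d = 2 * a := by
  have h1 : x.natAbs * x.natAbs = 2 ^ d := by
    have := congrArg Int.natAbs h
    rw [Int.natAbs_mul, Int.natAbs_pow] at this
    exact this
  have h2 : x.natAbs ∣ 2 ^ d := ⟨x.natAbs, h1.symm⟩
  obtain ⟨m, _, hm⟩ := (Nat.dvd_prime_pow Nat.prime_two).1 h2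
  rw [hm, ← pow_add] at h1
  refine ⟨m, ?_⟩
  have := Nat.pow_right_injective le_rfl h1
  omega

/-- multiplicativity of the character sum -/
theorem SS_mul {U₁ U₂ : Submodule (ZMod 2) W} (hc : IsCompl U₁ U₂)
    (h12 : ∀ x ∈ U₁, ∀ y ∈ U₂, f x y = 0) {Q : QuadraticForm (ZMod 2) W}
    (h : IsForm f Q) : S Q = SS Q U₁ * SS Q U₂ := by
  have h1 : S Q = ∑ p : U₁ × U₂, chi (Q ((p.1 : W) + (p.2 : W))) := by
    unfold S
    rw [← Equiv.sum_comp (Submodule.prodEquivOfIsCompl U₁ U₂ hc).toEquiv (fun w => chi (Q w))]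
    rfl
  rw [h1, Fintype.sum_prod_type, SS_eq, SS_eq, Finset.sum_mul_sum]
  refine Finset.sum_congr rfl fun u _ => Finset.sum_congr rfl fun v _ => ?_
  rw [h, h12 u u.2 v v.2, add_zero, chi_add]

/-- decomposition along a nondegenerate subspace -/
theorem exists_decomp {U₁ U₂ : Submodule (ZMod 2) W} (hc : IsCompl U₁ U₂) (w : W) :
    ∃ w₁ ∈ U₁, ∃ w₂ ∈ U₂, w = w₁ + w₂ := by
  have hy : w ∈ U₁ ⊔ U₂ := by rw [hc.sup_eq_top]; trivial
  obtain ⟨y1, hy1, y2, hy2, h⟩ := Submodule.mem_sup.1 hy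
  exact ⟨y1, hy1, y2, hy2, h.symm⟩

/-- forms of the same type with the same type on `U₁` -/
theorem same_type_decomp (hf : f.IsAlt) (hnd : f.Nondegenerate) {s : ℤ} (hs : s ≠ 0)
    {U₁ U₂ : Submodule (ZMod 2) W} (hc : IsCompl U₁ U₂)
    (h12 : ∀ x ∈ U₁, ∀ y ∈ U₂, f x y = 0) {Q Q' : QuadraticForm (ZMod 2) W}
    (hQ : Q ∈ Om f s) (hQ' : Q' ∈ Om f s) :
    ∃ w₁ ∈ U₁, ∃ w₂ ∈ U₂, Q' = shift f Q (w₁ + w₂) ∧ Q w₁ = Q w₂ ∧
      SS Q' U₁ = chi (Q w₁) * SS Q U₁ := by
  obtain ⟨w, rfl⟩ := exists_shift_Om hnd hQ hQ'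
  obtain ⟨w₁, h₁, w₂, h₂, rfl⟩ := exists_decomp hc w
  have hQf := (mem_Om.1 hQ).1
  refine ⟨w₁, h₁, w₂, h₂, rfl, ?_, ?_⟩
  · have h3 := eq_zero_of_shift_mem hf hs hQ hQ'
    rw [hQf, h12 w₁ h₁ w₂ h₂, add_zero] at h3
    have := add_self_zmod (Q w₂)
    linear_combination h3 - this
  · exact SS_shift hf hQf h₁ fun u hu => by rw [f_symm hf]; exact h12 u hu w₂ h₂

/-- sum of the character sums over a subspace over all forms of a given type -/
theorem sum_Om_SS (hf : f.IsAlt) (hnd : f.Nondegenerate) {s : ℤ} (hs : s ≠ 0)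
    {P : QuadraticForm (ZMod 2) W} (hP : P ∈ Om f s) (U : Submodule (ZMod 2) W) :
    2 * ∑ Q ∈ Om f s, SS Q U = Fintype.card W + s * 2 ^ Module.finrank (ZMod 2) U := by
  classical
  simp_rw [SS_eq]
  rw [Finset.sum_comm, Finset.mul_sum]
  have h1 : ∀ u : U, 2 * ∑ Q ∈ Om f s, chi (Q u) = s + if u = 0 then (Fintype.card W : ℤ) else 0 := by
    intro u
    by_cases hu : u = 0
    · rw [if_pos hu, hu]
      have h2 := card_Om hf hnd hs hP
      have h3 : ∑ Q ∈ Om f s, chi (Q ((0 : U) : W)) = (Om f s).card := by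
        rw [Finset.sum_congr rfl (g := fun _ => (1 : ℤ))]
        · simp
        · intro Q _
          rw [Submodule.coe_zero, IsForm.zero]; rfl
      rw [h3, h2]; ring
    · rw [if_neg hu, add_zero]
      apply sum_Om_chi hf hnd hs hP
      intro h
      exact hu (Subtype.ext h)
  rw [Finset.sum_congr rfl fun u _ => h1 u, Finset.sum_add_distrib, Finset.sum_ite_eq' univ 0,
    if_pos (mem_univ _), Finset.sum_const, card_univ, card_sub, nsmul_eq_mul]
  push_cast
  ring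

end

end Pool.Agent.H66.SIT
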