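import Pool.Agent.H66.SIT.Witt

/-!
# Isometries: transvections, Eichler maps, action on forms
-/

open Finset

namespace Pool.Agent.H66.SIT

variable {W : Type*} [AddCommGroup W] [Module (ZMod 2) W]
variable {f : LinearMap.BilinForm (ZMod 2) W}

/-- action of a linear equivalence on forms -/
def act (g : W ≃ₗ[ZMod 2] W) (Q : QuadraticForm (ZMod 2) W) : QuadraticForm (ZMod 2) W :=
  Q.comp (g.symm : W →ₗ[ZMod 2] W)

@[simp] theorem act_apply (g : W ≃ₗ[ZMod 2] W) (Q : QuadraticForm (ZMod 2) W) (x : W) :
    act g Q x = Q (g.symm x) := rfl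

/-- `g` is an isometry of `f` -/
def Isom (f : LinearMap.BilinForm (ZMod 2) W) (g : W ≃ₗ[ZMod 2] W) : Prop :=
  ∀ x y, f (g x) (g y) = f x y

theorem Isom.symm {g : W ≃ₗ[ZMod 2] W} (h : Isom f g) : Isom f g.symm := by
  intro x y
  have := h (g.symm x) (g.symm y)
  rw [g.apply_symm_apply, g.apply_symm_apply] at this
  exact this.symm

theorem Isom.trans {g g' : W ≃ₗ[ZMod 2] W} (h : Isom f g) (h' : Isom f g') :
    Isom f (g.trans g') := by
  intro x y
  rw [LinearEquiv.trans_apply, LinearEquiv.trans_apply, h', h]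

theorem Isom.refl : Isom f (LinearEquiv.refl (ZMod 2) W) := fun _ _ => rfl

theorem act_trans (g g' : W ≃ₗ[ZMod 2] W) (Q : QuadraticForm (ZMod 2) W) :
    act (g.trans g') Q = act g' (act g Q) := by
  ext x; rfl

theorem act_refl (Q : QuadraticForm (ZMod 2) W) :
    act (LinearEquiv.refl (ZMod 2) W) Q = Q := by
  ext x; rfl

theorem act_symm_act (g : W ≃ₗ[ZMod 2] W) (Q : QuadraticForm (ZMod 2) W) :
    act g.symm (act g Q) = Q := by
  ext x
  simp

theorem act_act_symm (g : W ≃ₗ[ZMod 2] W) (Q : QuadraticForm (ZMod 2) W) :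
    act g (act g.symm Q) = Q := by
  ext x
  simp

theorem act_injective (g : W ≃ₗ[ZMod 2] W) : Function.Injective (act (W := W) g) := by
  intro Q Q' h
  rw [← act_symm_act g Q, h, act_symm_act]

theorem IsForm.act {Q : QuadraticForm (ZMod 2) W} (h : IsForm f Q) {g : W ≃ₗ[ZMod 2] W}
    (hg : Isom f g) : IsForm f (act g Q) := by
  intro x y
  rw [act_apply, act_apply, act_apply, map_add, h, hg.symm]

theorem act_shift {g : W ≃ₗ[ZMod 2] W} (hg : Isom f g) (Q : QuadraticForm (ZMod 2) W) (u : W) :
    act g (shift f Q u) = shift f (act g Q) (g u) := by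
  ext x
  rw [act_apply, shift_apply, shift_apply, act_apply]
  congr 1
  have := hg u (g.symm x)
  rw [g.apply_symm_apply] at this
  exact this.symm

theorem S_act [Fintype W] (g : W ≃ₗ[ZMod 2] W) (Q : QuadraticForm (ZMod 2) W) :
    S (act g Q) = S Q := by
  unfold S
  exact Equiv.sum_comp g.symm.toEquiv (fun w => chi (Q w))

/-- The transvection `x ↦ x + f(x,w) w`. -/
def transv (hf : f.IsAlt) (w : W) : W ≃ₗ[ZMod 2] W :=
  LinearEquiv.ofInvolutive
    { toFun := fun x => x + f x w • w
      map_add' := by
        intro x y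
        rw [map_add, LinearMap.add_apply, add_smul]
        abel
      map_smul' := by
        intro c x
        rw [map_smul, LinearMap.smul_apply, smul_add, smul_assoc, RingHom.id_apply] }
    (by
      intro x
      change (x + f x w • w) + f (x + f x w • w) w • w = x
      rw [map_add, LinearMap.add_apply, map_smul, LinearMap.smul_apply, f_self hf, smul_zero,
        add_zero, add_add_cancel_W])

@[simp] theorem transv_apply (hf : f.IsAlt) (w x : W) : transv hf w x = x + f x w • w := rfl

@[simp] theorem transv_symm_apply (hf : f.IsAlt) (w x : W) :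
    (transv hf w).symm x = x + f x w • w := rfl

theorem transv_isom (hf : f.IsAlt) (w : W) : Isom f (transv hf w) := by
  intro x y
  rw [transv_apply, transv_apply]
  simp only [map_add, LinearMap.add_apply, map_smul, LinearMap.smul_apply, f_self hf,
    smul_eq_mul, mul_zero, add_zero]
  rw [f_symm hf w y]
  have := add_self_zmod (f x w * f y w)
  linear_combination this

theorem transv_of_eq_one (hf : f.IsAlt) {w x : W} (h : f x w = 1) : transv hf w x = x + w := by
  rw [transv_apply, h, one_smul]

theorem transv_of_eq_zero (hf : f.IsAlt) {w x : W} (h : f x w = 0) : transv hf w x = x := by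
  rw [transv_apply, h, zero_smul, add_zero]

/-- action of a transvection on a form -/
theorem act_transv (hf : f.IsAlt) {Q : QuadraticForm (ZMod 2) W} (h : IsForm f Q) (w : W) :
    act (transv hf w) Q = if Q w = 0 then shift f Q w else Q := by
  ext x
  have h1 : act (transv hf w) Q x = Q x + f x w * (Q w + 1) := by
    rw [act_apply, transv_symm_apply, h, QuadraticMap.map_smul, map_smul]
    rw [smul_eq_mul, smul_eq_mul]
    have : ∀ a : ZMod 2, a * a = a := by decide
    rw [this]
    ring
  rw [h1]
  split_ifs with hw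
  · rw [hw, shift_apply, f_symm hf w x]; ring
  · have : Q w = 1 := (ne_zero_iff _).1 hw
    rw [this]
    have h2 : (1 : ZMod 2) + 1 = 0 := rfl
    rw [h2]; ring

theorem act_transv_zero (hf : f.IsAlt) {Q : QuadraticForm (ZMod 2) W} (h : IsForm f Q) {w : W}
    (hw : Q w = 0) : act (transv hf w) Q = shift f Q w := by
  rw [act_transv hf h, if_pos hw]

theorem act_transv_one (hf : f.IsAlt) {Q : QuadraticForm (ZMod 2) W} (h : IsForm f Q) {w : W}
    (hw : Q w = 1) : act (transv hf w) Q = Q := by
  rw [act_transv hf h, if_neg]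
  rw [hw]; decide

end Pool.Agent.H66.SIT
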