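import Pool.Agent.H66.SIT.Basic

/-!
# Witt index and character sums
-/

open Finset

namespace Pool.Agent.H66.SIT

variable {W : Type*} [AddCommGroup W] [Module (ZMod 2) W]
variable {f : LinearMap.BilinForm (ZMod 2) W}

theorem card_sub [Fintype W] (U : Submodule (ZMod 2) W) [Fintype U] :
    Fintype.card U = 2 ^ Module.finrank (ZMod 2) U := by
  have := Module.card_eq_pow_finrank (K := ZMod 2) (V := U)
  rwa [ZMod.card] at this

theorem card_W [Fintype W] :
    Fintype.card W = 2 ^ Module.finrank (ZMod 2) W := by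
  have := Module.card_eq_pow_finrank (K := ZMod 2) (V := W)
  rwa [ZMod.card] at this

theorem sum_chi_sub [Fintype W] (U : Submodule (ZMod 2) W) [Fintype U] (w : W)
    [Decidable (∀ u ∈ U, f w u = 0)] :
    ∑ u : U, chi (f w u) = if ∀ u ∈ U, f w u = 0 then (Fintype.card U : ℤ) else 0 := by
  split_ifs with h
  · rw [Finset.sum_congr rfl (g := fun _ => (1 : ℤ))]
    · simp
    · intro u _
      rw [h u u.2]; rfl
  · push Not at h
    obtain ⟨v, hvU, hv⟩ := h
    have hv1 : f w v = 1 := (ne_zero_iff _).1 hv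
    have h1 : ∑ u : U, chi (f w u) = ∑ u : U, chi (f w ((u + ⟨v, hvU⟩ : U) : W)) :=
      (Equiv.sum_comp (Equiv.addRight (⟨v, hvU⟩ : U)) (fun u : U => chi (f w u))).symm
    have h2 : ∑ u : U, chi (f w ((u + ⟨v, hvU⟩ : U) : W)) = - ∑ u : U, chi (f w u) := by
      rw [← Finset.sum_neg_distrib]
      refine Finset.sum_congr rfl fun u _ => ?_
      rw [Submodule.coe_add, map_add, chi_add]
      simp [hv1]
    omega

theorem S_eq_sum_orth [Fintype W] (hf : f.IsAlt) {Q : QuadraticForm (ZMod 2) W}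
    (h : IsForm f Q) (U : Submodule (ZMod 2) W) (hU : ∀ u ∈ U, Q u = 0)
    [DecidablePred fun w : W => ∀ u ∈ U, f w u = 0] :
    S Q = ∑ w ∈ univ.filter (fun w : W => ∀ u ∈ U, f w u = 0), chi (Q w) := by
  classical
  have hpos : (0 : ℤ) < Fintype.card U := by
    exact_mod_cast Fintype.card_pos
  apply mul_left_cancel₀ hpos.ne'
  have h1 : (Fintype.card U : ℤ) * S Q = ∑ u : U, ∑ w, chi (Q (w + u)) := by
    have : ∀ u : U, ∑ w, chi (Q (w + u)) = S Q := fun u =>
      Equiv.sum_comp (Equiv.addRight (u : W)) (fun w => chi (Q w))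
    simp_rw [this]
    simp
  rw [h1, Finset.sum_comm, Finset.mul_sum, Finset.sum_filter]
  refine Finset.sum_congr rfl fun w _ => ?_
  have h2 : ∀ u : U, chi (Q (w + u)) = chi (Q w) * chi (f w u) := by
    intro u
    rw [← chi_add, h, hU u u.2, add_zero]
  simp_rw [h2]
  rw [← Finset.mul_sum, sum_chi_sub]
  split_ifs with h3
  · ring
  · simp

theorem mem_orth {U : Submodule (ZMod 2) W} (hf : f.IsAlt) {w : W} :
    w ∈ f.orthogonal U ↔ ∀ u ∈ U, f w u = 0 := by
  rw [LinearMap.BilinForm.mem_orthogonal_iff]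
  constructor
  · intro h u hu
    rw [f_symm hf]; exact h u hu
  · intro h u hu
    change f u w = 0
    rw [f_symm hf]; exact h u hu

theorem finrank_orth [FiniteDimensional (ZMod 2) W] (hnd : f.Nondegenerate)
    (U : Submodule (ZMod 2) W) :
    Module.finrank (ZMod 2) (f.orthogonal U) + Module.finrank (ZMod 2) U =
      Module.finrank (ZMod 2) W := by
  have h1 := LinearMap.BilinForm.finrank_orthogonal hnd U
  have h2 := Submodule.finrank_le U
  omega

/-- a maximal totally singular subspace exists, and it contains all singular vectors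
orthogonal to it. -/
theorem exists_max_ts [FiniteDimensional (ZMod 2) W] (hf : f.IsAlt)
    {Q : QuadraticForm (ZMod 2) W} (h : IsForm f Q) :
    ∃ U : Submodule (ZMod 2) W, (∀ u ∈ U, Q u = 0) ∧
      HasWittIndex Q (Module.finrank (ZMod 2) U) ∧
      ∀ w, (∀ u ∈ U, f w u = 0) → Q w = 0 → w ∈ U := by
  classical
  let P : ℕ → Prop := fun d => ∃ U : Submodule (ZMod 2) W,
    Module.finrank (ZMod 2) U = d ∧ ∀ u ∈ U, Q u = 0
  have hP0 : P 0 := by
    refine ⟨⊥, finrank_bot _ _, ?_⟩
    intro u hu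
    rw [(Submodule.mem_bot _).1 hu]
    exact IsForm.zero
  have hPle : ∀ d, P d → d ≤ Module.finrank (ZMod 2) W := by
    rintro d ⟨U, rfl, _⟩
    exact Submodule.finrank_le U
  have hspec : P (Nat.findGreatest P (Module.finrank (ZMod 2) W)) :=
    Nat.findGreatest_spec (P := P) (Nat.zero_le _) hP0
  obtain ⟨U, hUd, hU⟩ := hspec
  have hmax : ∀ d, P d → d ≤ Module.finrank (ZMod 2) U := by
    intro d hd
    rw [hUd]
    exact Nat.le_findGreatest (hPle d hd) hd
  refine ⟨U, hU, ⟨⟨U, rfl, hU⟩, fun d hd => hmax d hd⟩, ?_⟩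
  intro w hw hQw
  by_contra hwU
  have hts : ∀ u ∈ U ⊔ (ZMod 2) ∙ w, Q u = 0 := by
    intro u hu
    obtain ⟨x, hx, y, hy, rfl⟩ := Submodule.mem_sup.1 hu
    obtain ⟨c, rfl⟩ := Submodule.mem_span_singleton.1 hy
    rw [h, hU x hx, QuadraticMap.map_smul, hQw, map_smul, f_symm hf, hw x hx]
    simp
  have h1 := hmax _ ⟨_, rfl, hts⟩
  have h2 : U < U ⊔ (ZMod 2) ∙ w := by
    refine lt_of_le_of_ne le_sup_left ?_
    intro heq
    apply hwU
    rw [heq]
    exact Submodule.mem_sup_right (Submodule.mem_span_singleton_self w)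
  have h3 := Submodule.finrank_lt_finrank_of_lt h2
  omega

theorem ts_le_orth (hf : f.IsAlt) {Q : QuadraticForm (ZMod 2) W} (h : IsForm f Q)
    {U : Submodule (ZMod 2) W} (hU : ∀ u ∈ U, Q u = 0) : U ≤ f.orthogonal U := by
  intro u hu
  rw [mem_orth hf]
  intro v hv
  have := h u v
  rw [hU _ (U.add_mem hu hv), hU u hu, hU v hv] at this
  simpa using this.symm

theorem card_orth [Fintype W] (hf : f.IsAlt) (hnd : f.Nondegenerate)
    (U : Submodule (ZMod 2) W) [DecidablePred fun w : W => ∀ u ∈ U, f w u = 0] :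
    (univ.filter (fun w : W => ∀ u ∈ U, f w u = 0)).card
      = 2 ^ (Module.finrank (ZMod 2) W - Module.finrank (ZMod 2) U) := by
  classical
  have : FiniteDimensional (ZMod 2) W := Module.Finite.of_finite
  have h1 : Fintype.card (f.orthogonal U) =
      (univ.filter (fun w : W => ∀ u ∈ U, f w u = 0)).card := by
    rw [Fintype.card_subtype]
    congr 1
    ext w
    simp [mem_orth hf]
  rw [← h1, card_sub]
  congr 1
  have := finrank_orth hnd U
  omega

theorem S_eq_of_max [Fintype W] (hf : f.IsAlt) (hnd : f.Nondegenerate)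
    {Q : QuadraticForm (ZMod 2) W} (h : IsForm f Q) {U : Submodule (ZMod 2) W}
    (hU : ∀ u ∈ U, Q u = 0) (hmax : ∀ w, (∀ u ∈ U, f w u = 0) → Q w = 0 → w ∈ U) :
    S Q = 2 * 2 ^ Module.finrank (ZMod 2) U
      - 2 ^ (Module.finrank (ZMod 2) W - Module.finrank (ZMod 2) U) := by
  classical
  rw [S_eq_sum_orth hf h U hU]
  have hsub : univ.filter (fun w : W => w ∈ U) ⊆
      univ.filter (fun w : W => ∀ u ∈ U, f w u = 0) := by
    intro w hw
    simp only [mem_filter, mem_univ, true_and] at hw ⊢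
    exact (mem_orth hf).1 (ts_le_orth hf h hU hw)
  rw [← Finset.sum_sdiff hsub]
  have h1 : ∑ w ∈ univ.filter (fun w : W => w ∈ U), chi (Q w)
      = 2 ^ Module.finrank (ZMod 2) U := by
    rw [Finset.sum_congr rfl (g := fun _ => (1 : ℤ))]
    · rw [Finset.sum_const, nsmul_eq_mul, mul_one]
      have : (univ.filter (fun w : W => w ∈ U)).card = Fintype.card U :=
        (Fintype.card_subtype _).symm
      rw [this, card_sub]
      norm_cast
    · intro w hw
      simp only [mem_filter, mem_univ, true_and] at hw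
      rw [hU w hw]; rfl
  have h2 : ∑ w ∈ univ.filter (fun w : W => ∀ u ∈ U, f w u = 0) \
      univ.filter (fun w : W => w ∈ U), chi (Q w)
      = - (2 ^ (Module.finrank (ZMod 2) W - Module.finrank (ZMod 2) U)
        - 2 ^ Module.finrank (ZMod 2) U) := by
    rw [Finset.sum_congr rfl (g := fun _ => (-1 : ℤ))]
    · rw [Finset.sum_const, nsmul_eq_mul, Finset.card_sdiff_of_subset hsub,
        Nat.cast_sub (Finset.card_le_card hsub), card_orth hf hnd U]
      have : (univ.filter (fun w : W => w ∈ U)).card = Fintype.card U :=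
        (Fintype.card_subtype _).symm
      rw [this, card_sub]
      push_cast
      ring
    · intro w hw
      simp only [mem_sdiff, mem_filter, mem_univ, true_and] at hw
      rw [chi_eq_neg_one_iff, ← ne_zero_iff]
      intro hQ
      exact hw.2 (hmax w hw.1 hQ)
  rw [h1, h2]
  ring

theorem S_pm [Fintype W] (hf : f.IsAlt) (hnd : f.Nondegenerate)
    {Q : QuadraticForm (ZMod 2) W} (h : IsForm f Q) {n : ℕ}
    (hdim : Module.finrank (ZMod 2) W = 2 * n) : S Q = 2 ^ n ∨ S Q = - 2 ^ n := by
  have h1 := S_sq hf hnd h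
  rw [card_W, hdim] at h1
  have h2 : S Q * S Q = (2 ^ n) * (2 ^ n) := by
    rw [h1]; push_cast; ring
  exact mul_self_eq_mul_self_iff.1 h2

theorem witt_aux {n m : ℕ} (hm : m ≤ n) {s : ℤ}
    (hs : s = 2 * 2 ^ m - 2 ^ (2 * n - m)) :
    (s = 2 ^ n → m = n) ∧ (s = - 2 ^ n → m + 1 = n) := by
  obtain ⟨d, rfl⟩ := Nat.exists_eq_add_of_le hm
  have h1 : 2 * (m + d) - m = m + (d + d) := by omega
  rw [h1, pow_add, pow_add] at hs
  have hmpos : (0 : ℤ) < 2 ^ m := by positivity
  constructor
  · intro h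
    rw [h, pow_add] at hs
    have h2 : (2 : ℤ) ^ d = 2 - 2 ^ d * 2 ^ d := by
      apply mul_left_cancel₀ hmpos.ne'
      linarith
    have h3 : (2 : ℤ) ^ d = 1 := by nlinarith [pow_pos (show (0 : ℤ) < 2 by norm_num) d]
    have h4 : d = 0 := by
      by_contra hd
      have : (2 : ℤ) ^ 1 ≤ 2 ^ d := pow_le_pow_right₀ (by norm_num) (by omega)
      omega
    omega
  · intro h
    rw [h, pow_add] at hs
    have h2 : - (2 : ℤ) ^ d = 2 - 2 ^ d * 2 ^ d := by
      apply mul_left_cancel₀ hmpos.ne'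
      linarith
    have h3 : (2 : ℤ) ^ d = 2 := by nlinarith [pow_pos (show (0 : ℤ) < 2 by norm_num) d]
    have h4 : d = 1 := by
      rcases Nat.lt_or_ge d 2 with hd | hd
      · interval_cases d
        · norm_num at h3
        · rfl
      · have : (2 : ℤ) ^ 2 ≤ 2 ^ d := pow_le_pow_right₀ (by norm_num) hd
        omega
    omega

theorem finrank_ts_le [FiniteDimensional (ZMod 2) W] (hf : f.IsAlt) (hnd : f.Nondegenerate)
    {Q : QuadraticForm (ZMod 2) W} (h : IsForm f Q) {n : ℕ}
    (hdim : Module.finrank (ZMod 2) W = 2 * n) {U : Submodule (ZMod 2) W}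
    (hU : ∀ u ∈ U, Q u = 0) : Module.finrank (ZMod 2) U ≤ n := by
  have h1 := Submodule.finrank_mono (ts_le_orth hf h hU)
  have h2 := finrank_orth hnd U
  omega

/-- The type of a form, in terms of the Witt index or of the character sum. -/
theorem hasWittIndex_iff [Fintype W] (hf : f.IsAlt) (hnd : f.Nondegenerate)
    {Q : QuadraticForm (ZMod 2) W} (h : IsForm f Q) {n : ℕ} (hn : 1 ≤ n)
    (hdim : Module.finrank (ZMod 2) W = 2 * n) (ε : ℤˣ) :
    HasWittIndex Q (if ε = 1 then n else n - 1) ↔ S Q = ε * 2 ^ n := by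
  have : FiniteDimensional (ZMod 2) W := Module.Finite.of_finite
  obtain ⟨U, hU, hW, hmax⟩ := exists_max_ts hf h
  have hS := S_eq_of_max hf hnd h hU hmax
  rw [hdim] at hS
  have hle := finrank_ts_le hf hnd h hdim hU
  have haux := witt_aux hle hS
  have hpm := S_pm hf hnd h hdim
  have hpos : (0 : ℤ) < 2 ^ n := by positivity
  have hiff : ∀ m, HasWittIndex Q m ↔ Module.finrank (ZMod 2) U = m := by
    intro m
    constructor
    · intro hm
      exact hW.unique hm
    · rintro rfl
      exact hW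
  rw [hiff]
  rcases Int.units_eq_one_or ε with rfl | rfl
  · simp only [if_true, Units.val_one, one_mul]
    constructor
    · intro hm
      rcases hpm with h1 | h1
      · exact h1
      · have := haux.2 h1; omega
    · intro h1; exact haux.1 h1
  · have hne : ¬ ((-1 : ℤˣ) = 1) := by decide
    simp only [if_neg hne, Units.val_neg, Units.val_one, neg_mul, one_mul]
    constructor
    · intro hm
      rcases hpm with h1 | h1
      · have := haux.1 h1; omega
      · exact h1
    · intro h1; have := haux.2 h1; omega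

end Pool.Agent.H66.SIT
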