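import Pool.Agent.H66.SIT.Sub

/-!
# Extension of isometries (Witt), simplex bases, transitivity on subspaces
-/

open Finset

namespace Pool.Agent.H66.SIT

variable {W : Type*} [AddCommGroup W] [Module (ZMod 2) W]
variable {f : LinearMap.BilinForm (ZMod 2) W}

theorem exists_orth_ne [FiniteDimensional (ZMod 2) W] (hf : f.IsAlt) (hnd : f.Nondegenerate)
    {M : Submodule (ZMod 2) W} {x : W} (hx : x ∉ M) :
    ∃ z, (∀ u ∈ M, f z u = 0) ∧ f z x = 1 := by
  by_contra hcon
  push Not at hcon
  apply hx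
  have hrefl : f.IsRefl := by
    intro x y h
    rw [f_symm hf]; exact h
  rw [← LinearMap.BilinForm.orthogonal_orthogonal hnd hrefl M]
  rw [LinearMap.BilinForm.mem_orthogonal_iff]
  intro z hz
  have h1 := hcon z ((mem_orth hf).1 hz)
  exact (ne_one_iff _).1 h1

theorem exists_isom_step [FiniteDimensional (ZMod 2) W] (hf : f.IsAlt) (hnd : f.Nondegenerate)
    {L : Submodule (ZMod 2) W} {x x' : W} (hx : x ∉ L) (hx' : x' ∉ L)
    (h : ∀ l ∈ L, f l x = f l x') :
    ∃ g : W ≃ₗ[ZMod 2] W, Isom f g ∧ (∀ l ∈ L, g l = l) ∧ g x = x' := by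
  have hLd : ∀ l ∈ L, f l (x + x') = 0 := by
    intro l hl
    rw [map_add, h l hl, add_self_zmod]
  have hxd : x + (x + x') = x' := by rw [← add_assoc, add_self_W, zero_add]
  rcases zmod2_cases (f x x') with hxx | hxx
  · -- orthogonal
    have hxM : x ∉ L ⊔ (ZMod 2) ∙ (x + x') := by
      intro hmem
      obtain ⟨l, hl, y, hy, hsum⟩ := Submodule.mem_sup.1 hmem
      obtain ⟨c, rfl⟩ := Submodule.mem_span_singleton.1 hy
      rcases zmod2_cases c with rfl | rfl
      · rw [zero_smul, add_zero] at hsum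
        exact hx (hsum ▸ hl)
      · rw [one_smul] at hsum
        apply hx'
        have : l = x' := by
          have h1 : l + (x + x') + (x + x') = x + (x + x') := by rw [hsum]
          rw [add_add_cancel_W, hxd] at h1
          exact h1
        exact this ▸ hl
    obtain ⟨z, hz, hzx⟩ := exists_orth_ne hf hnd hxM
    have hzd : f z (x + x') = 0 :=
      hz _ (Submodule.mem_sup_right (Submodule.mem_span_singleton_self _))
    have hzL : ∀ l ∈ L, f l z = 0 := fun l hl => by
      rw [f_symm hf]; exact hz l (Submodule.mem_sup_left hl)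
    refine ⟨(transv hf z).trans (transv hf (z + (x + x'))),
      (transv_isom hf _).trans (transv_isom hf _), ?_, ?_⟩
    · intro l hl
      rw [LinearEquiv.trans_apply, transv_of_eq_zero hf (hzL l hl), transv_of_eq_zero hf]
      rw [map_add, hzL l hl, hLd l hl, add_zero]
    · have h1 : f x z = 1 := by rw [f_symm hf]; exact hzx
      rw [LinearEquiv.trans_apply, transv_of_eq_one hf h1, transv_of_eq_one hf]
      · have : x + z + (z + (x + x')) = x + (x + x') + (z + z) := by abel
        rw [this, add_self_W, add_zero, hxd]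
      · have h2 : f x (x + x') = 0 := by rw [map_add, f_self hf, hxx, add_zero]
        rw [map_add (f (x + z)) z (x + x'), map_add f x z, LinearMap.add_apply,
          LinearMap.add_apply, h1, h2, f_self hf, hzd]
        rfl
  · refine ⟨transv hf (x + x'), transv_isom hf _, ?_, ?_⟩
    · intro l hl
      exact transv_of_eq_zero hf (hLd l hl)
    · rw [transv_of_eq_one hf, hxd]
      rw [map_add, f_self hf, hxx]; rfl

/-- Witt's extension theorem for alternating forms over the field with two elements -/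
theorem witt_ext [Finite W] (hf : f.IsAlt) (hnd : f.Nondegenerate)
    (L : Submodule (ZMod 2) W) (σ : L →ₗ[ZMod 2] W) (hinj : Function.Injective σ)
    (hσ : ∀ x y : L, f (σ x) (σ y) = f x y) :
    ∃ g : W ≃ₗ[ZMod 2] W, Isom f g ∧ ∀ x : L, g x = σ x := by
  classical
  have hfd : FiniteDimensional (ZMod 2) W := Module.Finite.of_finite
  let P : ℕ → Prop := fun d => ∃ M : Submodule (ZMod 2) W, M ≤ L ∧
    Module.finrank (ZMod 2) M = d ∧ ∃ g : W ≃ₗ[ZMod 2] W, Isom f g ∧
      ∀ x : L, (x : W) ∈ M → g x = σ x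
  have hP0 : P 0 := by
    refine ⟨⊥, bot_le, finrank_bot _ _, LinearEquiv.refl _ _, Isom.refl, ?_⟩
    intro x hx
    rw [Submodule.mem_bot] at hx
    have : x = 0 := Subtype.ext hx
    rw [this, map_zero]; rfl
  have hspec : P (Nat.findGreatest P (Module.finrank (ZMod 2) W)) :=
    Nat.findGreatest_spec (P := P) (Nat.zero_le _) hP0
  obtain ⟨M, hML, hMd, g, hg, hgσ⟩ := hspec
  have hmax : ∀ d, P d → d ≤ Module.finrank (ZMod 2) M := by
    intro d hd
    rw [hMd]
    refine Nat.le_findGreatest ?_ hd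
    obtain ⟨M', _, rfl, _⟩ := hd
    exact Submodule.finrank_le M'
  by_cases hMe : M = L
  · exact ⟨g, hg, fun x => hgσ x (by rw [hMe]; exact x.2)⟩
  exfalso
  obtain ⟨x, hxL, hxM⟩ := SetLike.exists_of_lt (lt_of_le_of_ne hML hMe)
  have h1 : g x ∉ M.map (g : W →ₗ[ZMod 2] W) := by
    intro h
    obtain ⟨m, hm, hmx⟩ := Submodule.mem_map.1 h
    exact hxM (g.injective hmx ▸ hm)
  have h2 : σ ⟨x, hxL⟩ ∉ M.map (g : W →ₗ[ZMod 2] W) := by
    intro h
    obtain ⟨m, hm, hmx⟩ := Submodule.mem_map.1 h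
    have h3 : σ ⟨m, hML hm⟩ = σ ⟨x, hxL⟩ := by
      rw [← hgσ ⟨m, hML hm⟩ hm]; exact hmx
    have h4 := congrArg Subtype.val (hinj h3)
    simp only at h4
    exact hxM (h4 ▸ hm)
  obtain ⟨h, hh, hhM, hhx⟩ := exists_isom_step hf hnd h1 h2 (by
    intro l hl
    obtain ⟨m, hm, rfl⟩ := Submodule.mem_map.1 hl
    change f (g m) (g x) = f (g m) (σ ⟨x, hxL⟩)
    rw [hg, hgσ ⟨m, hML hm⟩ hm, hσ])
  have hlt : M < M ⊔ (ZMod 2) ∙ x := by
    refine lt_of_le_of_ne le_sup_left ?_
    intro heq
    apply hxM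
    rw [heq]
    exact Submodule.mem_sup_right (Submodule.mem_span_singleton_self x)
  have h3 := Submodule.finrank_lt_finrank_of_lt hlt
  have h4 := hmax _ ⟨M ⊔ (ZMod 2) ∙ x, ?_, rfl, g.trans h, hg.trans hh, ?_⟩
  · omega
  · refine sup_le hML ?_
    rw [Submodule.span_singleton_le_iff_mem]; exact hxL
  · intro y hy
    obtain ⟨m, hm, z, hz, hsum⟩ := Submodule.mem_sup.1 hy
    obtain ⟨c, rfl⟩ := Submodule.mem_span_singleton.1 hz
    have hy' : y = ⟨m, hML hm⟩ + c • ⟨x, hxL⟩ := Subtype.ext hsum.symm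
    rw [LinearEquiv.trans_apply, hy', map_add, map_smul, ← hgσ ⟨m, hML hm⟩ hm, ← hhx]
    have h5 : h (g m) = g m := hhM _ (Submodule.mem_map_of_mem hm)
    rw [Submodule.coe_add, Submodule.coe_smul, map_add, map_smul, map_add, map_smul]
    change h (g m) + _ = g m + _
    rw [h5]

theorem exists_isom_of_equiv [Finite W] (hf : f.IsAlt) (hnd : f.Nondegenerate)
    {Y Y' : Submodule (ZMod 2) W} (e : Y ≃ₗ[ZMod 2] Y')
    (he : ∀ x y : Y, f (e x) (e y) = f x y) :
    ∃ g : W ≃ₗ[ZMod 2] W, Isom f g ∧ ∀ x, g x ∈ Y' ↔ x ∈ Y := by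
  obtain ⟨g, hg, hgσ⟩ := witt_ext hf hnd Y (Y'.subtype ∘ₗ (e : Y →ₗ[ZMod 2] Y'))
    (Y'.injective_subtype.comp e.injective) he
  refine ⟨g, hg, fun x => ⟨fun hx => ?_, fun hx => ?_⟩⟩
  · have h1 : g (e.symm ⟨g x, hx⟩ : Y) = g x := by
      rw [hgσ]
      change ((e (e.symm ⟨g x, hx⟩) : Y') : W) = g x
      rw [e.apply_symm_apply]
    have h2 := g.injective h1
    rw [← h2]
    exact (e.symm ⟨g x, hx⟩).2
  · have h1 := hgσ ⟨x, hx⟩
    simp only at h1
    rw [h1]
    exact (e ⟨x, hx⟩).2

/-- transitivity on totally isotropic subspaces -/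
theorem exists_isom_ti [Finite W] (hf : f.IsAlt) (hnd : f.Nondegenerate)
    {Y Y' : Submodule (ZMod 2) W} (hY : ∀ x ∈ Y, ∀ y ∈ Y, f x y = 0)
    (hY' : ∀ x ∈ Y', ∀ y ∈ Y', f x y = 0)
    (hd : Module.finrank (ZMod 2) Y = Module.finrank (ZMod 2) Y') :
    ∃ g : W ≃ₗ[ZMod 2] W, Isom f g ∧ ∀ x, g x ∈ Y' ↔ x ∈ Y := by
  have hfd : FiniteDimensional (ZMod 2) W := Module.Finite.of_finite
  exact exists_isom_of_equiv hf hnd (LinearEquiv.ofFinrankEq Y Y' hd) fun x y => by
    rw [hY x x.2 y y.2, hY' _ (Subtype.prop _) _ (Subtype.prop _)]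

/-- a functional with value one on all members of an independent family -/
theorem exists_all_one [FiniteDimensional (ZMod 2) W] (hnd : f.Nondegenerate)
    (hf : f.IsAlt) {m : ℕ} {e : Fin m → W} (he : LinearIndependent (ZMod 2) e) :
    ∃ u, ∀ i, f (e i) u = 1 := by
  let φ := (Module.Basis.span he).constr (ZMod 2) (fun _ => (1 : ZMod 2))
  obtain ⟨ψ, hψ⟩ := LinearMap.exists_extend φ
  obtain ⟨u, hu⟩ := exists_rep hnd ψ
  refine ⟨u, fun i => ?_⟩
  rw [f_symm hf, hu]
  have h1 : ψ (e i) = (ψ ∘ₗ (Submodule.span (ZMod 2) (Set.range e)).subtype)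
      (Module.Basis.span he i) := by
    rw [LinearMap.comp_apply, Submodule.subtype_apply, Module.Basis.span_apply]
  rw [h1, hψ, Module.Basis.constr_basis]

/-- existence of simplex families -/
theorem exists_simplex [Finite W] (hf : f.IsAlt) (hnd : f.Nondegenerate) :
    ∀ m ≤ Module.finrank (ZMod 2) W, ∃ e : Fin m → W, LinearIndependent (ZMod 2) e ∧
      ∀ i j, i ≠ j → f (e i) (e j) = 1 := by
  have hfd : FiniteDimensional (ZMod 2) W := Module.Finite.of_finite
  intro m
  induction m with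
  | zero =>
    intro _
    exact ⟨fun _ => 0, linearIndependent_empty_type, fun i => i.elim0⟩
  | succ m ih =>
    intro hm
    obtain ⟨e, he, hij⟩ := ih (by omega)
    obtain ⟨u, hu⟩ := exists_all_one hnd hf he
    -- solutions in the span
    have hsol : ∀ v ∈ Submodule.span (ZMod 2) (Set.range e), (∀ j, f (e j) v = 1) →
        v = ∑ i, e i := by
      intro v hv hj
      obtain ⟨c, rfl⟩ := (Submodule.mem_span_range_iff_exists_fun _).1 hv
      have h1 : ∀ j, ∑ i, c i + c j = 1 := by
        intro j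
        have h2 := hj j
        rw [map_sum] at h2
        have h3 : ∀ i, f (e j) (c i • e i) = c i + if i = j then c i else 0 := by
          intro i
          rw [map_smul, smul_eq_mul]
          by_cases hi : i = j
          · rw [if_pos hi, hi, f_self hf, mul_zero, add_self_zmod]
          · rw [if_neg hi, hij j i (Ne.symm hi), mul_one, add_zero]
        rw [Finset.sum_congr rfl fun i _ => h3 i, Finset.sum_add_distrib,
          Finset.sum_ite_eq' univ j, if_pos (mem_univ _)] at h2
        exact h2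
      refine Finset.sum_congr rfl fun i _ => ?_
      rcases zmod2_cases (c i) with h4 | h4
      · exfalso
        have h5 : ∀ j, c j = 0 := by
          intro j
          have h6 := h1 i
          have h7 := h1 j
          rw [h4] at h6
          linear_combination h7 - h6
        have h8 := h1 i
        rw [Finset.sum_congr rfl fun j _ => h5 j, h4] at h8
        simp at h8
      · rw [h4, one_smul]
    obtain ⟨v, hv, hvs⟩ : ∃ v, (∀ j, f (e j) v = 1) ∧
        v ∉ Submodule.span (ZMod 2) (Set.range e) := by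
      by_cases hus : u ∈ Submodule.span (ZMod 2) (Set.range e)
      swap
      · exact ⟨u, hu, hus⟩
      have h1 := finrank_orth hnd (Submodule.span (ZMod 2) (Set.range e))
      rw [finrank_span_eq_card he, Fintype.card_fin] at h1
      have h2 : f.orthogonal (Submodule.span (ZMod 2) (Set.range e)) ≠ ⊥ := by
        intro h3
        rw [h3, finrank_bot] at h1
        omega
      obtain ⟨z, hz, hz0⟩ := Submodule.exists_mem_ne_zero_of_ne_bot h2
      have hz1 : ∀ j, f (e j) (u + z) = 1 := by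
        intro j
        rw [map_add, hu, f_symm hf, (mem_orth hf).1 hz _ (Submodule.subset_span ⟨j, rfl⟩),
          add_zero]
      refine ⟨u + z, hz1, fun hmem => hz0 ?_⟩
      have h3 := hsol u hus hu
      have h4 := hsol _ hmem hz1
      rw [h3] at h4
      exact left_eq_add.1 h4.symm
    refine ⟨Fin.snoc e v, linearIndependent_finSnoc.2 ⟨he, hvs⟩, ?_⟩
    intro i j
    refine Fin.lastCases ?_ (fun i' => ?_) i
    · refine Fin.lastCases ?_ (fun j' => ?_) j
      · intro h; exact absurd rfl h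
      · intro _
        rw [Fin.snoc_last, Fin.snoc_castSucc, f_symm hf, hv]
    · refine Fin.lastCases ?_ (fun j' => ?_) j
      · intro _
        rw [Fin.snoc_last, Fin.snoc_castSucc, hv]
      · intro h
        rw [Fin.snoc_castSucc, Fin.snoc_castSucc]
        exact hij i' j' fun hh => h (by rw [hh])

/-- a simplex basis -/
theorem exists_simplex_basis [Finite W] (hf : f.IsAlt) (hnd : f.Nondegenerate) {d : ℕ}
    (hd : Module.finrank (ZMod 2) W = d) :
    ∃ b : Module.Basis (Fin d) (ZMod 2) W, ∀ i j, i ≠ j → f (b i) (b j) = 1 := by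
  have hfd : FiniteDimensional (ZMod 2) W := Module.Finite.of_finite
  obtain ⟨e, he, hij⟩ := exists_simplex hf hnd d hd.ge
  have hcard : Fintype.card (Fin d) = Module.finrank (ZMod 2) W := by
    rw [hd, Fintype.card_fin]
  refine ⟨basisOfLinearIndependentOfCardEqFinrank' e he hcard, ?_⟩
  intro i j h
  rw [coe_basisOfLinearIndependentOfCardEqFinrank']
  exact hij i j h

/-- symplectic spaces of the same dimension are isometric -/
theorem exists_isometry {V V' : Type*} [AddCommGroup V] [Module (ZMod 2) V] [Finite V]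
    [AddCommGroup V'] [Module (ZMod 2) V'] [Finite V']
    {f : LinearMap.BilinForm (ZMod 2) V} {f' : LinearMap.BilinForm (ZMod 2) V'}
    (hf : f.IsAlt) (hnd : f.Nondegenerate) (hf' : f'.IsAlt) (hnd' : f'.Nondegenerate)
    (hd : Module.finrank (ZMod 2) V = Module.finrank (ZMod 2) V') :
    ∃ e : V ≃ₗ[ZMod 2] V', ∀ x y, f' (e x) (e y) = f x y := by
  obtain ⟨b, hb⟩ := exists_simplex_basis hf hnd rfl
  obtain ⟨b', hb'⟩ := exists_simplex_basis hf' hnd' hd.symm
  let e := b.equiv b' (Equiv.refl _)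
  refine ⟨e, ?_⟩
  have h1 : f'.comp (e : V →ₗ[ZMod 2] V') (e : V →ₗ[ZMod 2] V') = f := by
    apply LinearMap.BilinForm.ext_basis b
    intro i j
    change f' (e (b i)) (e (b j)) = f (b i) (b j)
    have h2 : ∀ i, e (b i) = b' i := fun i => by
      rw [Module.Basis.equiv_apply]; rfl
    rw [h2, h2]
    by_cases hij : i = j
    · rw [hij, f_self hf, f_self hf']
    · rw [hb i j hij, hb' i j hij]
  intro x y
  rw [← h1]
  rfl

/-- transitivity on nondegenerate subspaces -/
theorem exists_isom_nd [Finite W] (hf : f.IsAlt) (hnd : f.Nondegenerate)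
    {Y Y' : Submodule (ZMod 2) W} (hY : (f.restrict Y).Nondegenerate)
    (hY' : (f.restrict Y').Nondegenerate)
    (hd : Module.finrank (ZMod 2) Y = Module.finrank (ZMod 2) Y') :
    ∃ g : W ≃ₗ[ZMod 2] W, Isom f g ∧ ∀ x, g x ∈ Y' ↔ x ∈ Y := by
  obtain ⟨e, he⟩ := exists_isometry (restrict_isAlt hf Y) hY (restrict_isAlt hf Y') hY' hd
  exact exists_isom_of_equiv hf hnd e fun x y => he x y

end Pool.Agent.H66.SIT
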